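import Pool.Agent.Hhelper10.Dom.SysDefs

/-! Module G (MP_f4fe70_co): averaging the core inequality over the trees and the roots. -/

set_option autoImplicit false
set_option linter.unusedSectionVars false

open Finset

namespace Pool.Agent.Hhelper10.Dom

namespace TreeSys

lemma pavg_eq {D N : ℕ} (g : (Fin D → Fin N) → ℝ) :
    pavg g = ∑ c, ((N : ℝ) ^ D)⁻¹ * g c := by
  unfold pavg
  rw [← Finset.mul_sum, div_eq_inv_mul]

lemma uni_sum {D N : ℕ} (hN : 0 < N) : ∑ _c : Fin D → Fin N, ((N : ℝ) ^ D)⁻¹ = 1 := by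
  have h := pavg_const (D := D) hN 1
  rw [pavg_eq] at h
  simpa using h

/-- the union of the sets other than the `l`-th -/
def rootsOf {V : Type} [DecidableEq V] {m : ℕ} (A : Fin m → Finset V) (l : Fin m) : Finset V :=
  (univ.erase l).biUnion A

open Classical in
/-- the pattern sets, as functions of the family of roots -/
noncomputable def AsetOf {V : Type} [Fintype V] [DecidableEq V] (adj : V → V → Prop)
    (Has : Finset V → Prop) {m : ℕ} (A : Fin m → Finset V) (H : Finset V)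
    (S s : Finset (Fin m)) (l : Fin m) : Finset V :=
  univ.filter (fun y => ∀ k ∈ S, k ≠ l → (Rp adj Has H (A k) y ↔ k ∈ s))

lemma rootsOf_congr {V : Type} [DecidableEq V] {m : ℕ} {A B : Fin m → Finset V} {l : Fin m}
    (h : ∀ t, t ≠ l → A t = B t) : rootsOf A l = rootsOf B l := by
  unfold rootsOf
  refine Finset.biUnion_congr rfl fun t ht => h t (Finset.ne_of_mem_erase ht)

lemma AsetOf_congr {V : Type} [Fintype V] [DecidableEq V] {adj : V → V → Prop}
    {Has : Finset V → Prop} {m : ℕ} {A B : Fin m → Finset V} {H : Finset V}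
    {S s : Finset (Fin m)} {l : Fin m}
    (h : ∀ t, t ≠ l → A t = B t) : AsetOf adj Has A H S s l = AsetOf adj Has B H S s l := by
  classical
  unfold AsetOf
  refine Finset.filter_congr fun y _ => ?_
  constructor
  · intro hy k hk hkl
    rw [← h k hkl]; exact hy k hk hkl
  · intro hy k hk hkl
    rw [h k hkl]; exact hy k hk hkl

variable {V : Type} [Fintype V] [DecidableEq V] {adj : V → V → Prop} {Has : Finset V → Prop}
  {ε : ℝ} {M' : ℕ} {U : Finset V} {D N : ℕ} {θ : ℝ}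
  (S : TreeSys V adj Has ε M' U D N θ) {m : ℕ} (F : (Fin m → S.Ω) → Finset V) (δ : ℝ)

/-- expectation over the roots and the trees -/
noncomputable def TT (f : (Fin m → (Fin D → Fin N)) → (Fin m → S.Ω) → ℝ) : ℝ :=
  S.EX (fun ω => EW (fun _ _ => ((N : ℝ) ^ D)⁻¹) (fun α => f α ω))

lemma TT_mono {f g : (Fin m → (Fin D → Fin N)) → (Fin m → S.Ω) → ℝ}
    (h : ∀ α ω, f α ω ≤ g α ω) : S.TT f ≤ S.TT g :=
  EW_mono (fun _ => S.p_nonneg) fun ω => EW_mono (fun _ _ => by positivity) fun α => h α ω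

lemma TT_add (f g : (Fin m → (Fin D → Fin N)) → (Fin m → S.Ω) → ℝ) :
    S.TT (fun α ω => f α ω + g α ω) = S.TT f + S.TT g := by
  unfold TT EX
  rw [← EW_add]
  congr 1
  funext ω
  rw [EW_add]

lemma TT_mul_left (c : ℝ) (f : (Fin m → (Fin D → Fin N)) → (Fin m → S.Ω) → ℝ) :
    S.TT (fun α ω => c * f α ω) = c * S.TT f := by
  unfold TT EX
  rw [← EW_mul_left]
  congr 1
  funext ω
  rw [EW_mul_left]

lemma TT_sum {ι : Type} (s : Finset ι)
    (f : ι → (Fin m → (Fin D → Fin N)) → (Fin m → S.Ω) → ℝ) :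
    S.TT (fun α ω => ∑ k ∈ s, f k α ω) = ∑ k ∈ s, S.TT (f k) := by
  unfold TT EX
  rw [← EW_sum]
  congr 1
  funext ω
  rw [EW_sum]

lemma TT_const (hN : 0 < N) (c : ℝ) : S.TT (m := m) (fun _ _ => c) = c := by
  unfold TT EX
  have : (fun _ω : Fin m → S.Ω => EW (fun _ _ => ((N : ℝ) ^ D)⁻¹)
      (fun _α : Fin m → (Fin D → Fin N) => c)) = fun _ => c := by
    funext ω
    exact EW_const (fun _ => uni_sum hN) c
  rw [this]
  exact EW_const (fun _ => S.p_sum) c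

lemma TT_comm (f : (Fin m → (Fin D → Fin N)) → (Fin m → S.Ω) → ℝ) :
    S.TT f = EW (fun _ _ => ((N : ℝ) ^ D)⁻¹) (fun α => S.EX (fun ω => f α ω)) := by
  unfold TT EX EW
  simp only [Finset.mul_sum]
  rw [Finset.sum_comm]
  refine Finset.sum_congr rfl fun α _ => Finset.sum_congr rfl fun ω _ => ?_
  ring

/-- the columns of the experiment with roots `α` -/
noncomputable def cols (hεδ : 12 * ε ≤ δ) (hδ : 0 < δ) (hN : 0 < N) {i j l : ℕ}
    (hij : i < j) (hjl : j < l) (hl : l ≤ D) (α : Fin m → (Fin D → Fin N)) (ω : Fin m → S.Ω) :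
    Cols V adj Has ε δ M' m (F ω) (Fin D → Fin N) where
  w := fun _ _ => ((N : ℝ) ^ D)⁻¹
  w0 := fun _ _ => by positivity
  w1 := fun _ => uni_sum hN
  a := fun t => S.Q (S.st (ω t) i (α t))
  b := fun t c => S.Q (S.st (ω t) j (splice i (α t) c))
  e := fun t c => S.Q (S.st (ω t) l (splice i (α t) c))
  νa := fun t => S.nu (S.st (ω t) i (α t))
  νb := fun t c => S.nu (S.st (ω t) j (splice i (α t) c))
  ha := fun t => S.heavy _
  hb := fun t c => S.heavy _
  hab := fun t c x hx z hz => by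
    have h1 : S.st (ω t) i (α t) = S.st (ω t) i (splice i (α t) c) :=
      S.st_prefix _ _ _ _ fun k hk => by simp [splice, hk]
    rw [h1] at hx
    exact S.dom (ω t) i j _ hij (by omega) x hx z hz
  hbe := fun t c x hx z hz => S.dom (ω t) j l _ hjl hl x hx z hz
  G := fun t c => S.gd F δ ω t i (splice i (α t) c) ∧ S.gd F δ ω t j (splice i (α t) c) ∧
    S.gd F δ ω t l (splice i (α t) c)
  ga := fun t c h => by
    have h1 : S.st (ω t) i (α t) = S.st (ω t) i (splice i (α t) c) :=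
      S.st_prefix _ _ _ _ fun k hk => by simp [splice, hk]
    have h2 := h.1
    unfold gd at h2
    rw [h1]
    linarith
  gb := fun t c h => h.2.1

lemma st_splice (ω : S.Ω) (i : ℕ) (x c : Fin D → Fin N) :
    S.st ω i (splice i x c) = S.st ω i x :=
  S.st_prefix _ _ _ _ fun k hk => by simp [splice, hk]

include S in
lemma theta_nonneg {i j : ℕ} (hij : i < j) (hj : j ≤ D) (hN : 0 < N) : 0 ≤ θ := by
  have h := S.lln (fun _ => 0) (fun _ => le_rfl) (fun _ => zero_le_one) i j hij hj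
    (fun _ => ⟨0, hN⟩)
  have h2 : ∑ ω, S.p ω * |pavg (fun τ : Fin D → Fin N => (fun _ : S.T => (0 : ℝ))
      (S.st ω j (splice i (fun _ => ⟨0, hN⟩) τ))) - ∑ x, S.lam x * (fun _ => (0 : ℝ)) x| = 0 := by
    apply Finset.sum_eq_zero
    intro ω _
    simp [pavg]
  linarith

/-- the error of tree `l'` -/
noncomputable def errf (i j : ℕ) (wb : V → ℝ) (l' : Fin m) (α : Fin m → (Fin D → Fin N))
    (ω : Fin m → S.Ω) : ℝ :=
  ∑ H ∈ (rootsOf (fun t => S.Q (S.st (ω t) i (α t))) l').powerset, ∑ R : Finset (Fin m),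
    ∑ s : Finset (Fin m),
    |∑ c, ((N : ℝ) ^ D)⁻¹ *
      (∑ v ∈ AsetOf adj Has (fun t => S.Q (S.st (ω t) i (α t))) H R s l',
        S.nu (S.st (ω l') j (splice i (α l') c)) v) -
      ∑ v ∈ AsetOf adj Has (fun t => S.Q (S.st (ω t) i (α t))) H R s l', wb v|

lemma err_eq (hεδ : 12 * ε ≤ δ) (hδ : 0 < δ) (hN : 0 < N) {i j l : ℕ}
    (hij : i < j) (hjl : j < l) (hl : l ≤ D) (α : Fin m → (Fin D → Fin N)) (ω : Fin m → S.Ω)
    (wb : V → ℝ) (l' : Fin m) :
    (S.cols F δ hεδ hδ hN hij hjl hl α ω).err wb l' = S.errf i j wb l' α ω := rfl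

lemma rootsOf_card (i : ℕ) (l' : Fin m) (α : Fin m → (Fin D → Fin N)) (ω : Fin m → S.Ω) :
    (rootsOf (fun t => S.Q (S.st (ω t) i (α t))) l').card ≤ M' * m := by
  unfold rootsOf
  calc _ ≤ ∑ t ∈ univ.erase l', (S.Q (S.st (ω t) i (α t))).card := Finset.card_biUnion_le
    _ ≤ ∑ t ∈ univ.erase l', M' := Finset.sum_le_sum fun t _ => (S.heavy _).card
    _ ≤ ∑ _t : Fin m, M' := Finset.sum_le_sum_of_subset (Finset.subset_univ _)
    _ = M' * m := by simp [mul_comm]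

lemma EX_errf (hε : 0 ≤ θ) (i j : ℕ) (hij : i < j) (hj : j ≤ D) (l' : Fin m)
    (α : Fin m → (Fin D → Fin N)) :
    S.EX (fun ω => S.errf i j (fun v => ∑ x, S.lam x * S.nu x v) l' α ω) ≤
      2 ^ (M' * m) * 4 ^ m * θ := by
  classical
  unfold EX
  rw [EW_resample l' S.p_sum]
  have key : ∀ ω : Fin m → S.Ω, ∑ x, S.p x *
      S.errf i j (fun v => ∑ x, S.lam x * S.nu x v) l' α (Function.update ω l' x) ≤
      2 ^ (M' * m) * 4 ^ m * θ := by
    intro ω
    set A : Fin m → Finset V := fun t => S.Q (S.st (ω t) i (α t)) with hA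
    have hcongr : ∀ x : S.Ω, ∀ t, t ≠ l' →
        (fun t => S.Q (S.st (Function.update ω l' x t) i (α t))) t = A t := by
      intro x t ht
      simp only [hA]
      rw [Function.update_of_ne ht]
    have h1 : ∀ x : S.Ω,
        S.errf i j (fun v => ∑ x, S.lam x * S.nu x v) l' α (Function.update ω l' x) =
        ∑ H ∈ (rootsOf A l').powerset, ∑ R : Finset (Fin m), ∑ s : Finset (Fin m),
          |pavg (fun τ => ∑ v ∈ AsetOf adj Has A H R s l', S.nu (S.st x j (splice i (α l') τ)) v) -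
            ∑ y, S.lam y * ∑ v ∈ AsetOf adj Has A H R s l', S.nu y v| := by
      intro x
      unfold errf
      rw [rootsOf_congr (hcongr x)]
      refine Finset.sum_congr rfl fun H _ => Finset.sum_congr rfl fun R _ =>
        Finset.sum_congr rfl fun s _ => ?_
      rw [AsetOf_congr (hcongr x), Function.update_self, pavg_eq]
      have h2 : ∑ v ∈ AsetOf adj Has A H R s l', ∑ x, S.lam x * S.nu x v =
          ∑ y, S.lam y * ∑ v ∈ AsetOf adj Has A H R s l', S.nu y v := by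
        rw [Finset.sum_comm]
        refine Finset.sum_congr rfl fun y _ => ?_
        rw [Finset.mul_sum]
      rw [h2]
    simp only [h1]
    have h3 : ∑ x, S.p x * ∑ H ∈ (rootsOf A l').powerset, ∑ R : Finset (Fin m),
        ∑ s : Finset (Fin m),
          |pavg (fun τ => ∑ v ∈ AsetOf adj Has A H R s l', S.nu (S.st x j (splice i (α l') τ)) v) -
            ∑ y, S.lam y * ∑ v ∈ AsetOf adj Has A H R s l', S.nu y v| =
        ∑ H ∈ (rootsOf A l').powerset, ∑ R : Finset (Fin m), ∑ s : Finset (Fin m),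
          ∑ x, S.p x *
          |pavg (fun τ => ∑ v ∈ AsetOf adj Has A H R s l', S.nu (S.st x j (splice i (α l') τ)) v) -
            ∑ y, S.lam y * ∑ v ∈ AsetOf adj Has A H R s l', S.nu y v| := by
      simp only [Finset.mul_sum]
      rw [Finset.sum_comm]
      refine Finset.sum_congr rfl fun H _ => ?_
      rw [Finset.sum_comm]
      refine Finset.sum_congr rfl fun R _ => ?_
      rw [Finset.sum_comm]
    rw [h3]
    have h4 : ∀ H ∈ (rootsOf A l').powerset, ∀ R : Finset (Fin m), ∀ s : Finset (Fin m),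
        ∑ x, S.p x *
          |pavg (fun τ => ∑ v ∈ AsetOf adj Has A H R s l', S.nu (S.st x j (splice i (α l') τ)) v) -
            ∑ y, S.lam y * ∑ v ∈ AsetOf adj Has A H R s l', S.nu y v| ≤ θ := by
      intro H _ R s
      exact S.lln (fun y => ∑ v ∈ AsetOf adj Has A H R s l', S.nu y v)
        (fun y => Finset.sum_nonneg fun v _ => (S.heavy y).nonneg v)
        (fun y => by
          rw [← (S.heavy y).sum_one]
          exact Finset.sum_le_sum_of_subset_of_nonneg (Finset.subset_univ _)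
            fun v _ _ => (S.heavy y).nonneg v) i j hij hj (α l')
    calc _ ≤ ∑ H ∈ (rootsOf A l').powerset, ∑ R : Finset (Fin m), ∑ s : Finset (Fin m), θ :=
          Finset.sum_le_sum fun H hH => Finset.sum_le_sum fun R _ => Finset.sum_le_sum fun s _ =>
            h4 H hH R s
      _ = (2 : ℝ) ^ (rootsOf A l').card * 4 ^ m * θ := by
          simp only [Finset.sum_const, Finset.card_powerset, Finset.card_univ, Fintype.card_finset,
            Fintype.card_fin, nsmul_eq_mul]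
          push_cast
          have : (4 : ℝ) ^ m = 2 ^ m * 2 ^ m := by
            rw [← mul_pow]; norm_num
          rw [this]; ring
      _ ≤ (2 : ℝ) ^ (M' * m) * 4 ^ m * θ := by
          have h5 : (2 : ℝ) ^ (rootsOf A l').card ≤ 2 ^ (M' * m) :=
            pow_le_pow_right₀ (by norm_num) (S.rootsOf_card i l' α ω)
          have h6 : (2 : ℝ) ^ (rootsOf A l').card * 4 ^ m ≤ 2 ^ (M' * m) * 4 ^ m :=
            mul_le_mul_of_nonneg_right h5 (by positivity)
          exact mul_le_mul_of_nonneg_right h6 hε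
  calc _ ≤ EW (fun _ => S.p) (fun _ : Fin m → S.Ω => 2 ^ (M' * m) * 4 ^ m * θ) :=
        EW_mono (fun _ => S.p_nonneg) key
    _ = _ := EW_const (fun _ => S.p_sum) _

lemma TT_err (hθ : 0 ≤ θ) (hN : 0 < N) (i j : ℕ) (hij : i < j) (hj : j ≤ D) (l' : Fin m) :
    S.TT (fun α ω => S.errf i j (fun v => ∑ x, S.lam x * S.nu x v) l' α ω) ≤
      2 ^ (M' * m) * 4 ^ m * θ := by
  rw [TT_comm]
  calc _ ≤ EW (fun _ _ => ((N : ℝ) ^ D)⁻¹)
        (fun _ : Fin m → (Fin D → Fin N) => 2 ^ (M' * m) * 4 ^ m * θ) :=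
        EW_mono (fun _ _ => by positivity) fun α => S.EX_errf hθ i j hij hj l' α
    _ = _ := EW_const (fun _ => uni_sum hN) _

lemma TT_dens (hεδ : 12 * ε ≤ δ) (hδ : 0 < δ) (hN : 0 < N) {i j l : ℕ}
    (hij : i < j) (hjl : j < l) (hl : l ≤ D) :
    δ / 2 * S.Wt F δ i j l ≤
      S.TT (fun α ω => ∑ t, (S.cols F δ hεδ hδ hN hij hjl hl α ω).dens t) := by
  unfold TT Wt EX
  rw [← EW_mul_left]
  refine EW_mono (fun _ => S.p_nonneg) fun ω => ?_
  rw [EW_sum, Finset.mul_sum]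
  refine Finset.sum_le_sum fun t _ => ?_
  let G' : (Fin D → Fin N) → Prop := fun π =>
    S.gd F δ ω t i π ∧ S.gd F δ ω t j π ∧ S.gd F δ ω t l π
  let g : (Fin D → Fin N) → ℝ := fun x => ∑ c, ((N : ℝ) ^ D)⁻¹ *
    (ind (G' (splice i x c)) * ∑ v ∈ F ω, S.nu (S.st (ω t) j (splice i x c)) v)
  have h1 : EW (fun _ _ => ((N : ℝ) ^ D)⁻¹)
      (fun α : Fin m → (Fin D → Fin N) => (S.cols F δ hεδ hδ hN hij hjl hl α ω).dens t) =
      ∑ x, ((N : ℝ) ^ D)⁻¹ * g x :=
    EW_one (k := fun _ _ => ((N : ℝ) ^ D)⁻¹) (fun _ => uni_sum hN) t g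
  rw [h1, ← pavg_eq, ← pavg_splice hN i, ← pavg_mul_left]
  refine pavg_mono fun x => ?_
  show δ / 2 * pavg (fun τ => ind (G' (splice i x τ))) ≤ ∑ c, ((N : ℝ) ^ D)⁻¹ *
    (ind (G' (splice i x c)) * ∑ v ∈ F ω, S.nu (S.st (ω t) j (splice i x c)) v)
  rw [← pavg_eq, ← pavg_mul_left]
  refine pavg_mono fun c => ?_
  by_cases hG : G' (splice i x c)
  · rw [ind_of hG, one_mul, mul_one]
    exact hG.2.1
  · rw [ind_not hG, zero_mul, mul_zero]

lemma TT_dr (hεδ : 12 * ε ≤ δ) (hδ : 0 < δ) (hN : 0 < N) {i j l : ℕ}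
    (hij : i < j) (hjl : j < l) (hl : l ≤ D) {t t' : Fin m} (htt : t ≠ t') :
    S.TT (fun α ω => (S.cols F δ hεδ hδ hN hij hjl hl α ω).dr t t') ≤ S.Dr F δ i j l t t' := by
  unfold TT Dr EX
  refine EW_mono (fun _ => S.p_nonneg) fun ω => ?_
  let H : (Fin D → Fin N) → (Fin D → Fin N) → ℝ := fun π ρ =>
    ind (S.gd F δ ω t i π ∧ S.gd F δ ω t j π ∧ S.gd F δ ω t l π) *
      dropm adj Has (F ω) (S.Q (S.st (ω t) i π)) (S.Q (S.st (ω t) l π))
        (S.nu (S.st (ω t') j ρ))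
  let g : (Fin D → Fin N) → (Fin D → Fin N) → ℝ := fun x x' =>
    ∑ c, ((N : ℝ) ^ D)⁻¹ * ∑ c', ((N : ℝ) ^ D)⁻¹ *
      (ind (S.gd F δ ω t i (splice i x c) ∧ S.gd F δ ω t j (splice i x c) ∧
        S.gd F δ ω t l (splice i x c)) *
      dropm adj Has (F ω) (S.Q (S.st (ω t) i x)) (S.Q (S.st (ω t) l (splice i x c)))
        (S.nu (S.st (ω t') j (splice i x' c'))))
  have h1 : EW (fun _ _ => ((N : ℝ) ^ D)⁻¹)
      (fun α : Fin m → (Fin D → Fin N) => (S.cols F δ hεδ hδ hN hij hjl hl α ω).dr t t') =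
      ∑ x, ((N : ℝ) ^ D)⁻¹ * ∑ x', ((N : ℝ) ^ D)⁻¹ * g x x' :=
    EW_two (k := fun _ _ => ((N : ℝ) ^ D)⁻¹) (fun _ => uni_sum hN) htt g
  have h2 : ∀ x x', g x x' =
      pavg (fun c => pavg (fun c' => H (splice i x c) (splice i x' c'))) := by
    intro x x'
    rw [pavg_eq]
    refine Finset.sum_congr rfl fun c _ => ?_
    rw [pavg_eq]
    simp only [H, S.st_splice]
  rw [h1]
  simp only [h2]
  simp only [← pavg_eq]
  have h3 : pavg (fun x => pavg (fun x' => pavg (fun c => pavg (fun c' =>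
      H (splice i x c) (splice i x' c'))))) = pavg (fun π => pavg (fun ρ => H π ρ)) := by
    rw [← pavg_splice hN i (fun π => pavg (fun ρ => H π ρ))]
    congr 1
    funext x
    rw [pavg_comm]
    congr 1
    funext c
    rw [← pavg_splice hN i (fun ρ => H (splice i x c) ρ)]
  rw [h3]
  refine pavg_mono fun π => pavg_mono fun ρ => ?_
  refine mul_le_mul_of_nonneg_right (ind_mono fun h => ⟨h.1, h.2.2⟩) ?_
  exact dropm_nonneg fun v => (S.heavy _).nonneg v

theorem avg_ineq (hT : IsTour adj) (hE : ¬ Has ∅) (hP : ∀ ω, ¬ Pat adj Has (F ω))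
    (hε : 0 ≤ ε) (hδ : 0 < δ) (hεδ : 12 * ε ≤ δ) (hN : 0 < N)
    {κ₁ : ℝ} (hκ : 0 < κ₁) (hm : 64 / κ₁ ^ 2 ≤ m)
    {i j l : ℕ} (hij : i < j) (hjl : j < l) (hl : l ≤ D) :
    δ / 2 * S.Wt F δ i j l ≤ 3 / 4 * (m * κ₁) + m * (
      ∑ t, ∑ t' ∈ univ.erase t, (5 * ε + S.Dr F δ i j l t t' + S.Dr F δ i j l t' t) +
      4 / κ₁ * ∑ t, ∑ t' ∈ univ.erase t,
        (2 * S.Dr F δ i j l t t' + 8 / δ * (ε + S.Dr F δ i j l t' t)) +
      8 / κ₁ * (m * (2 ^ (M' * m) * 4 ^ m * θ))) := by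
  classical
  have hθ : 0 ≤ θ := S.theta_nonneg (hij) (by omega : j ≤ D) hN
  let wb : V → ℝ := fun v => ∑ x, S.lam x * S.nu x v
  have wb0 : ∀ v, 0 ≤ wb v := fun v =>
    Finset.sum_nonneg fun x _ => mul_nonneg (S.lam_nonneg x) ((S.heavy x).nonneg v)
  have wb1 : ∑ v, wb v = 1 := by
    simp only [wb]
    rw [Finset.sum_comm]
    have : ∀ x, ∑ v, S.lam x * S.nu x v = S.lam x := by
      intro x
      rw [← Finset.mul_sum, (S.heavy x).sum_one, mul_one]
    simp only [this]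
    exact S.lam_sum
  let K := fun (α : Fin m → (Fin D → Fin N)) (ω : Fin m → S.Ω) =>
    S.cols F δ hεδ hδ hN hij hjl hl α ω
  let d := fun (t t' : Fin m) (α : Fin m → (Fin D → Fin N)) (ω : Fin m → S.Ω) => (K α ω).dr t t'
  let er := fun (l' : Fin m) (α : Fin m → (Fin D → Fin N)) (ω : Fin m → S.Ω) =>
    S.errf i j wb l' α ω
  have h0 : ∀ α ω, ∑ t, (K α ω).dens t ≤ 3 / 4 * (m * κ₁) + m * (
      ∑ t, ∑ t' ∈ univ.erase t, (5 * ε + d t t' α ω + d t' t α ω) +
      4 / κ₁ * ∑ t, ∑ t' ∈ univ.erase t, (2 * d t t' α ω + 8 / δ * (ε + d t' t α ω)) +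
      8 / κ₁ * ∑ l', er l' α ω) := fun α ω =>
    (K α ω).core_ineq hT hE (hP ω) hε hδ hεδ hκ hm wb wb0 wb1
  have h1 := S.TT_dens F δ hεδ hδ hN hij hjl hl
  have h2 : S.TT (fun α ω => ∑ t, (K α ω).dens t) ≤ S.TT (fun α ω => 3 / 4 * (m * κ₁) + m * (
      ∑ t, ∑ t' ∈ univ.erase t, (5 * ε + d t t' α ω + d t' t α ω) +
      4 / κ₁ * ∑ t, ∑ t' ∈ univ.erase t, (2 * d t t' α ω + 8 / δ * (ε + d t' t α ω)) +
      8 / κ₁ * ∑ l', er l' α ω)) := S.TT_mono h0
  have h3 : S.TT (fun α ω => 3 / 4 * (m * κ₁) + m * (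
      ∑ t, ∑ t' ∈ univ.erase t, (5 * ε + d t t' α ω + d t' t α ω) +
      4 / κ₁ * ∑ t, ∑ t' ∈ univ.erase t, (2 * d t t' α ω + 8 / δ * (ε + d t' t α ω)) +
      8 / κ₁ * ∑ l', er l' α ω)) = 3 / 4 * (m * κ₁) + m * (
      ∑ t, ∑ t' ∈ univ.erase t, (5 * ε + S.TT (d t t') + S.TT (d t' t)) +
      4 / κ₁ * ∑ t, ∑ t' ∈ univ.erase t, (2 * S.TT (d t t') + 8 / δ * (ε + S.TT (d t' t))) +
      8 / κ₁ * ∑ l', S.TT (er l')) := by
    simp only [TT_add, TT_mul_left, TT_sum, TT_const S hN]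
  have hdr : ∀ t t' : Fin m, t' ≠ t → S.TT (d t t') ≤ S.Dr F δ i j l t t' := fun t t' h =>
    S.TT_dr F δ hεδ hδ hN hij hjl hl h.symm
  have h4 : ∑ t, ∑ t' ∈ univ.erase t, (5 * ε + S.TT (d t t') + S.TT (d t' t)) ≤
      ∑ t, ∑ t' ∈ univ.erase t, (5 * ε + S.Dr F δ i j l t t' + S.Dr F δ i j l t' t) := by
    refine Finset.sum_le_sum fun t _ => Finset.sum_le_sum fun t' ht' => ?_
    have hne := Finset.ne_of_mem_erase ht'
    linarith [hdr t t' hne, hdr t' t hne.symm]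
  have h5 : ∑ t, ∑ t' ∈ univ.erase t, (2 * S.TT (d t t') + 8 / δ * (ε + S.TT (d t' t))) ≤
      ∑ t, ∑ t' ∈ univ.erase t,
        (2 * S.Dr F δ i j l t t' + 8 / δ * (ε + S.Dr F δ i j l t' t)) := by
    refine Finset.sum_le_sum fun t _ => Finset.sum_le_sum fun t' ht' => ?_
    have hne := Finset.ne_of_mem_erase ht'
    have ha := hdr t t' hne
    have hb : 8 / δ * (ε + S.TT (d t' t)) ≤ 8 / δ * (ε + S.Dr F δ i j l t' t) :=
      mul_le_mul_of_nonneg_left (by linarith [hdr t' t hne.symm]) (by positivity)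
    linarith
  have h6 : ∑ l', S.TT (er l') ≤ m * (2 ^ (M' * m) * 4 ^ m * θ) := by
    calc ∑ l', S.TT (er l') ≤ ∑ _l' : Fin m, (2 ^ (M' * m) * 4 ^ m * θ) :=
          Finset.sum_le_sum fun l' _ => S.TT_err hθ hN i j hij (by omega) l'
      _ = _ := by simp
  have h7 : (m : ℝ) * (
      ∑ t, ∑ t' ∈ univ.erase t, (5 * ε + S.TT (d t t') + S.TT (d t' t)) +
      4 / κ₁ * ∑ t, ∑ t' ∈ univ.erase t, (2 * S.TT (d t t') + 8 / δ * (ε + S.TT (d t' t))) +
      8 / κ₁ * ∑ l', S.TT (er l')) ≤ m * (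
      ∑ t, ∑ t' ∈ univ.erase t, (5 * ε + S.Dr F δ i j l t t' + S.Dr F δ i j l t' t) +
      4 / κ₁ * ∑ t, ∑ t' ∈ univ.erase t,
        (2 * S.Dr F δ i j l t t' + 8 / δ * (ε + S.Dr F δ i j l t' t)) +
      8 / κ₁ * (m * (2 ^ (M' * m) * 4 ^ m * θ))) := by
    apply mul_le_mul_of_nonneg_left _ (Nat.cast_nonneg m)
    have h8 := mul_le_mul_of_nonneg_left h5 (by positivity : (0 : ℝ) ≤ 4 / κ₁)
    have h9 := mul_le_mul_of_nonneg_left h6 (by positivity : (0 : ℝ) ≤ 8 / κ₁)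
    linarith
  rw [h3] at h2
  linarith

end TreeSys

end Pool.Agent.Hhelper10.Dom
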