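import Pool.Agent.Hhelper10.Dom.Defs

/-! Indicators, averages over paths, product expectations (MP_f4fe70_co). -/

set_option autoImplicit false

open Finset

namespace Pool.Agent.Hhelper10.Dom

/-! ### Indicators -/

open Classical in
/-- real indicator of a proposition -/
noncomputable def ind (p : Prop) : ℝ := if p then 1 else 0

lemma ind_of {p : Prop} (h : p) : ind p = 1 := by simp [ind, h]

lemma ind_not {p : Prop} (h : ¬ p) : ind p = 0 := by simp [ind, h]

lemma ind_nonneg (p : Prop) : 0 ≤ ind p := by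
  by_cases h : p
  · simp [ind_of h]
  · simp [ind_not h]

lemma ind_le_one (p : Prop) : ind p ≤ 1 := by
  by_cases h : p
  · simp [ind_of h]
  · simp [ind_not h]

lemma ind_mono {p q : Prop} (h : p → q) : ind p ≤ ind q := by
  by_cases hp : p
  · rw [ind_of hp, ind_of (h hp)]
  · rw [ind_not hp]; exact ind_nonneg q

lemma ind_congr {p q : Prop} (h : p ↔ q) : ind p = ind q := by
  rw [propext h]

lemma ind_and (p q : Prop) : ind (p ∧ q) = ind p * ind q := by
  by_cases hp : p <;> by_cases hq : q <;> simp [ind, hp, hq]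

lemma sum_mem_eq_ind {V : Type} [Fintype V] [DecidableEq V] (ν : V → ℝ) (F : Finset V) :
    ∑ v ∈ F, ν v = ∑ v, ν v * ind (v ∈ F) := by
  classical
  rw [← Finset.sum_filter_add_sum_filter_not univ (fun v => v ∈ F) (fun v => ν v * ind (v ∈ F))]
  have h2 : ∑ v ∈ univ.filter (fun v => ¬ v ∈ F), ν v * ind (v ∈ F) = 0 := by
    apply Finset.sum_eq_zero
    intro v hv
    rw [ind_not (by simpa using hv), mul_zero]
  rw [h2, add_zero]
  have h1 : univ.filter (fun v => v ∈ F) = F := by ext v; simp
  rw [h1]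
  apply Finset.sum_congr rfl
  intro v hv
  rw [ind_of hv, mul_one]

/-! ### Averages over paths -/

section pavg

variable {D N : ℕ}

lemma pavg_nonneg {g : (Fin D → Fin N) → ℝ} (h : ∀ π, 0 ≤ g π) : 0 ≤ pavg g :=
  div_nonneg (Finset.sum_nonneg fun π _ => h π) (by positivity)

lemma pavg_mono {f g : (Fin D → Fin N) → ℝ} (h : ∀ π, f π ≤ g π) : pavg f ≤ pavg g := by
  unfold pavg
  exact div_le_div_of_nonneg_right (Finset.sum_le_sum fun π _ => h π) (by positivity)

lemma pavg_add (f g : (Fin D → Fin N) → ℝ) :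
    pavg (fun π => f π + g π) = pavg f + pavg g := by
  unfold pavg
  rw [Finset.sum_add_distrib, add_div]

lemma pavg_sub (f g : (Fin D → Fin N) → ℝ) :
    pavg (fun π => f π - g π) = pavg f - pavg g := by
  unfold pavg
  rw [Finset.sum_sub_distrib, sub_div]

lemma pavg_mul_left (c : ℝ) (f : (Fin D → Fin N) → ℝ) :
    pavg (fun π => c * f π) = c * pavg f := by
  unfold pavg
  rw [← Finset.mul_sum, mul_div_assoc]

lemma pavg_mul_right (c : ℝ) (f : (Fin D → Fin N) → ℝ) :
    pavg (fun π => f π * c) = pavg f * c := by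
  unfold pavg
  rw [← Finset.sum_mul]; ring

lemma pavg_sum {ι : Type} (s : Finset ι) (f : ι → (Fin D → Fin N) → ℝ) :
    pavg (fun π => ∑ k ∈ s, f k π) = ∑ k ∈ s, pavg (f k) := by
  unfold pavg
  rw [Finset.sum_comm, Finset.sum_div]

lemma card_path : (Fintype.card (Fin D → Fin N) : ℝ) = (N : ℝ) ^ D := by
  simp

lemma pavg_const (hN : 0 < N) (c : ℝ) : pavg (fun _ : Fin D → Fin N => c) = c := by
  unfold pavg
  have : (N : ℝ) ^ D ≠ 0 := by positivity
  rw [Finset.sum_const, nsmul_eq_mul, Finset.card_univ, card_path]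
  field_simp

lemma pavg_comm {D' N' : ℕ} (f : (Fin D → Fin N) → (Fin D' → Fin N') → ℝ) :
    pavg (fun π => pavg (fun ρ => f π ρ)) = pavg (fun ρ => pavg (fun π => f π ρ)) := by
  unfold pavg
  simp only [Finset.sum_div]
  rw [Finset.sum_comm]
  refine Finset.sum_congr rfl fun ρ _ => Finset.sum_congr rfl fun π _ => ?_
  ring

/-- Averaging over spliced paths is averaging over paths. -/
lemma pavg_splice (hN : 0 < N) (i : ℕ) (f : (Fin D → Fin N) → ℝ) :
    pavg (fun α => pavg (fun τ => f (splice i α τ))) = pavg f := by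
  classical
  unfold pavg
  rw [← Finset.sum_div]
  have hne : (N : ℝ) ^ D ≠ 0 := by positivity
  have key : ∑ α : Fin D → Fin N, ∑ τ : Fin D → Fin N, f (splice i α τ) =
      (N : ℝ) ^ D * ∑ π, f π := by
    rw [← Fintype.sum_prod_type']
    -- (α, τ) ↦ (splice i α τ, splice i τ α) is an involution
    have hinv : ∀ x : (Fin D → Fin N) × (Fin D → Fin N),
        ((splice i (splice i x.1 x.2) (splice i x.2 x.1)),
          (splice i (splice i x.2 x.1) (splice i x.1 x.2))) = x := by
      intro x
      ext k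
      · by_cases hk : (k : ℕ) < i <;> simp [splice, hk]
      · by_cases hk : (k : ℕ) < i <;> simp [splice, hk]
    let e : ((Fin D → Fin N) × (Fin D → Fin N)) ≃ ((Fin D → Fin N) × (Fin D → Fin N)) :=
      { toFun := fun x => (splice i x.1 x.2, splice i x.2 x.1)
        invFun := fun x => (splice i x.1 x.2, splice i x.2 x.1)
        left_inv := fun x => hinv x
        right_inv := fun x => hinv x }
    have h1 : ∑ x : (Fin D → Fin N) × (Fin D → Fin N), f (splice i x.1 x.2) =
        ∑ x : (Fin D → Fin N) × (Fin D → Fin N), f x.1 :=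
      Equiv.sum_comp e (fun x => f x.1)
    rw [h1, Fintype.sum_prod_type]
    simp only [Finset.sum_const, nsmul_eq_mul, Finset.card_univ, card_path]
    rw [← Finset.mul_sum]
  rw [key]
  field_simp

end pavg

/-! ### Product expectations -/

section EW

variable {m : ℕ} {X : Type} [Fintype X]

/-- expectation with respect to the product of the weights `k t` -/
noncomputable def EW (k : Fin m → X → ℝ) (f : (Fin m → X) → ℝ) : ℝ :=
  ∑ μ, (∏ t, k t (μ t)) * f μ

variable {k : Fin m → X → ℝ}

lemma EW_mono (hk : ∀ t x, 0 ≤ k t x) {f g : (Fin m → X) → ℝ} (h : ∀ μ, f μ ≤ g μ) :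
    EW k f ≤ EW k g :=
  Finset.sum_le_sum fun μ _ => mul_le_mul_of_nonneg_left (h μ)
    (Finset.prod_nonneg fun t _ => hk t _)

lemma EW_nonneg (hk : ∀ t x, 0 ≤ k t x) {f : (Fin m → X) → ℝ} (h : ∀ μ, 0 ≤ f μ) :
    0 ≤ EW k f :=
  Finset.sum_nonneg fun μ _ => mul_nonneg (Finset.prod_nonneg fun t _ => hk t _) (h μ)

lemma EW_add (f g : (Fin m → X) → ℝ) : EW k (fun μ => f μ + g μ) = EW k f + EW k g := by
  unfold EW
  rw [← Finset.sum_add_distrib]
  exact Finset.sum_congr rfl fun μ _ => by ring

lemma EW_sub (f g : (Fin m → X) → ℝ) : EW k (fun μ => f μ - g μ) = EW k f - EW k g := by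
  unfold EW
  rw [← Finset.sum_sub_distrib]
  exact Finset.sum_congr rfl fun μ _ => by ring

lemma EW_mul_left (c : ℝ) (f : (Fin m → X) → ℝ) : EW k (fun μ => c * f μ) = c * EW k f := by
  unfold EW
  rw [Finset.mul_sum]
  exact Finset.sum_congr rfl fun μ _ => by ring

lemma EW_sum {ι : Type} (s : Finset ι) (f : ι → (Fin m → X) → ℝ) :
    EW k (fun μ => ∑ i ∈ s, f i μ) = ∑ i ∈ s, EW k (f i) := by
  unfold EW
  rw [Finset.sum_comm]
  exact Finset.sum_congr rfl fun μ _ => by rw [Finset.mul_sum]

lemma EW_const (hk1 : ∀ t, ∑ x, k t x = 1) (c : ℝ) : EW k (fun _ => c) = c := by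
  classical
  unfold EW
  rw [← Finset.sum_mul]
  have : ∑ μ : Fin m → X, ∏ t, k t (μ t) = ∏ t, ∑ x, k t x := by
    rw [Finset.prod_univ_sum]
    simp [Fintype.piFinset_univ]
  rw [this]
  simp [hk1]

/-- Resampling one coordinate. -/
lemma EW_resample (l : Fin m) (hk1 : ∑ x, k l x = 1) (f : (Fin m → X) → ℝ) :
    EW k f = EW k (fun μ => ∑ x, k l x * f (Function.update μ l x)) := by
  classical
  unfold EW
  simp only [Finset.mul_sum]
  rw [← Fintype.sum_prod_type']
  have hinv : ∀ x : (Fin m → X) × X,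
      ((Function.update (Function.update x.1 l x.2) l (x.1 l)),
        (Function.update x.1 l x.2) l) = x := by
    intro x
    ext1
    · simp
    · simp
  let e : ((Fin m → X) × X) ≃ ((Fin m → X) × X) :=
    { toFun := fun x => (Function.update x.1 l x.2, x.1 l)
      invFun := fun x => (Function.update x.1 l x.2, x.1 l)
      left_inv := fun x => hinv x
      right_inv := fun x => hinv x }
  have h1 : ∑ x : (Fin m → X) × X, (∏ t, k t (x.1 t)) * (k l x.2 * f (Function.update x.1 l x.2)) =
      ∑ x : (Fin m → X) × X, (∏ t, k t (x.1 t)) * k l x.2 * f x.1 := by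
    rw [← Equiv.sum_comp e (fun x : (Fin m → X) × X => (∏ t, k t (x.1 t)) * k l x.2 * f x.1)]
    refine Finset.sum_congr rfl fun x _ => ?_
    show _ = (∏ t, k t (Function.update x.1 l x.2 t)) * k l (x.1 l) *
      f (Function.update x.1 l x.2)
    have h2 : (∏ t, k t (Function.update x.1 l x.2 t)) * k l (x.1 l) =
        (∏ t, k t (x.1 t)) * k l x.2 := by
      rw [← Finset.mul_prod_erase univ (fun t => k t (x.1 t)) (Finset.mem_univ l),
        ← Finset.mul_prod_erase univ (fun t => k t (Function.update x.1 l x.2 t))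
          (Finset.mem_univ l)]
      have h3 : ∏ t ∈ univ.erase l, k t (Function.update x.1 l x.2 t) =
          ∏ t ∈ univ.erase l, k t (x.1 t) := by
        refine Finset.prod_congr rfl fun t ht => ?_
        rw [Function.update_of_ne (Finset.ne_of_mem_erase ht)]
      rw [h3, Function.update_self]
      ring
    rw [h2]; ring
  rw [h1, Fintype.sum_prod_type]
  refine Finset.sum_congr rfl fun μ _ => ?_
  have : ∀ x : X, (∏ t, k t (μ t)) * k l x * f μ = ((∏ t, k t (μ t)) * f μ) * k l x := by
    intro x; ring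
  simp only [this]
  rw [← Finset.mul_sum, hk1, mul_one]

lemma EW_one (hk1 : ∀ t, ∑ x, k t x = 1) (l : Fin m) (g : X → ℝ) :
    EW k (fun μ => g (μ l)) = ∑ x, k l x * g x := by
  rw [EW_resample l (hk1 l)]
  simp only [Function.update_self]
  exact EW_const hk1 _

lemma EW_two (hk1 : ∀ t, ∑ x, k t x = 1) {l l' : Fin m} (hl : l ≠ l') (g : X → X → ℝ) :
    EW k (fun μ => g (μ l) (μ l')) = ∑ x, k l x * ∑ x', k l' x' * g x x' := by
  rw [EW_resample l (hk1 l)]
  simp only [Function.update_self, Function.update_of_ne hl.symm]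
  rw [EW_one hk1 l' (fun x' => ∑ x, k l x * g x x')]
  simp only [Finset.mul_sum]
  rw [Finset.sum_comm]
  refine Finset.sum_congr rfl fun x _ => Finset.sum_congr rfl fun x' _ => ?_
  ring

end EW

end Pool.Agent.Hhelper10.Dom
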