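import Pool.Agent.Hhelper10.Dom.Defs

/-! Module B (MP_f4fe70_co): the `N`-ary tree of depth `D` over a stationary law. -/

set_option autoImplicit false
set_option linter.all false

open Finset

namespace Pool.Agent.Hhelper10.Dom

namespace TreeB

/-! ### Product weights -/

theorem sum_prod_eq {α : Type} [Fintype α] {N : ℕ} (g : Fin N → α → ℝ) :
    ∑ f : Fin N → α, ∏ i, g i (f i) = ∏ i, ∑ x, g i x := by
  classical
  rw [Finset.prod_univ_sum, Fintype.piFinset_univ]

/-- push-forward of a product weight -/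
theorem sum_push {α β : Type} [Fintype α] [Fintype β] {N : ℕ} (w : α → ℝ) (v : β → ℝ)
    (g : α → β) (hg : ∀ φ : β → ℝ, ∑ x, w x * φ (g x) = ∑ y, v y * φ y)
    (Ψ : (Fin N → β) → ℝ) :
    ∑ f : Fin N → α, (∏ i, w (f i)) * Ψ (fun i => g (f i)) = ∑ σ : Fin N → β, (∏ i, v (σ i)) * Ψ σ := by
  classical
  have hv : ∀ y, ∑ x, w x * (if g x = y then 1 else 0) = v y := by
    intro y
    rw [hg (fun z => if z = y then 1 else 0)]
    simp
  have h1 : ∀ f : Fin N → α, (∏ i, w (f i)) * Ψ (fun i => g (f i)) =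
      ∑ σ : Fin N → β, (∏ i, (w (f i) * (if g (f i) = σ i then 1 else 0))) * Ψ σ := by
    intro f
    rw [Finset.sum_eq_single (fun i => g (f i))]
    · simp
    · intro σ _ hσ
      have : ∃ i, g (f i) ≠ σ i := by
        by_contra hcon
        push Not at hcon
        exact hσ (funext fun i => (hcon i).symm)
      obtain ⟨i, hi⟩ := this
      rw [Finset.prod_eq_zero (Finset.mem_univ i)]
      · simp
      · simp [hi]
    · intro h; exact absurd (Finset.mem_univ _) h
  calc ∑ f : Fin N → α, (∏ i, w (f i)) * Ψ (fun i => g (f i))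
      = ∑ f : Fin N → α, ∑ σ : Fin N → β,
          (∏ i, (w (f i) * (if g (f i) = σ i then 1 else 0))) * Ψ σ :=
        Finset.sum_congr rfl fun f _ => h1 f
    _ = ∑ σ : Fin N → β, ∑ f : Fin N → α,
          (∏ i, (w (f i) * (if g (f i) = σ i then 1 else 0))) * Ψ σ := Finset.sum_comm
    _ = ∑ σ : Fin N → β, (∏ i, v (σ i)) * Ψ σ := by
        refine Finset.sum_congr rfl fun σ _ => ?_
        rw [← Finset.sum_mul,
          sum_prod_eq (fun i x => w x * (if g x = σ i then 1 else 0))]
        simp only [hv]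

theorem prod_w_sum_one {α : Type} [Fintype α] {N : ℕ} (w : α → ℝ) (hw : ∑ x, w x = 1) :
    ∑ f : Fin N → α, ∏ i, w (f i) = 1 := by
  rw [sum_prod_eq (fun _ x => w x)]
  simp [hw]

/-- one coordinate marginal -/
theorem marg_one {α : Type} [Fintype α] {N : ℕ} (w : α → ℝ) (hw : ∑ x, w x = 1) (G : α → ℝ)
    (i₀ : Fin N) :
    ∑ f : Fin N → α, (∏ i, w (f i)) * G (f i₀) = ∑ x, w x * G x := by
  classical
  have h1 : ∀ f : Fin N → α, (∏ i, w (f i)) * G (f i₀) =
      ∏ i, (w (f i) * (if i = i₀ then G (f i) else 1)) := by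
    intro f
    rw [Finset.prod_mul_distrib]
    congr 1
    rw [Finset.prod_ite_eq' Finset.univ i₀ (fun i => G (f i))]
    simp
  rw [Finset.sum_congr rfl fun f _ => h1 f,
    sum_prod_eq (fun i x => w x * (if i = i₀ then G x else 1))]
  rw [Finset.prod_eq_single i₀]
  · simp
  · intro b _ hb
    simp [hb, hw]
  · intro h; exact absurd (Finset.mem_univ _) h

/-- two coordinate marginal of a centred function vanishes -/
theorem marg_two {α : Type} [Fintype α] {N : ℕ} (w : α → ℝ) (G : α → ℝ)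
    (hG : ∑ x, w x * G x = 0) (i₀ i₁ : Fin N) (hne : i₀ ≠ i₁) :
    ∑ f : Fin N → α, (∏ i, w (f i)) * (G (f i₀) * G (f i₁)) = 0 := by
  classical
  have h1 : ∀ f : Fin N → α, (∏ i, w (f i)) * (G (f i₀) * G (f i₁)) =
      ∏ i, (w (f i) * ((if i = i₀ then G (f i) else 1) * (if i = i₁ then G (f i) else 1))) := by
    intro f
    rw [Finset.prod_mul_distrib, Finset.prod_mul_distrib]
    congr 1
    rw [Finset.prod_ite_eq' Finset.univ i₀ (fun i => G (f i)),
      Finset.prod_ite_eq' Finset.univ i₁ (fun i => G (f i))]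
    simp
  rw [Finset.sum_congr rfl fun f _ => h1 f,
    sum_prod_eq (fun i x => w x * ((if i = i₀ then G x else 1) * (if i = i₁ then G x else 1)))]
  apply Finset.prod_eq_zero (Finset.mem_univ i₀)
  simp [hne, hG]

theorem second_moment {α : Type} [Fintype α] {N : ℕ} (w : α → ℝ) (hw : ∑ x, w x = 1) (G : α → ℝ)
    (hG : ∑ x, w x * G x = 0) :
    ∑ f : Fin N → α, (∏ i, w (f i)) * (∑ i, G (f i)) ^ 2 = N * ∑ x, w x * G x ^ 2 := by
  classical
  have h1 : ∀ f : Fin N → α, (∏ i, w (f i)) * (∑ i, G (f i)) ^ 2 =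
      ∑ i₀, ∑ i₁, (∏ i, w (f i)) * (G (f i₀) * G (f i₁)) := by
    intro f
    rw [sq, Finset.sum_mul_sum, Finset.mul_sum]
    refine Finset.sum_congr rfl fun i₀ _ => ?_
    rw [Finset.mul_sum]
  rw [Finset.sum_congr rfl fun f _ => h1 f, Finset.sum_comm]
  have h2 : ∀ i₀ : Fin N, ∑ f : Fin N → α, ∑ i₁, (∏ i, w (f i)) * (G (f i₀) * G (f i₁)) =
      ∑ x, w x * G x ^ 2 := by
    intro i₀
    rw [Finset.sum_comm, Finset.sum_eq_single i₀]
    · have := marg_one w hw (fun x => G x ^ 2) i₀
      rw [← this]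
      refine Finset.sum_congr rfl fun f _ => ?_
      ring
    · intro i₁ _ hne
      exact marg_two w G hG i₀ i₁ (Ne.symm hne)
    · intro h; exact absurd (Finset.mem_univ _) h
  rw [Finset.sum_congr rfl fun i₀ _ => h2 i₀]
  simp

/-! ### The tree -/

/-- configurations of the `N`-ary tree of depth `k` -/
def Tr (T : Type) (N : ℕ) : ℕ → Type
  | 0 => T
  | k + 1 => Fin N → Tr T N k

instance trFintype (T : Type) [Fintype T] (N : ℕ) : ∀ k, Fintype (Tr T N k)
  | 0 => inferInstanceAs (Fintype T)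
  | k + 1 =>
    haveI := trFintype T N k
    inferInstanceAs (Fintype (Fin N → Tr T N k))

variable {T : Type} [Fintype T] {N : ℕ}

/-- weights -/
noncomputable def wt (lam : T → ℝ) : ∀ k, Tr T N k → ℝ
  | 0 => fun x => lam x
  | k + 1 => fun f => ∏ i : Fin N, wt lam k (f i)

/-- root state -/
def root (Build : (Fin N → T) → T) : ∀ k, Tr T N k → T
  | 0 => fun x => x
  | k + 1 => fun f => Build (fun i => root Build k (f i))

/-- state of the node at level `ℓ` on the path `π` -/
def state (Build : (Fin N → T) → T) : ∀ k, Tr T N k → ℕ → (Fin k → Fin N) → T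
  | 0 => fun x _ _ => x
  | k + 1 => fun f ℓ π =>
      match ℓ with
      | 0 => Build (fun i => root Build k (f i))
      | ℓ + 1 => state Build k (f (π 0)) ℓ (Fin.tail π)

theorem state_succ_zero (Build : (Fin N → T) → T) (k : ℕ) (f : Tr T N (k + 1))
    (π : Fin (k + 1) → Fin N) :
    state Build (k + 1) f 0 π = Build (fun i => root Build k (f i)) := rfl

theorem state_succ_succ (Build : (Fin N → T) → T) (k : ℕ) (f : Tr T N (k + 1)) (ℓ : ℕ)
    (π : Fin (k + 1) → Fin N) :
    state Build (k + 1) f (ℓ + 1) π = state Build k (f (π 0)) ℓ (Fin.tail π) := rfl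

theorem state_zero (Build : (Fin N → T) → T) (k : ℕ) (f : Tr T N k) (π : Fin k → Fin N) :
    state Build k f 0 π = root Build k f := by
  cases k <;> rfl

theorem state_prefix (Build : (Fin N → T) → T) (k : ℕ) : ∀ (f : Tr T N k) (ℓ : ℕ)
    (π π' : Fin k → Fin N), (∀ j : Fin k, (j : ℕ) < ℓ → π j = π' j) →
    state Build k f ℓ π = state Build k f ℓ π' := by
  induction k with
  | zero => intro f ℓ π π' _; rfl
  | succ k ih =>
    intro f ℓ π π' h
    cases ℓ with
    | zero => rfl
    | succ ℓ =>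
      rw [state_succ_succ, state_succ_succ, h 0 (by simp)]
      apply ih
      intro j hj
      exact h j.succ (by simpa using hj)

theorem state_build (Build : (Fin N → T) → T) (k : ℕ) : ∀ (f : Tr T N k) (ℓ : ℕ) (h : ℓ < k)
    (π : Fin k → Fin N),
    state Build k f ℓ π =
      Build (fun i => state Build k f (ℓ + 1) (Function.update π ⟨ℓ, h⟩ i)) := by
  induction k with
  | zero => intro f ℓ h; exact absurd h (Nat.not_lt_zero _)
  | succ k ih =>
    intro f ℓ h π
    cases ℓ with
    | zero =>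
      rw [state_succ_zero]
      congr 1
      funext i
      rw [state_succ_succ, state_zero]
      have : (⟨0, h⟩ : Fin (k + 1)) = 0 := rfl
      rw [this, Function.update_self]
    | succ ℓ =>
      have hk : ℓ < k := Nat.lt_of_succ_lt_succ h
      rw [state_succ_succ, ih (f (π 0)) ℓ hk]
      congr 1
      funext i
      rw [state_succ_succ]
      have he : (⟨ℓ + 1, h⟩ : Fin (k + 1)) = Fin.succ ⟨ℓ, hk⟩ := rfl
      rw [he, Fin.tail_update_succ, Function.update_of_ne (Fin.succ_ne_zero _).symm]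

theorem wt_nonneg (lam : T → ℝ) (hl0 : ∀ x, 0 ≤ lam x) (k : ℕ) : ∀ f : Tr T N k, 0 ≤ wt lam k f := by
  induction k with
  | zero => intro f; exact hl0 f
  | succ k ih => intro f; exact Finset.prod_nonneg fun i _ => ih (f i)

theorem wt_sum (lam : T → ℝ) (hl1 : ∑ x, lam x = 1) (k : ℕ) : ∑ f : Tr T N k, wt lam k f = 1 := by
  induction k with
  | zero => exact hl1
  | succ k ih => exact prod_w_sum_one (fun x => wt lam k x) ih

theorem root_law (Build : (Fin N → T) → T) (lam : T → ℝ)
    (hst : ∀ φ : T → ℝ,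
      ∑ σ : Fin N → T, (∏ i, lam (σ i)) * φ (Build σ) = ∑ x, lam x * φ x) (k : ℕ) :
    ∀ φ : T → ℝ, ∑ f : Tr T N k, wt lam k f * φ (root Build k f) = ∑ x, lam x * φ x := by
  induction k with
  | zero => intro φ; rfl
  | succ k ih =>
    intro φ
    have h := sum_push (N := N) (fun x => wt lam k x) lam (root Build k) ih (fun σ => φ (Build σ))
    rw [hst φ] at h
    exact h

/-! ### Averages -/

/-- sum over paths of length `k+1` of a function of the tail and of the first step -/
theorem sum_cons {k : ℕ} (F : Fin N → (Fin k → Fin N) → ℝ) :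
    ∑ τ : Fin (k + 1) → Fin N, F (τ 0) (Fin.tail τ) = ∑ i : Fin N, ∑ τ : Fin k → Fin N, F i τ := by
  rw [← Fintype.sum_prod_type' (f := F)]
  exact Fintype.sum_equiv (Fin.consEquiv (fun _ => Fin N)).symm _ _ (fun τ => rfl)

theorem pavg_succ {k : ℕ} (F : Fin N → (Fin k → Fin N) → ℝ) :
    pavg (fun τ : Fin (k + 1) → Fin N => F (τ 0) (Fin.tail τ)) =
      (∑ i : Fin N, pavg (F i)) / N := by
  unfold pavg
  rw [sum_cons, ← Finset.sum_div, div_div, pow_succ]

theorem mean_A (Build : (Fin N → T) → T) (hN : 0 < N) (lam : T → ℝ) (hl1 : ∑ x, lam x = 1)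
    (hst : ∀ φ : T → ℝ,
      ∑ σ : Fin N → T, (∏ i, lam (σ i)) * φ (Build σ) = ∑ x, lam x * φ x) (h : T → ℝ) (k : ℕ) :
    ∀ j ≤ k, ∑ f : Tr T N k, wt lam k f * pavg (fun τ => h (state Build k f j τ)) =
      ∑ x, lam x * h x := by
  have hN' : (N : ℝ) ≠ 0 := by positivity
  have hz : ∀ (k : ℕ) (c : ℝ), pavg (fun _ : Fin k → Fin N => c) = c := by
    intro k c
    unfold pavg
    simp only [Finset.sum_const, Finset.card_univ, Fintype.card_fun, Fintype.card_fin,
      nsmul_eq_mul, Nat.cast_pow]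
    field_simp
  induction k with
  | zero =>
    intro j hj
    have : j = 0 := by omega
    subst this
    have h0 := root_law Build lam hst 0 h
    rw [← h0]
    refine Finset.sum_congr rfl fun f _ => ?_
    rw [show (fun τ : Fin 0 → Fin N => h (state Build 0 f 0 τ)) =
      (fun _ => h (root Build 0 f)) from rfl, hz]
  | succ k ih =>
    intro j hj
    cases j with
    | zero =>
      have h0 := root_law Build lam hst (k + 1) h
      rw [← h0]
      refine Finset.sum_congr rfl fun f _ => ?_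
      rw [show (fun τ : Fin (k + 1) → Fin N => h (state Build (k + 1) f 0 τ)) =
        (fun _ => h (root Build (k + 1) f)) from rfl, hz]
    | succ j =>
      have ih' := ih j (by omega)
      have h1 : ∀ f : Tr T N (k + 1),
          wt lam (k + 1) f * pavg (fun τ => h (state Build (k + 1) f (j + 1) τ)) =
          (∑ i₀ : Fin N, (∏ i : Fin N, wt lam k (f i)) *
            pavg (fun τ => h (state Build k (f i₀) j τ))) / N := by
        intro f
        have := pavg_succ (N := N) (k := k) (fun i τ => h (state Build k (f i) j τ))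
        rw [show (fun τ : Fin (k + 1) → Fin N => h (state Build (k + 1) f (j + 1) τ)) =
          (fun τ => h (state Build k (f (τ 0)) j (Fin.tail τ))) from rfl, this, ← Finset.mul_sum,
          mul_div_assoc]
        rfl
      rw [Finset.sum_congr rfl fun f _ => h1 f, ← Finset.sum_div, Finset.sum_comm]
      have h2 : ∀ i₀ : Fin N, ∑ f : Tr T N (k + 1), (∏ i : Fin N, wt lam k (f i)) *
            pavg (fun τ => h (state Build k (f i₀) j τ)) = ∑ x, lam x * h x := by
        intro i₀
        rw [← ih']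
        exact marg_one (fun x => wt lam k x) (wt_sum lam hl1 k)
          (fun x => pavg (fun τ => h (state Build k x j τ))) i₀
      rw [Finset.sum_congr rfl fun i₀ _ => h2 i₀]
      simp only [Finset.sum_const, Finset.card_univ, Fintype.card_fin, nsmul_eq_mul]
      field_simp

theorem var_A (Build : (Fin N → T) → T) (hN : 0 < N) (lam : T → ℝ) (hl0 : ∀ x, 0 ≤ lam x)
    (hl1 : ∑ x, lam x = 1)
    (hst : ∀ φ : T → ℝ,
      ∑ σ : Fin N → T, (∏ i, lam (σ i)) * φ (Build σ) = ∑ x, lam x * φ x) (h : T → ℝ)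
    (h0 : ∀ x, 0 ≤ h x) (h1 : ∀ x, h x ≤ 1) (k : ℕ) :
    ∀ j ≤ k, ∑ f : Tr T N k, wt lam k f *
      (pavg (fun τ => h (state Build k f j τ)) - ∑ x, lam x * h x) ^ 2 ≤ 1 / (N : ℝ) ^ j := by
  have hN' : (0 : ℝ) < N := by positivity
  have hz : ∀ (k : ℕ) (c : ℝ), pavg (fun _ : Fin k → Fin N => c) = c := by
    intro k c
    unfold pavg
    simp only [Finset.sum_const, Finset.card_univ, Fintype.card_fun, Fintype.card_fin,
      nsmul_eq_mul, Nat.cast_pow]
    field_simp
  have hm0 : 0 ≤ ∑ x, lam x * h x := Finset.sum_nonneg fun x _ => mul_nonneg (hl0 x) (h0 x)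
  have hm1 : ∑ x, lam x * h x ≤ 1 := by
    rw [← hl1]
    refine Finset.sum_le_sum fun x _ => ?_
    nlinarith [hl0 x, h1 x]
  have hroot : ∀ k : ℕ, ∑ f : Tr T N k, wt lam k f *
      (pavg (fun τ => h (state Build k f 0 τ)) - ∑ x, lam x * h x) ^ 2 ≤ 1 / (N : ℝ) ^ 0 := by
    intro k
    rw [pow_zero, div_one, ← wt_sum (N := N) lam hl1 k]
    refine Finset.sum_le_sum fun f _ => ?_
    rw [show (fun τ : Fin k → Fin N => h (state Build k f 0 τ)) =
        (fun _ => h (root Build k f)) from funext fun τ => by rw [state_zero], hz]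
    have hw := wt_nonneg (N := N) lam hl0 k f
    have hb : (h (root Build k f) - ∑ x, lam x * h x) ^ 2 ≤ 1 := by
      have e0 := h0 (root Build k f)
      have e1 := h1 (root Build k f)
      rw [sq_le_one_iff_abs_le_one, abs_le]
      constructor <;> linarith
    nlinarith
  induction k with
  | zero =>
    intro j hj
    have : j = 0 := by omega
    subst this
    exact hroot 0
  | succ k ih =>
    intro j hj
    cases j with
    | zero => exact hroot (k + 1)
    | succ j =>
      have hjk : j ≤ k := by omega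
      have ih' := ih j hjk
      have hmean := mean_A Build hN lam hl1 hst h k j hjk
      set μ := ∑ x, lam x * h x with hμ
      have hG : ∑ x : Tr T N k, wt lam k x * (pavg (fun τ => h (state Build k x j τ)) - μ) = 0 := by
        simp only [mul_sub, Finset.sum_sub_distrib]
        rw [hmean, ← Finset.sum_mul, wt_sum lam hl1 k]
        ring
      have hsm := second_moment (N := N) (fun x => wt lam k x) (wt_sum lam hl1 k)
        (fun x => pavg (fun τ => h (state Build k x j τ)) - μ) hG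
      have h2 : ∀ f : Tr T N (k + 1),
          wt lam (k + 1) f * (pavg (fun τ => h (state Build (k + 1) f (j + 1) τ)) - μ) ^ 2 =
          ((∏ i : Fin N, wt lam k (f i)) *
            (∑ i : Fin N, (pavg (fun τ => h (state Build k (f i) j τ)) - μ)) ^ 2) / N ^ 2 := by
        intro f
        have := pavg_succ (N := N) (k := k) (fun i τ => h (state Build k (f i) j τ))
        rw [show (fun τ : Fin (k + 1) → Fin N => h (state Build (k + 1) f (j + 1) τ)) =
          (fun τ => h (state Build k (f (τ 0)) j (Fin.tail τ))) from rfl, this]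
        rw [Finset.sum_sub_distrib]
        simp only [Finset.sum_const, Finset.card_univ, Fintype.card_fin, nsmul_eq_mul]
        rw [show wt lam (k + 1) f = ∏ i : Fin N, wt lam k (f i) from rfl]
        field_simp
      rw [Finset.sum_congr rfl fun f _ => h2 f, ← Finset.sum_div]
      have h3 : ∑ f : Tr T N (k + 1), (∏ i : Fin N, wt lam k (f i)) *
            (∑ i : Fin N, (pavg (fun τ => h (state Build k (f i) j τ)) - μ)) ^ 2 =
          N * ∑ x : Tr T N k, wt lam k x * (pavg (fun τ => h (state Build k x j τ)) - μ) ^ 2 := hsm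
      rw [h3]
      calc (N : ℝ) * (∑ x : Tr T N k, wt lam k x *
            (pavg (fun τ => h (state Build k x j τ)) - μ) ^ 2) / (N : ℝ) ^ 2
          = (∑ x : Tr T N k, wt lam k x *
            (pavg (fun τ => h (state Build k x j τ)) - μ) ^ 2) / (N : ℝ) := by
            rw [pow_two, mul_div_mul_left _ _ hN'.ne']
        _ ≤ (1 / (N : ℝ) ^ j) / N := by gcongr
        _ = 1 / (N : ℝ) ^ (j + 1) := by rw [div_div, pow_succ]

theorem var_splice (Build : (Fin N → T) → T) (hN : 0 < N) (lam : T → ℝ) (hl0 : ∀ x, 0 ≤ lam x)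
    (hl1 : ∑ x, lam x = 1)
    (hst : ∀ φ : T → ℝ,
      ∑ σ : Fin N → T, (∏ i, lam (σ i)) * φ (Build σ) = ∑ x, lam x * φ x) (h : T → ℝ)
    (h0 : ∀ x, 0 ≤ h x) (h1 : ∀ x, h x ≤ 1) (i : ℕ) :
    ∀ k j : ℕ, i ≤ j → j ≤ k → ∀ α : Fin k → Fin N, ∑ f : Tr T N k, wt lam k f *
      (pavg (fun τ => h (state Build k f j (splice i α τ))) - ∑ x, lam x * h x) ^ 2 ≤
        1 / (N : ℝ) ^ (j - i) := by
  have hN' : (0 : ℝ) < N := by positivity
  induction i with
  | zero =>
    intro k j _ hjk α
    have := var_A Build hN lam hl0 hl1 hst h h0 h1 k j hjk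
    have hs : ∀ τ : Fin k → Fin N, splice 0 α τ = τ := by
      intro τ; funext l; simp [splice]
    simpa only [hs, Nat.sub_zero] using this
  | succ i ih =>
    intro k j hij hjk α
    obtain ⟨j, rfl⟩ : ∃ j', j = j' + 1 := ⟨j - 1, by omega⟩
    obtain ⟨k, rfl⟩ : ∃ k', k = k' + 1 := ⟨k - 1, by omega⟩
    have ih' := ih k j (by omega) (by omega) (Fin.tail α)
    set μ := ∑ x, lam x * h x with hμ
    have hs : ∀ (f : Tr T N (k + 1)), pavg (fun τ => h (state Build (k + 1) f (j + 1)
        (splice (i + 1) α τ))) =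
        pavg (fun τ => h (state Build k (f (α 0)) j (splice i (Fin.tail α) τ))) := by
      intro f
      have e1 : (fun τ : Fin (k + 1) → Fin N => h (state Build (k + 1) f (j + 1)
          (splice (i + 1) α τ))) =
          (fun τ => (fun (_ : Fin N) (τ' : Fin k → Fin N) =>
            h (state Build k (f (α 0)) j (splice i (Fin.tail α) τ'))) (τ 0) (Fin.tail τ)) := by
        funext τ
        rw [state_succ_succ]
        have a1 : splice (i + 1) α τ 0 = α 0 := by simp [splice]
        have a2 : Fin.tail (splice (i + 1) α τ) = splice i (Fin.tail α) (Fin.tail τ) := by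
          funext l
          simp [splice, Fin.tail]
        rw [a1, a2]
      rw [e1]
      refine (pavg_succ (N := N) (k := k) (fun (_ : Fin N) (τ' : Fin k → Fin N) =>
            h (state Build k (f (α 0)) j (splice i (Fin.tail α) τ')))).trans ?_
      simp only [Finset.sum_const, Finset.card_univ, Fintype.card_fin, nsmul_eq_mul]
      field_simp
    have h2 : ∑ f : Tr T N (k + 1), wt lam (k + 1) f *
        (pavg (fun τ => h (state Build (k + 1) f (j + 1) (splice (i + 1) α τ))) - μ) ^ 2 =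
        ∑ x : Tr T N k, wt lam k x *
          (pavg (fun τ => h (state Build k x j (splice i (Fin.tail α) τ))) - μ) ^ 2 := by
      simp only [hs]
      exact marg_one (fun x => wt lam k x) (wt_sum lam hl1 k)
        (fun x => (pavg (fun τ => h (state Build k x j (splice i (Fin.tail α) τ))) - μ) ^ 2) (α 0)
    rw [h2, Nat.add_sub_add_right]
    exact ih'

end TreeB

theorem exists_tree {T : Type} [Fintype T] {N : ℕ} (hN : 0 < N) (Build : (Fin N → T) → T)
    (lam : T → ℝ) (hl0 : ∀ x, 0 ≤ lam x) (hl1 : ∑ x, lam x = 1)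
    (hst : ∀ φ : T → ℝ,
      ∑ σ : Fin N → T, (∏ i, lam (σ i)) * φ (Build σ) = ∑ x, lam x * φ x)
    (D : ℕ) (θ : ℝ) (hθ : 0 < θ) (hNθ : 4 / θ ^ 2 ≤ N) :
    ∃ (Ω : Type) (_ : Fintype Ω) (p : Ω → ℝ) (st : Ω → ℕ → (Fin D → Fin N) → T),
      (∀ ω, 0 ≤ p ω) ∧ ∑ ω, p ω = 1 ∧
      (∀ (ω : Ω) (ℓ : ℕ) (π π' : Fin D → Fin N), (∀ k : Fin D, (k : ℕ) < ℓ → π k = π' k) →
        st ω ℓ π = st ω ℓ π') ∧
      (∀ (ω : Ω) (ℓ : ℕ) (h : ℓ < D) (π : Fin D → Fin N),
        st ω ℓ π = Build (fun i => st ω (ℓ + 1) (Function.update π ⟨ℓ, h⟩ i))) ∧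
      (∀ (h : T → ℝ), (∀ x, 0 ≤ h x) → (∀ x, h x ≤ 1) → ∀ i j : ℕ, i < j → j ≤ D →
        ∀ α : Fin D → Fin N,
        ∑ ω, p ω * |pavg (fun τ => h (st ω j (splice i α τ))) - ∑ x, lam x * h x| ≤ θ) := by
  refine ⟨TreeB.Tr T N D, TreeB.trFintype T N D, TreeB.wt lam D, TreeB.state Build D,
    TreeB.wt_nonneg lam hl0 D, TreeB.wt_sum lam hl1 D, TreeB.state_prefix Build D,
    TreeB.state_build Build D, ?_⟩
  intro h h0 h1 i j hij hjD α
  have hN' : (0 : ℝ) < N := by positivity
  have hN1 : (1 : ℝ) ≤ N := by exact_mod_cast hN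
  have hv := TreeB.var_splice Build hN lam hl0 hl1 hst h h0 h1 i D j hij.le hjD α
  set μ := ∑ x, lam x * h x with hμ
  have hpow : 1 / (N : ℝ) ^ (j - i) ≤ θ ^ 2 / 4 := by
    have e1 : 1 / (N : ℝ) ^ (j - i) ≤ 1 / N := by
      apply one_div_le_one_div_of_le hN'
      calc (N : ℝ) = (N : ℝ) ^ 1 := (pow_one _).symm
        _ ≤ (N : ℝ) ^ (j - i) := pow_le_pow_right₀ hN1 (by omega)
    have e2 : 1 / (N : ℝ) ≤ θ ^ 2 / 4 := by
      rw [div_le_div_iff₀ hN' (by norm_num)]
      rw [div_le_iff₀ (by positivity)] at hNθ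
      linarith
    exact e1.trans e2
  have hkey : ∀ x : ℝ, |x| ≤ θ / 4 + x ^ 2 / θ := by
    intro x
    have : 0 ≤ (|x| - θ / 2) ^ 2 := sq_nonneg _
    have hx : |x| ^ 2 = x ^ 2 := sq_abs x
    have h3 : |x| * θ ≤ θ ^ 2 / 4 + x ^ 2 := by nlinarith
    have h4 : |x| ≤ (θ ^ 2 / 4 + x ^ 2) / θ := by rwa [le_div_iff₀ hθ]
    calc |x| ≤ (θ ^ 2 / 4 + x ^ 2) / θ := h4
      _ = θ / 4 + x ^ 2 / θ := by field_simp
  calc ∑ ω, TreeB.wt lam D ω * |pavg (fun τ => h (TreeB.state Build D ω j (splice i α τ))) - μ|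
      ≤ ∑ ω, TreeB.wt lam D ω * (θ / 4 +
          (pavg (fun τ => h (TreeB.state Build D ω j (splice i α τ))) - μ) ^ 2 / θ) := by
        refine Finset.sum_le_sum fun ω _ => ?_
        exact mul_le_mul_of_nonneg_left (hkey _) (TreeB.wt_nonneg lam hl0 D ω)
    _ = θ / 4 + (∑ ω, TreeB.wt lam D ω *
          (pavg (fun τ => h (TreeB.state Build D ω j (splice i α τ))) - μ) ^ 2) / θ := by
        simp only [mul_add, Finset.sum_add_distrib]
        rw [← Finset.sum_mul, TreeB.wt_sum lam hl1 D, one_mul, Finset.sum_div]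
        congr 1
        refine Finset.sum_congr rfl fun ω _ => ?_
        ring
    _ ≤ θ / 4 + (θ ^ 2 / 4) / θ := by
        gcongr
        exact hv.trans hpow
    _ ≤ θ := by
        have : (θ ^ 2 / 4) / θ = θ / 4 := by field_simp
        rw [this]; linarith

end Pool.Agent.Hhelper10.Dom
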