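import Pool.Agent.Hhelper10.Dom.Stationary
import Pool.Agent.Hhelper10.Dom.Tree

/-! Module C (MP_f4fe70_co): stationary tree systems exist. -/

set_option autoImplicit false

open Finset

namespace Pool.Agent.Hhelper10.Dom

/-- sizes of the memories -/
def bnd (N M' : ℕ) : ℕ → ℕ
  | 0 => M'
  | r + 1 => M' + N * bnd N M' r

lemma le_bnd (N M' r : ℕ) : M' ≤ bnd N M' r := by
  cases r with
  | zero => exact le_rfl
  | succ r => exact Nat.le_add_right _ _

/-- states: a label (`mem 0`) with the memory of all labels at depth `r` below -/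
def St (V : Type) [Fintype V] [DecidableEq V] (Has : Finset V → Prop) (ε : ℝ) (M' : ℕ)
    (U : Finset V) (D N : ℕ) : Type :=
  {mem : Fin (D + 1) → Finset V // (∀ r, mem r ⊆ U ∧ (mem r).card ≤ bnd N M' r) ∧
    ∃ ν : V → ℝ, Heavy Has ε M' (mem 0) ν}

lemma exists_build (D N M' : ℕ) (V : Type) [Fintype V] [DecidableEq V] (adj : V → V → Prop)
    (Has : Finset V → Prop) (ε : ℝ) (U : Finset V)
    (hX : ∀ X : Finset V, X ⊆ U → X.card ≤ N * ∑ r : Fin (D + 1), bnd N M' r →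
      ∃ (Q : Finset V) (ν : V → ℝ), Heavy Has ε M' Q ν ∧ Q ⊆ U ∧ ∀ q ∈ Q, ∀ x ∈ X, adj q x) :
    ∃ Build : (Fin N → St V Has ε M' U D N) → St V Has ε M' U D N,
      ∀ σ, (∀ q ∈ (Build σ).1 0, ∀ i r, ∀ x ∈ (σ i).1 r, adj q x) ∧
        ∀ (r : Fin D) i, (σ i).1 r.castSucc ⊆ (Build σ).1 r.succ := by
  suffices h : ∀ σ : Fin N → St V Has ε M' U D N, ∃ s : St V Has ε M' U D N,
      (∀ q ∈ s.1 0, ∀ i r, ∀ x ∈ (σ i).1 r, adj q x) ∧
        ∀ (r : Fin D) i, (σ i).1 r.castSucc ⊆ s.1 r.succ by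
    choose Build hB using h
    exact ⟨Build, hB⟩
  intro σ
  obtain ⟨Q, ν, hQ, hQU, hadj⟩ := hX (univ.biUnion fun i => univ.biUnion fun r => (σ i).1 r) (by
      intro x hx
      simp only [mem_biUnion, mem_univ, true_and] at hx
      obtain ⟨i, r, hx⟩ := hx
      exact ((σ i).2.1 r).1 hx) (by
      calc (univ.biUnion fun i => univ.biUnion fun r => (σ i).1 r).card
          ≤ ∑ i : Fin N, (univ.biUnion fun r => (σ i).1 r).card := card_biUnion_le
        _ ≤ ∑ i : Fin N, ∑ r : Fin (D + 1), ((σ i).1 r).card :=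
            sum_le_sum fun i _ => card_biUnion_le
        _ ≤ ∑ i : Fin N, ∑ r : Fin (D + 1), bnd N M' r :=
            sum_le_sum fun i _ => sum_le_sum fun r _ => ((σ i).2.1 r).2
        _ = N * ∑ r : Fin (D + 1), bnd N M' r := by simp)
  refine ⟨⟨Fin.cons Q (fun r : Fin D => Q ∪ univ.biUnion (fun i => (σ i).1 r.castSucc)),
    ?_, ν, ?_⟩, ?_, ?_⟩
  · intro r
    refine Fin.cases ?_ (fun r => ?_) r
    · simp only [Fin.cons_zero]
      exact ⟨hQU, hQ.card⟩
    · simp only [Fin.cons_succ]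
      refine ⟨?_, ?_⟩
      · apply union_subset hQU
        intro x hx
        simp only [mem_biUnion, mem_univ, true_and] at hx
        obtain ⟨i, hx⟩ := hx
        exact ((σ i).2.1 _).1 hx
      · rw [Fin.val_succ]
        calc (Q ∪ univ.biUnion (fun i => (σ i).1 r.castSucc)).card
            ≤ Q.card + (univ.biUnion (fun i => (σ i).1 r.castSucc)).card := card_union_le _ _
          _ ≤ M' + ∑ i : Fin N, ((σ i).1 r.castSucc).card :=
              Nat.add_le_add hQ.card card_biUnion_le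
          _ ≤ M' + ∑ _i : Fin N, bnd N M' r :=
              Nat.add_le_add le_rfl (sum_le_sum fun i _ => by
                simpa using ((σ i).2.1 r.castSucc).2)
          _ = bnd N M' (r + 1) := by simp [bnd]
  · simp only [Fin.cons_zero]
    exact hQ
  · intro q hq i r x hx
    simp only [Fin.cons_zero] at hq
    apply hadj q hq
    simp only [mem_biUnion, mem_univ, true_and]
    exact ⟨i, r, hx⟩
  · intro r i
    simp only [Fin.cons_succ]
    intro x hx
    apply mem_union_right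
    simp only [mem_biUnion, mem_univ, true_and]
    exact ⟨i, hx⟩

theorem exists_treeSys (D : ℕ) (θ : ℝ) (hθ : 0 < θ) : ∃ N : ℕ, 0 < N ∧ ∀ M' : ℕ, ∃ K₀ : ℕ,
    ∀ (V : Type) [Fintype V] [DecidableEq V] (adj : V → V → Prop) (Has : Finset V → Prop)
      (ε : ℝ) (U : Finset V),
      (∀ X : Finset V, X ⊆ U → X.card ≤ K₀ → ∃ (Q : Finset V) (ν : V → ℝ),
        Heavy Has ε M' Q ν ∧ Q ⊆ U ∧ ∀ q ∈ Q, ∀ x ∈ X, adj q x) →
      Nonempty (TreeSys V adj Has ε M' U D N θ) := by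
  classical
  refine ⟨⌈4 / θ ^ 2⌉₊ + 1, Nat.succ_pos _, fun M' => ⟨(⌈4 / θ ^ 2⌉₊ + 1) *
    ∑ r : Fin (D + 1), bnd (⌈4 / θ ^ 2⌉₊ + 1) M' r, ?_⟩⟩
  intro V _ _ adj Has ε U hX
  have hNθ : 4 / θ ^ 2 ≤ ((⌈4 / θ ^ 2⌉₊ + 1 : ℕ) : ℝ) := by
    have := Nat.le_ceil (4 / θ ^ 2)
    push_cast
    linarith
  generalize hN : ⌈4 / θ ^ 2⌉₊ + 1 = N at hX hNθ ⊢
  have hN0 : 0 < N := by omega
  obtain ⟨Build, hB⟩ := exists_build D N M' V adj Has ε U hX
  let _ : Fintype (St V Has ε M' U D N) := by unfold St; infer_instance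
  have _ : Nonempty (St V Has ε M' U D N) := by
    obtain ⟨Q, ν, hQ, hQU, -⟩ := hX ∅ (empty_subset _) (by simp)
    exact ⟨⟨fun _ => Q, fun r => ⟨hQU, le_trans hQ.card (le_bnd N M' r)⟩, ν, hQ⟩⟩
  obtain ⟨lam, hl0, hl1, hst⟩ := exists_stationary Build
  obtain ⟨Ω, iΩ, p, st, hp0, hp1, hpre, hbuild, hlln⟩ :=
    exists_tree hN0 Build lam hl0 hl1 hst D θ hθ hNθ
  -- one step down
  have step : ∀ (ω : Ω) (ℓ : ℕ) (h : ℓ < D) (π : Fin D → Fin N),
      ∃ σ : Fin N → St V Has ε M' U D N, st ω ℓ π = Build σ ∧ σ (π ⟨ℓ, h⟩) = st ω (ℓ + 1) π := by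
    intro ω ℓ h π
    refine ⟨_, hbuild ω ℓ h π, ?_⟩
    simp only [Function.update_eq_self]
  -- labels are remembered
  have hmem : ∀ (r : ℕ) (hr : r < D + 1) (ω : Ω) (ℓ : ℕ) (π : Fin D → Fin N), ℓ + r ≤ D →
      (st ω (ℓ + r) π).1 0 ⊆ (st ω ℓ π).1 ⟨r, hr⟩ := by
    intro r
    induction r with
    | zero =>
      intro hr ω ℓ π _
      exact subset_rfl
    | succ r ih =>
      intro hr ω ℓ π hle
      obtain ⟨σ, h1, h2⟩ := step ω ℓ (by omega) π
      have h3 := ih (by omega) ω (ℓ + 1) π (by omega)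
      rw [← h2] at h3
      have h4 := (hB σ).2 ⟨r, by omega⟩ (π ⟨ℓ, by omega⟩)
      rw [← h1] at h4
      have e : ℓ + (r + 1) = ℓ + 1 + r := by ring
      rw [e]
      exact h3.trans h4
  refine ⟨{ T := St V Has ε M' U D N
            lam := lam
            lam_nonneg := hl0
            lam_sum := hl1
            Q := fun x => x.1 0
            nu := fun x => x.2.2.choose
            heavy := fun x => x.2.2.choose_spec
            QU := fun x => (x.2.1 0).1
            Ω := Ω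
            p := p
            p_nonneg := hp0
            p_sum := hp1
            st := st
            st_prefix := hpre
            dom := ?_
            lln := hlln }⟩
  intro ω ℓ ℓ' π hlt hle x hx y hy
  obtain ⟨σ, h1, h2⟩ := step ω ℓ (by omega) π
  have h3 := hmem (ℓ' - (ℓ + 1)) (by omega) ω (ℓ + 1) π (by omega)
  have e : ℓ + 1 + (ℓ' - (ℓ + 1)) = ℓ' := by omega
  rw [e, ← h2] at h3
  rw [h1] at hx
  exact (hB σ).1 x hx _ _ y (h3 hy)

end Pool.Agent.Hhelper10.Dom
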