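import Pool.Agent.Hhelper10.Dom.Levels
import Pool.Agent.Hhelper10.Dom.Avg
import Pool.Agent.Hhelper10.Dom.Sys

/-! The core theorem (MP_f4fe70_co): from heavy sets for `Has` to heavy sets for `Pat adj Has`. -/

set_option autoImplicit false
set_option linter.unusedSectionVars false

open Finset

namespace Pool.Agent.Hhelper10.Dom

section measure

variable {V : Type} [Fintype V] [DecidableEq V] {adj : V → V → Prop} {Has : Finset V → Prop}
  {ε : ℝ} {M' : ℕ} {U : Finset V} {D N : ℕ} {θ : ℝ}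
  (S : TreeSys V adj Has ε M' U D N θ) {m : ℕ} (B r : ℕ)

open TreeSys

noncomputable def ZZ (ω : Fin m → S.Ω) : Finset V :=
  (univ : Finset (Fin m × Fin B × Fin r × (Fin D → Fin N))).biUnion
    (fun x => S.Q (S.st (ω x.1) (lv r x.2.1 x.2.2.1) x.2.2.2))

noncomputable def νν (ω : Fin m → S.Ω) (v : V) : ℝ :=
  (∑ t, ∑ g : Fin B, ∑ s : Fin r, pavg (fun π => S.nu (S.st (ω t) (lv r g s) π) v)) /
    ((m : ℝ) * B * r)

lemma ZZ_card (ω : Fin m → S.Ω) : (ZZ S B r ω).card ≤ m * (B * (r * N ^ D)) * M' := by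
  classical
  unfold ZZ
  calc _ ≤ ∑ x : Fin m × Fin B × Fin r × (Fin D → Fin N),
        (S.Q (S.st (ω x.1) (lv r x.2.1 x.2.2.1) x.2.2.2)).card := Finset.card_biUnion_le
    _ ≤ ∑ x : Fin m × Fin B × Fin r × (Fin D → Fin N), M' :=
        Finset.sum_le_sum fun x _ => (S.heavy _).card
    _ = m * (B * (r * N ^ D)) * M' := by
        simp

lemma νν_nonneg (ω : Fin m → S.Ω) (v : V) : 0 ≤ νν S B r ω v :=
  div_nonneg (Finset.sum_nonneg fun t _ => Finset.sum_nonneg fun g _ => Finset.sum_nonneg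
    fun s _ => pavg_nonneg fun π => (S.heavy _).nonneg v) (by positivity)

lemma νν_sum (ω : Fin m → S.Ω) (A : Finset V) :
    ∑ v ∈ A, νν S B r ω v = (∑ t, ∑ g : Fin B, ∑ s : Fin r,
      pavg (fun π => ∑ v ∈ A, S.nu (S.st (ω t) (lv r g s) π) v)) / ((m : ℝ) * B * r) := by
  unfold νν
  rw [← Finset.sum_div]
  congr 1
  rw [Finset.sum_comm]
  refine Finset.sum_congr rfl fun t _ => ?_
  rw [Finset.sum_comm]
  refine Finset.sum_congr rfl fun g _ => ?_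
  rw [Finset.sum_comm]
  refine Finset.sum_congr rfl fun s _ => ?_
  rw [pavg_sum]

lemma νν_supp (ω : Fin m → S.Ω) (v : V) (hv : v ∉ ZZ S B r ω) : νν S B r ω v = 0 := by
  unfold νν
  have : ∀ (t : Fin m) (g : Fin B) (s : Fin r),
      pavg (fun π => S.nu (S.st (ω t) (lv r g s) π) v) = 0 := by
    intro t g s
    have h0 : ∀ π, S.nu (S.st (ω t) (lv r g s) π) v = 0 := by
      intro π
      apply (S.heavy _).supp
      intro hmem
      apply hv
      unfold ZZ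
      rw [Finset.mem_biUnion]
      exact ⟨(t, g, s, π), Finset.mem_univ _, hmem⟩
    simp only [h0]
    unfold pavg
    simp
  simp only [this, Finset.sum_const_zero, zero_div]

end measure

theorem core (δ : ℝ) (hδ : 0 < δ) : ∃ ε : ℝ, 0 < ε ∧ ∀ M' : ℕ, ∃ K₀ M : ℕ,
    ∀ (V : Type) [Fintype V] [DecidableEq V] (adj : V → V → Prop) (Has : Finset V → Prop)
      (U : Finset V), IsTour adj → ¬ Has ∅ →
      (∀ X : Finset V, X ⊆ U → X.card ≤ K₀ → ∃ (Q : Finset V) (ν : V → ℝ),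
        Heavy Has ε M' Q ν ∧ Q ⊆ U ∧ ∀ q ∈ Q, ∀ x ∈ X, adj q x) →
      ∃ (Z : Finset V) (ν : V → ℝ), Z ⊆ U ∧ Heavy (Pat adj Has) δ M Z ν := by
  classical
  -- parameters
  obtain ⟨r, hr⟩ : ∃ r : ℕ, 12 / δ ≤ r := exists_nat_ge _
  have hr0 : (0 : ℝ) < r := lt_of_lt_of_le (by positivity) hr
  set κ₁ : ℝ := δ / 2 * (δ / (8 * (r : ℝ) ^ 3)) with hκ₁
  have hκ : 0 < κ₁ := by positivity
  obtain ⟨m, hm⟩ : ∃ m : ℕ, 64 / κ₁ ^ 2 ≤ m := exists_nat_ge _
  have hm0 : (0 : ℝ) < m := lt_of_lt_of_le (by positivity) hm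
  set c : ℝ := 7 * (m : ℝ) ^ 2 + 4 / κ₁ * (2 + 16 / δ * (m : ℝ) ^ 2) with hc
  have hc0 : 0 < c := by positivity
  set ε : ℝ := min (δ / 12) (κ₁ / (16 * c)) with hεdef
  have hε : 0 < ε := lt_min (by positivity) (by positivity)
  have hεδ : 12 * ε ≤ δ := by
    have := min_le_left (δ / 12) (κ₁ / (16 * c))
    linarith
  have hεc : ε * c ≤ κ₁ / 16 := by
    have h1 := min_le_right (δ / 12) (κ₁ / (16 * c))
    calc ε * c ≤ κ₁ / (16 * c) * c := mul_le_mul_of_nonneg_right h1 hc0.le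
      _ = κ₁ / 16 := by field_simp
  refine ⟨ε, hε, fun M' => ?_⟩
  obtain ⟨B, hB⟩ : ∃ B : ℕ, 16 * (m : ℝ) ^ 2 * (r : ℝ) ^ 3 / (ε * δ) ≤ B := exists_nat_ge _
  have hB0 : (0 : ℝ) < B := lt_of_lt_of_le (by positivity) hB
  set θ : ℝ := min (1 / (B * 2 ^ (M' * (B * r)))) (κ₁ ^ 2 / (128 * m * (2 ^ (M' * m) * 4 ^ m)))
    with hθdef
  have hθ : 0 < θ := lt_min (by positivity) (by positivity)
  have hθ1 : B * 2 ^ (M' * (B * r)) * θ ≤ 1 := by
    have h1 := min_le_left (1 / (B * 2 ^ (M' * (B * r)) : ℝ))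
      (κ₁ ^ 2 / (128 * m * (2 ^ (M' * m) * 4 ^ m)))
    have h2 : (0 : ℝ) < B * 2 ^ (M' * (B * r)) := by positivity
    calc (B : ℝ) * 2 ^ (M' * (B * r)) * θ ≤ B * 2 ^ (M' * (B * r)) *
          (1 / (B * 2 ^ (M' * (B * r)))) := mul_le_mul_of_nonneg_left h1 h2.le
      _ = 1 := by field_simp
  have hθ2 : 8 / κ₁ * (m * (2 ^ (M' * m) * 4 ^ m * θ)) ≤ κ₁ / 16 := by
    have h1 := min_le_right (1 / (B * 2 ^ (M' * (B * r)) : ℝ))
      (κ₁ ^ 2 / (128 * m * (2 ^ (M' * m) * 4 ^ m)))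
    have h2 : (0 : ℝ) < 8 / κ₁ * (m * (2 ^ (M' * m) * 4 ^ m)) := by positivity
    calc 8 / κ₁ * (m * (2 ^ (M' * m) * 4 ^ m * θ)) =
          8 / κ₁ * (m * (2 ^ (M' * m) * 4 ^ m)) * θ := by ring
      _ ≤ 8 / κ₁ * (m * (2 ^ (M' * m) * 4 ^ m)) *
          (κ₁ ^ 2 / (128 * m * (2 ^ (M' * m) * 4 ^ m))) := mul_le_mul_of_nonneg_left h1 h2.le
      _ = κ₁ / 16 := by field_simp; norm_num
  obtain ⟨N, hN, hsys⟩ := exists_treeSys (B * r) θ hθ
  obtain ⟨K₀, hK₀⟩ := hsys M'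
  refine ⟨K₀, m * (B * (r * N ^ (B * r))) * M', ?_⟩
  intro V _ _ adj Has U hT hE hX
  obtain ⟨S⟩ := hK₀ V adj Has ε U hX
  by_contra hcon
  push Not at hcon
  -- the colour class
  have hF : ∀ ω : Fin m → S.Ω, ∃ A : Finset V, ¬ Pat adj Has A ∧
      δ < ∑ v ∈ A, νν S B r ω v := by
    intro ω
    have hZU : ZZ S B r ω ⊆ U := by
      unfold ZZ
      rw [Finset.biUnion_subset]
      intro x _
      exact S.QU _
    have hnot := hcon (ZZ S B r ω) (νν S B r ω) hZU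
    have hden : (0 : ℝ) < (m : ℝ) * B * r := by positivity
    have hs1 : ∑ v, νν S B r ω v = 1 := by
      rw [νν_sum]
      simp only [(S.heavy _).sum_one, pavg_const hN]
      simp only [Finset.sum_const, nsmul_eq_mul, Finset.card_univ, Fintype.card_fin, mul_one]
      rw [div_eq_one_iff_eq hden.ne']
      ring
    by_contra hcon2
    push Not at hcon2
    apply hnot
    refine ⟨ZZ_card S B r ω, νν_nonneg S B r ω, νν_supp S B r ω, hs1, ?_⟩
    intro A hA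
    rcases hA with hA | hA
    · exact hcon2 A hA
    · have h1 : ∑ v ∈ A, νν S B r ω v ≤ ε := by
        rw [νν_sum, div_le_iff₀ hden]
        calc ∑ t, ∑ g : Fin B, ∑ s : Fin r,
              pavg (fun π => ∑ v ∈ A, S.nu (S.st (ω t) (TreeSys.lv r g s) π) v)
            ≤ ∑ t : Fin m, ∑ g : Fin B, ∑ s : Fin r, ε := by
              refine Finset.sum_le_sum fun t _ => Finset.sum_le_sum fun g _ =>
                Finset.sum_le_sum fun s _ => ?_
              refine le_trans (pavg_mono (g := fun _ => ε) fun π =>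
                (S.heavy _).small A (Or.inr hA)) (pavg_const hN ε).le
          _ = ε * ((m : ℝ) * B * r) := by
              simp only [Finset.sum_const, nsmul_eq_mul, Finset.card_univ, Fintype.card_fin]
              ring
      linarith
  choose F hFP hFc using hF
  have hcov : ∀ ω : Fin m → S.Ω, δ * (m * B * r) ≤ ∑ t, ∑ g : Fin B, ∑ s : Fin r,
      pavg (fun π => ∑ v ∈ F ω, S.nu (S.st (ω t) (TreeSys.lv r g s) π) v) := by
    intro ω
    have h1 := hFc ω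
    have hden : (0 : ℝ) < (m : ℝ) * B * r := by positivity
    rw [νν_sum, lt_div_iff₀ hden] at h1
    exact h1.le
  have hmpos : 0 < m := by exact_mod_cast hm0
  have hBpos : 0 < B := by exact_mod_cast hB0
  obtain ⟨i, j, l, hij, hjl, hl, hW, hDr⟩ := S.exists_levels F δ hT hE hFP hδ hεδ hN hmpos B r
    le_rfl hθ.le hθ1 hr hε hB hBpos hcov
  have hfin := S.avg_ineq F δ hT hE hFP hε.le hδ hεδ hN hκ hm hij hjl hl
  -- the swapped sum
  have hsw : ∑ t, ∑ t' ∈ univ.erase t, S.Dr F δ i j l t' t =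
      ∑ t, ∑ t' ∈ univ.erase t, S.Dr F δ i j l t t' := by
    rw [Finset.sum_comm' (t' := univ) (s' := fun t' => univ.erase t')]
    intro x y
    simp only [Finset.mem_univ, Finset.mem_erase, true_and, and_true]
    tauto
  set DR : ℝ := ∑ t, ∑ t' ∈ univ.erase t, S.Dr F δ i j l t t' with hDR
  have hcard : ∀ x : ℝ, 0 ≤ x → ∑ t : Fin m, ∑ t' ∈ univ.erase t, x ≤ (m : ℝ) ^ 2 * x := by
    intro x hx
    calc ∑ t : Fin m, ∑ t' ∈ univ.erase t, x ≤ ∑ t : Fin m, ∑ t' : Fin m, x :=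
          Finset.sum_le_sum fun t _ =>
            Finset.sum_le_sum_of_subset_of_nonneg (Finset.erase_subset _ _) fun _ _ _ => hx
      _ = (m : ℝ) ^ 2 * x := by
          simp only [Finset.sum_const, nsmul_eq_mul, Finset.card_univ, Fintype.card_fin]
          ring
  have e1 : ∑ t, ∑ t' ∈ univ.erase t, (5 * ε + S.Dr F δ i j l t t' + S.Dr F δ i j l t' t) =
      ∑ t : Fin m, ∑ t' ∈ univ.erase t, 5 * ε + DR + DR := by
    simp only [Finset.sum_add_distrib]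
    rw [hsw]
  have e2 : ∑ t, ∑ t' ∈ univ.erase t,
        (2 * S.Dr F δ i j l t t' + 8 / δ * (ε + S.Dr F δ i j l t' t)) =
      2 * DR + 8 / δ * (∑ t : Fin m, ∑ t' ∈ univ.erase t, ε + DR) := by
    simp only [Finset.sum_add_distrib, ← Finset.mul_sum, mul_add]
    rw [hsw]
  rw [e1, e2] at hfin
  have c1 := hcard (5 * ε) (by positivity)
  have c2 := hcard ε hε.le
  have hm1 : (1 : ℝ) ≤ (m : ℝ) ^ 2 := by
    have : (1 : ℝ) ≤ m := by exact_mod_cast hmpos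
    nlinarith
  have s1 : ∑ t : Fin m, ∑ t' ∈ univ.erase t, 5 * ε + DR + DR ≤ 7 * (m : ℝ) ^ 2 * ε := by
    nlinarith
  have s2 : 4 / κ₁ * (2 * DR + 8 / δ * (∑ t : Fin m, ∑ t' ∈ univ.erase t, ε + DR)) ≤
      4 / κ₁ * ((2 + 16 / δ * (m : ℝ) ^ 2) * ε) := by
    apply mul_le_mul_of_nonneg_left _ (by positivity)
    have h8 : 0 < 8 / δ := by positivity
    have h1 : 8 / δ * (∑ t : Fin m, ∑ t' ∈ univ.erase t, ε + DR) ≤
        8 / δ * (2 * ((m : ℝ) ^ 2 * ε)) := by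
      apply mul_le_mul_of_nonneg_left _ h8.le
      nlinarith
    have h2 : 8 / δ * (2 * ((m : ℝ) ^ 2 * ε)) = 16 / δ * (m : ℝ) ^ 2 * ε := by ring
    linarith
  have s3 : ∑ t : Fin m, ∑ t' ∈ univ.erase t, 5 * ε + DR + DR +
      4 / κ₁ * (2 * DR + 8 / δ * (∑ t : Fin m, ∑ t' ∈ univ.erase t, ε + DR)) +
      8 / κ₁ * (m * (2 ^ (M' * m) * 4 ^ m * θ)) ≤ κ₁ / 8 := by
    have h3 : 7 * (m : ℝ) ^ 2 * ε + 4 / κ₁ * ((2 + 16 / δ * (m : ℝ) ^ 2) * ε) = ε * c := by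
      rw [hc]; ring
    linarith
  have s4 : (m : ℝ) * (∑ t : Fin m, ∑ t' ∈ univ.erase t, 5 * ε + DR + DR +
      4 / κ₁ * (2 * DR + 8 / δ * (∑ t : Fin m, ∑ t' ∈ univ.erase t, ε + DR)) +
      8 / κ₁ * (m * (2 ^ (M' * m) * 4 ^ m * θ))) ≤ m * (κ₁ / 8) :=
    mul_le_mul_of_nonneg_left s3 hm0.le
  have s5 : m * κ₁ ≤ δ / 2 * S.Wt F δ i j l := by
    calc (m : ℝ) * κ₁ = δ / 2 * (δ / (8 * (r : ℝ) ^ 3) * m) := by rw [hκ₁]; ring
      _ ≤ _ := mul_le_mul_of_nonneg_left hW (by positivity)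
  have s6 : (0 : ℝ) < m * κ₁ := by positivity
  linarith

end Pool.Agent.Hhelper10.Dom
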