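import Pool.Agent.Hhelper10.Dom.Local

/-! The inequality for one outcome of the trees (MP_f4fe70_co). -/

set_option autoImplicit false
set_option linter.unusedSectionVars false

open Finset

namespace Pool.Agent.Hhelper10.Dom

/-- `m` roots `a t` with columns `a t ⇒ b t c ⇒ e t c`, `c : C`. -/
structure Cols (V : Type) [Fintype V] [DecidableEq V] (adj : V → V → Prop)
    (Has : Finset V → Prop) (ε δ : ℝ) (M : ℕ) (m : ℕ) (F : Finset V) (C : Type) [Fintype C] where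
  w : Fin m → C → ℝ
  w0 : ∀ t c, 0 ≤ w t c
  w1 : ∀ t, ∑ c, w t c = 1
  a : Fin m → Finset V
  b : Fin m → C → Finset V
  e : Fin m → C → Finset V
  νa : Fin m → V → ℝ
  νb : Fin m → C → V → ℝ
  ha : ∀ t, Heavy Has ε M (a t) (νa t)
  hb : ∀ t c, Heavy Has ε M (b t c) (νb t c)
  hab : ∀ t c, ∀ x ∈ a t, ∀ z ∈ b t c, adj x z
  hbe : ∀ t c, ∀ x ∈ b t c, ∀ z ∈ e t c, adj x z
  G : Fin m → C → Prop
  ga : ∀ t c, G t c → 2 * ε < ∑ v ∈ F, νa t v
  gb : ∀ t c, G t c → δ / 2 ≤ ∑ v ∈ F, νb t c v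

namespace Cols

variable {V : Type} [Fintype V] [DecidableEq V] {adj : V → V → Prop} {Has : Finset V → Prop}
  {ε δ : ℝ} {M m : ℕ} {F : Finset V} {C : Type} [Fintype C]
  (K : Cols V adj Has ε δ M m F C)

noncomputable def dens (t : Fin m) : ℝ :=
  ∑ c, K.w t c * (ind (K.G t c) * ∑ v ∈ F, K.νb t c v)

noncomputable def dr (t t' : Fin m) : ℝ :=
  ∑ c, K.w t c * ∑ c', K.w t' c' *
    (ind (K.G t c) * dropm adj Has F (K.a t) (K.e t c) (K.νb t' c'))

open Classical in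
noncomputable def Aset (H : Finset V) (S s : Finset (Fin m)) (l : Fin m) : Finset V :=
  univ.filter (fun y => ∀ k ∈ S, k ≠ l → (Rp adj Has H (K.a k) y ↔ k ∈ s))

noncomputable def roots (l : Fin m) : Finset V :=
  (univ.erase l).biUnion K.a

noncomputable def err (wb : V → ℝ) (l : Fin m) : ℝ :=
  ∑ H ∈ (K.roots l).powerset, ∑ S : Finset (Fin m), ∑ s : Finset (Fin m),
    |∑ c, K.w l c * (∑ v ∈ K.Aset H S s l, K.νb l c v) - ∑ v ∈ K.Aset H S s l, wb v|

/-- the kernel of the experiment -/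
noncomputable def ker (t : Fin m) (x : C × V) : ℝ := K.w t x.1 * K.νb t x.1 x.2

lemma ker0 (t : Fin m) (x : C × V) : 0 ≤ K.ker t x :=
  mul_nonneg (K.w0 t x.1) ((K.hb t x.1).nonneg x.2)

lemma ker_sum (t : Fin m) (f : C → V → ℝ) :
    ∑ x : C × V, K.ker t x * f x.1 x.2 = ∑ c, K.w t c * ∑ y, K.νb t c y * f c y := by
  rw [Fintype.sum_prod_type]
  refine Finset.sum_congr rfl fun c _ => ?_
  rw [Finset.mul_sum]
  refine Finset.sum_congr rfl fun y _ => ?_
  simp only [ker]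
  ring

lemma ker1 (t : Fin m) : ∑ x : C × V, K.ker t x = 1 := by
  have := K.ker_sum t (fun _ _ => 1)
  simp only [mul_one] at this
  rw [this]
  simp only [(K.hb t _).sum_one, mul_one, K.w1]

def strong (κ₁ : ℝ) (t : Fin m) (μ : Fin m → C × V) : Prop :=
  K.G t (μ t).1 ∧ (μ t).2 ∈ F ∧ κ₁ / 2 ≤ K.dens t

noncomputable def bad1 (t t' : Fin m) (x x' : C × V) : ℝ :=
  ind (K.G t x.1) * ind (K.G t' x'.1) *
    ind (x'.2 ∈ F ∧ x.2 ∈ F ∧ (Rp adj Has F (K.a t) x'.2 ↔ Rp adj Has F (K.a t') x.2))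

noncomputable def inc (t t' : Fin m) (x x' : C × V) : ℝ :=
  ind (K.G t x.1) * ind (K.G t' x'.1) *
    ∑ c', K.w t' c' * (ind (K.G t' c') * ∑ y', K.νb t' c' y' *
      ind (x'.2 ∈ F ∧ y' ∈ F ∧ ¬ (Rp adj Has F (K.a t) y' ↔ Rp adj Has F (K.a t) x'.2)))

lemma bad1_nonneg (t t' : Fin m) (x x' : C × V) : 0 ≤ K.bad1 t t' x x' :=
  mul_nonneg (mul_nonneg (ind_nonneg _) (ind_nonneg _)) (ind_nonneg _)

lemma inc_nonneg (t t' : Fin m) (x x' : C × V) : 0 ≤ K.inc t t' x x' := by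
  refine mul_nonneg (mul_nonneg (ind_nonneg _) (ind_nonneg _)) (Finset.sum_nonneg fun c _ => ?_)
  exact mul_nonneg (K.w0 _ _) (mul_nonneg (ind_nonneg _) (Finset.sum_nonneg fun y _ =>
    mul_nonneg ((K.hb _ _).nonneg _) (ind_nonneg _)))

lemma err_nonneg (wb : V → ℝ) (l : Fin m) : 0 ≤ K.err wb l :=
  Finset.sum_nonneg fun _ _ => Finset.sum_nonneg fun _ _ => Finset.sum_nonneg fun _ _ =>
    abs_nonneg _

noncomputable def Bad (κ₁ : ℝ) (wb : V → ℝ) (μ : Fin m → C × V) : ℝ :=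
  ∑ t, ∑ t' ∈ univ.erase t, K.bad1 t t' (μ t) (μ t') +
    4 / κ₁ * ∑ t, ∑ t' ∈ univ.erase t, K.inc t t' (μ t) (μ t') +
    8 / κ₁ * ∑ l, K.err wb l

/-! ### The deterministic claim -/

lemma Rp_inter {H q : Finset V} (h : F ∩ q = H ∩ q) (y : V) :
    Rp adj Has H q y ↔ Rp adj Has F q y := by
  unfold Rp
  rw [h]

lemma strong_card {κ₁ : ℝ} (hκ : 0 < κ₁) (hm : 64 / κ₁ ^ 2 ≤ m)
    (wb : V → ℝ) (wb0 : ∀ v, 0 ≤ wb v) (wb1 : ∑ v, wb v = 1) (μ : Fin m → C × V) :
    ∑ t, ind (K.strong κ₁ t μ) ≤ m * κ₁ / 4 + m * K.Bad κ₁ wb μ := by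
  classical
  have hb1 : ∀ t t', 0 ≤ K.bad1 t t' (μ t) (μ t') := fun t t' => K.bad1_nonneg t t' _ _
  have hinc : ∀ t t', 0 ≤ K.inc t t' (μ t) (μ t') := fun t t' => K.inc_nonneg t t' _ _
  have herr : ∀ l, 0 ≤ K.err wb l := K.err_nonneg wb
  have s1 : 0 ≤ ∑ t, ∑ t' ∈ univ.erase t, K.bad1 t t' (μ t) (μ t') :=
    Finset.sum_nonneg fun t _ => Finset.sum_nonneg fun t' _ => hb1 t t'
  have s2 : 0 ≤ ∑ t, ∑ t' ∈ univ.erase t, K.inc t t' (μ t) (μ t') :=
    Finset.sum_nonneg fun t _ => Finset.sum_nonneg fun t' _ => hinc t t'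
  have s3 : 0 ≤ ∑ l, K.err wb l := Finset.sum_nonneg fun l _ => herr l
  have hk4 : 0 < 4 / κ₁ := by positivity
  have hk8 : 0 < 8 / κ₁ := by positivity
  by_cases hB : 1 ≤ K.Bad κ₁ wb μ
  · have h1 : ∑ t, ind (K.strong κ₁ t μ) ≤ m := by
      calc ∑ t, ind (K.strong κ₁ t μ) ≤ ∑ t : Fin m, (1 : ℝ) :=
            Finset.sum_le_sum fun t _ => ind_le_one _
        _ = m := by simp
    have h2 : (m : ℝ) ≤ m * K.Bad κ₁ wb μ := by
      have : (0 : ℝ) ≤ m := Nat.cast_nonneg m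
      nlinarith
    have h3 : (0 : ℝ) ≤ m * κ₁ / 4 := by positivity
    linarith
  push Not at hB
  have hBad0 : 0 ≤ K.Bad κ₁ wb μ := by
    unfold Bad
    have := mul_nonneg hk4.le s2
    have := mul_nonneg hk8.le s3
    linarith
  have hB1 : ∑ t, ∑ t' ∈ univ.erase t, K.bad1 t t' (μ t) (μ t') < 1 := by
    unfold Bad at hB
    have := mul_nonneg hk4.le s2
    have := mul_nonneg hk8.le s3
    linarith
  have hB2 : ∑ t, ∑ t' ∈ univ.erase t, K.inc t t' (μ t) (μ t') < κ₁ / 4 := by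
    unfold Bad at hB
    have := mul_nonneg hk8.le s3
    have h4 : 4 / κ₁ * ∑ t, ∑ t' ∈ univ.erase t, K.inc t t' (μ t) (μ t') < 1 := by linarith
    rw [div_mul_eq_mul_div, div_lt_one hκ] at h4
    linarith
  have hB3 : ∑ l, K.err wb l < κ₁ / 8 := by
    unfold Bad at hB
    have := mul_nonneg hk4.le s2
    have h4 : 8 / κ₁ * ∑ l, K.err wb l < 1 := by linarith
    rw [div_mul_eq_mul_div, div_lt_one hκ] at h4
    linarith
  have anti : ∀ t t', t ≠ t' → K.strong κ₁ t μ → K.strong κ₁ t' μ →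
      ¬ (Rp adj Has F (K.a t) (μ t').2 ↔ Rp adj Has F (K.a t') (μ t).2) := by
    intro t t' htt h1 h2 hiff
    have h3 : K.bad1 t t' (μ t) (μ t') = 1 := by
      unfold bad1
      rw [ind_of h1.1, ind_of h2.1, ind_of ⟨h2.2.1, h1.2.1, hiff⟩]
      norm_num
    have h4 : K.bad1 t t' (μ t) (μ t') ≤ ∑ t, ∑ t' ∈ univ.erase t, K.bad1 t t' (μ t) (μ t') := by
      have h5 : K.bad1 t t' (μ t) (μ t') ≤ ∑ t' ∈ univ.erase t, K.bad1 t t' (μ t) (μ t') :=
        Finset.single_le_sum (f := fun t' => K.bad1 t t' (μ t) (μ t'))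
          (fun t' _ => hb1 t t') (Finset.mem_erase.2 ⟨htt.symm, Finset.mem_univ _⟩)
      refine h5.trans ?_
      exact Finset.single_le_sum (f := fun t => ∑ t' ∈ univ.erase t, K.bad1 t t' (μ t) (μ t'))
        (fun t _ => Finset.sum_nonneg fun t' _ => hb1 t t') (Finset.mem_univ t)
    linarith
  set S : Finset (Fin m) := univ.filter (fun t => K.strong κ₁ t μ) with hS
  have hScard : ∑ t, ind (K.strong κ₁ t μ) = S.card := by
    rw [hS, Finset.card_filter]
    push_cast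
    exact Finset.sum_congr rfl fun t _ => by unfold ind; congr
  -- the sets A_l
  let sl : Fin m → Finset (Fin m) := fun l => univ.filter (fun k => Rp adj Has F (K.a k) (μ l).2)
  let Al : Fin m → Finset V := fun l => K.Aset (F ∩ K.roots l) S (sl l) l
  have hroot : ∀ l k, k ≠ l → F ∩ K.a k = (F ∩ K.roots l) ∩ K.a k := by
    intro l k hkl
    ext v
    simp only [Finset.mem_inter, roots, Finset.mem_biUnion, Finset.mem_erase, Finset.mem_univ,
      and_true]
    constructor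
    · rintro ⟨h1, h2⟩
      exact ⟨⟨h1, k, hkl, h2⟩, h2⟩
    · rintro ⟨⟨h1, _⟩, h2⟩
      exact ⟨h1, h2⟩
  have hAl : ∀ l v, v ∈ Al l ↔ ∀ k ∈ S, k ≠ l →
      (Rp adj Has F (K.a k) v ↔ Rp adj Has F (K.a k) (μ l).2) := by
    intro l v
    simp only [Al, Aset, sl, Finset.mem_filter, Finset.mem_univ, true_and]
    refine forall_congr' fun k => forall_congr' fun _ => forall_congr' fun hkl => ?_
    rw [Rp_inter (hroot l k hkl)]
  have hwb : ∀ l ∈ S, κ₁ / 8 ≤ ∑ v ∈ Al l, wb v := by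
    intro l hl
    have hls : K.strong κ₁ l μ := by simpa [hS] using hl
    -- dens ≤ mass of Al + inconsistencies
    have h1 : K.dens l ≤ ∑ c, K.w l c * (∑ v ∈ Al l, K.νb l c v) +
        ∑ k ∈ univ.erase l, K.inc k l (μ k) (μ l) := by
      have h2 : ∀ c, K.w l c * (ind (K.G l c) * ∑ v ∈ F, K.νb l c v) ≤
          K.w l c * (∑ v ∈ Al l, K.νb l c v) + ∑ k ∈ S.erase l,
            K.w l c * (ind (K.G l c) * ∑ y', K.νb l c y' *
      ind ((μ l).2 ∈ F ∧ y' ∈ F ∧ ¬ (Rp adj Has F (K.a k) y' ↔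
        Rp adj Has F (K.a k) (μ l).2))) := by
        intro c
        rw [← Finset.mul_sum, ← mul_add]
        apply mul_le_mul_of_nonneg_left _ (K.w0 l c)
        have h3 : ∑ v ∈ F, K.νb l c v ≤ ∑ v ∈ Al l, K.νb l c v + ∑ k ∈ S.erase l,
            ∑ y', K.νb l c y' * ind ((μ l).2 ∈ F ∧ y' ∈ F ∧ ¬ (Rp adj Has F (K.a k) y' ↔
              Rp adj Has F (K.a k) (μ l).2)) := by
          rw [sum_mem_eq_ind _ F, sum_mem_eq_ind _ (Al l), Finset.sum_comm,
            ← Finset.sum_add_distrib]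
          apply Finset.sum_le_sum
          intro v _
          rw [← Finset.mul_sum, ← mul_add]
          apply mul_le_mul_of_nonneg_left _ ((K.hb l c).nonneg v)
          have n0 : ∀ k ∈ S.erase l, 0 ≤ ind ((μ l).2 ∈ F ∧ v ∈ F ∧
              ¬ (Rp adj Has F (K.a k) v ↔ Rp adj Has F (K.a k) (μ l).2)) :=
            fun k _ => ind_nonneg _
          have n1 := Finset.sum_nonneg n0
          by_cases hv : v ∈ F
          · rw [ind_of hv]
            by_cases hvA : v ∈ Al l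
            · rw [ind_of hvA]; linarith
            · rw [hAl] at hvA
              push Not at hvA
              obtain ⟨k, hk, hkl, hk2⟩ := hvA
              have h4 := Finset.single_le_sum n0 (Finset.mem_erase.2 ⟨hkl, hk⟩)
              have h5 : ind ((μ l).2 ∈ F ∧ v ∈ F ∧
                  ¬ (Rp adj Has F (K.a k) v ↔ Rp adj Has F (K.a k) (μ l).2)) = 1 := by
                apply ind_of
                refine ⟨hls.2.1, hv, ?_⟩
                rcases hk2 with h | h <;> tauto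
              rw [h5] at h4
              have := ind_nonneg (v ∈ Al l)
              linarith
          · rw [ind_not hv]
            have := ind_nonneg (v ∈ Al l)
            linarith
        by_cases hG : K.G l c
        · rw [ind_of hG]
          simp only [one_mul]
          exact h3
        · rw [ind_not hG]
          simp only [zero_mul, Finset.sum_const_zero, add_zero]
          exact Finset.sum_nonneg fun v _ => (K.hb l c).nonneg v
      have h4 : K.dens l ≤ ∑ c, (K.w l c * (∑ v ∈ Al l, K.νb l c v) + ∑ k ∈ S.erase l,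
            K.w l c * (ind (K.G l c) * ∑ y', K.νb l c y' *
      ind ((μ l).2 ∈ F ∧ y' ∈ F ∧ ¬ (Rp adj Has F (K.a k) y' ↔
        Rp adj Has F (K.a k) (μ l).2)))) := Finset.sum_le_sum fun c _ => h2 c
      refine h4.trans ?_
      rw [Finset.sum_add_distrib, Finset.sum_comm]
      have h5 : ∀ k ∈ S.erase l, ∑ c, K.w l c * (ind (K.G l c) * ∑ y', K.νb l c y' *
          ind ((μ l).2 ∈ F ∧ y' ∈ F ∧ ¬ (Rp adj Has F (K.a k) y' ↔
            Rp adj Has F (K.a k) (μ l).2))) = K.inc k l (μ k) (μ l) := by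
        intro k hk
        have hks : K.strong κ₁ k μ := by
          have := Finset.mem_of_mem_erase hk
          simpa [hS] using this
        unfold inc
        rw [ind_of hks.1, ind_of hls.1, one_mul, one_mul]
      rw [Finset.sum_congr rfl h5]
      have h6 : ∑ k ∈ S.erase l, K.inc k l (μ k) (μ l) ≤
          ∑ k ∈ univ.erase l, K.inc k l (μ k) (μ l) := by
        apply Finset.sum_le_sum_of_subset_of_nonneg
        · exact Finset.erase_subset_erase _ (Finset.subset_univ _)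
        · intro k _ _; exact hinc k l
      linarith
    have h2 : ∑ k ∈ univ.erase l, K.inc k l (μ k) (μ l) < κ₁ / 4 := by
      refine lt_of_le_of_lt ?_ hB2
      have h3 : ∑ t, ∑ t' ∈ univ.erase t, K.inc t t' (μ t) (μ t') =
          ∑ t', ∑ t ∈ univ.erase t', K.inc t t' (μ t) (μ t') := by
        rw [Finset.sum_comm' (t' := univ) (s' := fun t' => univ.erase t')]
        intro x y
        simp only [Finset.mem_univ, Finset.mem_erase, true_and, and_true]
        tauto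
      rw [h3]
      exact Finset.single_le_sum (f := fun t' => ∑ t ∈ univ.erase t', K.inc t t' (μ t) (μ t'))
        (fun t' _ => Finset.sum_nonneg fun t _ => hinc t t') (Finset.mem_univ l)
    have h3 : |∑ c, K.w l c * (∑ v ∈ Al l, K.νb l c v) - ∑ v ∈ Al l, wb v| ≤ K.err wb l := by
      unfold err
      have h4 : F ∩ K.roots l ∈ (K.roots l).powerset :=
        Finset.mem_powerset.2 Finset.inter_subset_right
      have h5 := Finset.single_le_sum (f := fun H => ∑ S : Finset (Fin m), ∑ s : Finset (Fin m),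
        |∑ c, K.w l c * (∑ v ∈ K.Aset H S s l, K.νb l c v) - ∑ v ∈ K.Aset H S s l, wb v|)
        (fun H _ => Finset.sum_nonneg fun S _ => Finset.sum_nonneg fun s _ => abs_nonneg _) h4
      have h6 := Finset.single_le_sum (f := fun S => ∑ s : Finset (Fin m),
        |∑ c, K.w l c * (∑ v ∈ K.Aset (F ∩ K.roots l) S s l, K.νb l c v) -
          ∑ v ∈ K.Aset (F ∩ K.roots l) S s l, wb v|)
        (fun S _ => Finset.sum_nonneg fun s _ => abs_nonneg _) (Finset.mem_univ S)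
      have h7 := Finset.single_le_sum (f := fun s =>
        |∑ c, K.w l c * (∑ v ∈ K.Aset (F ∩ K.roots l) S s l, K.νb l c v) -
          ∑ v ∈ K.Aset (F ∩ K.roots l) S s l, wb v|)
        (fun s _ => abs_nonneg _) (Finset.mem_univ (sl l))
      exact h7.trans (h6.trans h5)
    have h4 : K.err wb l < κ₁ / 8 := by
      refine lt_of_le_of_lt ?_ hB3
      exact Finset.single_le_sum (f := fun l => K.err wb l) (fun l _ => herr l)
        (Finset.mem_univ l)
    have h5 := abs_le.1 h3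
    have h6 := hls.2.2
    linarith [h5.2]
  -- every vertex lies in at most two of the sets
  have htwo : ∀ v, ((S.filter (fun l => v ∈ Al l)).card : ℝ) ≤ 2 := by
    intro v
    have : (S.filter (fun l => v ∈ Al l)).card ≤ 2 := by
      by_contra hcon
      push Not at hcon
      obtain ⟨x, hx, y, hy, z, hz, hxy, hxz, hyz⟩ := Finset.two_lt_card.1 hcon
      rw [Finset.mem_filter, hAl] at hx hy hz
      have sx : K.strong κ₁ x μ := by simpa [hS] using hx.1
      have sy : K.strong κ₁ y μ := by simpa [hS] using hy.1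
      have sz : K.strong κ₁ z μ := by simpa [hS] using hz.1
      have a1 := anti x y hxy sx sy
      have a2 := anti x z hxz sx sz
      have a3 := anti y z hyz sy sz
      have b1 := hx.2 y hy.1 hxy.symm
      have b2 := hx.2 z hz.1 hxz.symm
      have b3 := hy.2 x hx.1 hxy
      have b4 := hy.2 z hz.1 hyz.symm
      have b5 := hz.2 x hx.1 hxz
      have b6 := hz.2 y hy.1 hyz
      rw [← b3, ← b1] at a1
      rw [← b5, ← b2] at a2
      rw [← b6, ← b4] at a3
      clear b1 b2 b3 b4 b5 b6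
      tauto
    exact_mod_cast this
  have hsum : ∑ l ∈ S, ∑ v ∈ Al l, wb v ≤ 2 := by
    calc ∑ l ∈ S, ∑ v ∈ Al l, wb v = ∑ l ∈ S, ∑ v, wb v * ind (v ∈ Al l) := by
          exact Finset.sum_congr rfl fun l _ => sum_mem_eq_ind _ _
      _ = ∑ v, wb v * ∑ l ∈ S, ind (v ∈ Al l) := by
          rw [Finset.sum_comm]
          exact Finset.sum_congr rfl fun v _ => by rw [Finset.mul_sum]
      _ ≤ 2 := by
          apply wavg_le wb0 wb1
          intro v
          have : ∑ l ∈ S, ind (v ∈ Al l) = ((S.filter (fun l => v ∈ Al l)).card : ℝ) := by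
            rw [Finset.card_filter]
            push_cast
            exact Finset.sum_congr rfl fun t _ => by unfold ind; congr
          rw [this]
          exact htwo v
  have hlow : (S.card : ℝ) * (κ₁ / 8) ≤ ∑ l ∈ S, ∑ v ∈ Al l, wb v := by
    rw [← nsmul_eq_mul]
    exact Finset.card_nsmul_le_sum _ _ _ hwb
  have hc : (S.card : ℝ) * κ₁ ≤ 16 := by linarith
  have hm' : 64 ≤ m * κ₁ ^ 2 := by
    rwa [div_le_iff₀ (by positivity)] at hm
  have hfin : (S.card : ℝ) ≤ m * κ₁ / 4 := by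
    have h1 : (S.card : ℝ) * κ₁ ≤ (m * κ₁ / 4) * κ₁ := by nlinarith
    exact le_of_mul_le_mul_right h1 hκ
  rw [hScard]
  have : 0 ≤ m * K.Bad κ₁ wb μ := mul_nonneg (Nat.cast_nonneg m) hBad0
  linarith

/-! ### Expectations -/

lemma EW_strong (κ₁ : ℝ) (hκ : 0 < κ₁) (t : Fin m) :
    K.dens t - κ₁ / 2 ≤ EW K.ker (fun μ => ind (K.strong κ₁ t μ)) := by
  classical
  have h1 : EW K.ker (fun μ => ind (K.strong κ₁ t μ)) =
      ∑ x, K.ker t x * ind (K.G t x.1 ∧ x.2 ∈ F ∧ κ₁ / 2 ≤ K.dens t) := by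
    exact EW_one K.ker1 t (fun x : C × V => ind (K.G t x.1 ∧ x.2 ∈ F ∧ κ₁ / 2 ≤ K.dens t))
  rw [h1, K.ker_sum t (fun c y => ind (K.G t c ∧ y ∈ F ∧ κ₁ / 2 ≤ K.dens t))]
  by_cases hd : κ₁ / 2 ≤ K.dens t
  · have h2 : ∑ c, K.w t c * ∑ y, K.νb t c y * ind (K.G t c ∧ y ∈ F ∧ κ₁ / 2 ≤ K.dens t) =
        K.dens t := by
      have h3 : ∀ y c, ind (K.G t c ∧ y ∈ F ∧ κ₁ / 2 ≤ K.dens t) =
          ind (K.G t c) * ind (y ∈ F) := by
        intro y c
        rw [← ind_and]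
        apply ind_congr
        tauto
      simp only [h3]
      unfold dens
      refine Finset.sum_congr rfl fun c _ => ?_
      congr 1
      rw [sum_mem_eq_ind _ F, Finset.mul_sum]
      refine Finset.sum_congr rfl fun y _ => ?_
      ring
    rw [h2]; linarith
  · have h3 : 0 ≤ ∑ c, K.w t c * ∑ y, K.νb t c y * ind (K.G t c ∧ y ∈ F ∧ κ₁ / 2 ≤ K.dens t) :=
      Finset.sum_nonneg fun c _ => mul_nonneg (K.w0 _ _) (Finset.sum_nonneg fun y _ =>
        mul_nonneg ((K.hb _ _).nonneg _) (ind_nonneg _))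
    linarith

lemma dr_swap (t t' : Fin m) :
    ∑ c, K.w t c * ∑ c', K.w t' c' *
      (ind (K.G t' c') * dropm adj Has F (K.a t') (K.e t' c') (K.νb t c)) = K.dr t' t := by
  unfold dr
  simp only [Finset.mul_sum]
  rw [Finset.sum_comm]
  exact Finset.sum_congr rfl fun z _ => Finset.sum_congr rfl fun y _ => by ring

lemma dropm_nonneg' (t t' : Fin m) (c c' : C) :
    0 ≤ dropm adj Has F (K.a t) (K.e t c) (K.νb t' c') :=
  dropm_nonneg (K.hb t' c').nonneg

lemma EW_bad1 (hT : IsTour adj) (hE : ¬ Has ∅) (hP : ¬ Pat adj Has F) (hε : 0 ≤ ε)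
    {t t' : Fin m} (htt : t ≠ t') :
    EW K.ker (fun μ => K.bad1 t t' (μ t) (μ t')) ≤ 5 * ε + K.dr t t' + K.dr t' t := by
  classical
  have h1 := EW_two K.ker1 htt (fun x x' => K.bad1 t t' x x')
  rw [h1]
  have h2 : ∀ x : C × V, ∑ x' : C × V, K.ker t' x' * K.bad1 t t' x x' =
      ∑ c', K.w t' c' * ∑ y', K.νb t' c' y' * (ind (K.G t x.1) * ind (K.G t' c') *
        ind (y' ∈ F ∧ x.2 ∈ F ∧ (Rp adj Has F (K.a t) y' ↔ Rp adj Has F (K.a t') x.2))) := by
    intro x
    exact K.ker_sum t' (fun c' y' => ind (K.G t x.1) * ind (K.G t' c') *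
        ind (y' ∈ F ∧ x.2 ∈ F ∧ (Rp adj Has F (K.a t) y' ↔ Rp adj Has F (K.a t') x.2)))
  simp only [h2]
  rw [K.ker_sum t (fun c y => ∑ c', K.w t' c' * ∑ y', K.νb t' c' y' *
    (ind (K.G t c) * ind (K.G t' c') *
        ind (y' ∈ F ∧ y ∈ F ∧ (Rp adj Has F (K.a t) y' ↔ Rp adj Has F (K.a t') y))))]
  have h3 : ∀ c, ∑ y, K.νb t c y * ∑ c', K.w t' c' * ∑ y', K.νb t' c' y' *
    (ind (K.G t c) * ind (K.G t' c') *
        ind (y' ∈ F ∧ y ∈ F ∧ (Rp adj Has F (K.a t) y' ↔ Rp adj Has F (K.a t') y))) =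
      ∑ c', K.w t' c' * (ind (K.G t c) * ind (K.G t' c') * ∑ y', K.νb t' c' y' *
        ∑ y, K.νb t c y *
        ind (y' ∈ F ∧ y ∈ F ∧ (Rp adj Has F (K.a t) y' ↔ Rp adj Has F (K.a t') y))) := by
    intro c
    simp only [Finset.mul_sum]
    rw [Finset.sum_comm]
    refine Finset.sum_congr rfl fun c' _ => ?_
    rw [Finset.sum_comm]
    exact Finset.sum_congr rfl fun z _ => Finset.sum_congr rfl fun y _ => by ring
  simp only [h3]
  have h4 : ∀ c c', ind (K.G t c) * ind (K.G t' c') * ∑ y', K.νb t' c' y' *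
        ∑ y, K.νb t c y *
        ind (y' ∈ F ∧ y ∈ F ∧ (Rp adj Has F (K.a t) y' ↔ Rp adj Has F (K.a t') y)) ≤
      5 * ε + ind (K.G t c) * dropm adj Has F (K.a t) (K.e t c) (K.νb t' c') +
        ind (K.G t' c') * dropm adj Has F (K.a t') (K.e t' c') (K.νb t c) := by
    intro c c'
    have n1 := K.dropm_nonneg' t t' c c'
    have n2 := K.dropm_nonneg' t' t c' c
    by_cases hG : K.G t c
    · by_cases hG' : K.G t' c'
      · rw [ind_of hG, ind_of hG']
        simp only [one_mul]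
        exact phi1 hT hE hP (K.ha t) (K.hb t c) (K.ha t') (K.hb t' c') (K.ga t c hG)
          (K.ga t' c' hG') (K.hab t c) (K.hbe t c) (K.hab t' c') (K.hbe t' c')
      · rw [ind_not hG']
        have := mul_nonneg (ind_nonneg (K.G t c)) n1
        simp only [mul_zero, zero_mul, add_zero]
        linarith
    · rw [ind_not hG]
      have := mul_nonneg (ind_nonneg (K.G t' c')) n2
      simp only [zero_mul, add_zero]
      linarith
  calc ∑ c, K.w t c * ∑ c', K.w t' c' * (ind (K.G t c) * ind (K.G t' c') *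
        ∑ y', K.νb t' c' y' * ∑ y, K.νb t c y *
        ind (y' ∈ F ∧ y ∈ F ∧ (Rp adj Has F (K.a t) y' ↔ Rp adj Has F (K.a t') y)))
      ≤ ∑ c, K.w t c * ∑ c', K.w t' c' * (5 * ε +
        ind (K.G t c) * dropm adj Has F (K.a t) (K.e t c) (K.νb t' c') +
        ind (K.G t' c') * dropm adj Has F (K.a t') (K.e t' c') (K.νb t c)) :=
        wavg_mono (K.w0 t) fun c => wavg_mono (K.w0 t') fun c' => h4 c c'
    _ = 5 * ε + K.dr t t' + K.dr t' t := by
        rw [← K.dr_swap t t']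
        unfold dr
        simp only [mul_add, Finset.sum_add_distrib]
        congr 2
        rw [← Finset.sum_mul, K.w1, one_mul, ← Finset.sum_mul, K.w1, one_mul]

lemma EW_inc (hT : IsTour adj) (hE : ¬ Has ∅) (hP : ¬ Pat adj Has F) (hε : 0 ≤ ε)
    (hδ : 0 < δ) (hεδ : 12 * ε ≤ δ) {t t' : Fin m} (htt : t ≠ t') :
    EW K.ker (fun μ => K.inc t t' (μ t) (μ t')) ≤
      2 * K.dr t t' + 8 / δ * (ε + K.dr t' t) := by
  classical
  have h1 := EW_two K.ker1 htt (fun x x' => K.inc t t' x x')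
  rw [h1]
  -- rewrite as sums over columns and vertices
  have h2 : ∀ x : C × V, ∑ x' : C × V, K.ker t' x' * K.inc t t' x x' =
      ∑ c₁, K.w t' c₁ * ∑ y, K.νb t' c₁ y * (ind (K.G t x.1) * ind (K.G t' c₁) *
    ∑ c', K.w t' c' * (ind (K.G t' c') * ∑ y', K.νb t' c' y' *
      ind (y ∈ F ∧ y' ∈ F ∧ ¬ (Rp adj Has F (K.a t) y' ↔ Rp adj Has F (K.a t) y)))) := by
    intro x
    exact K.ker_sum t' (fun c₁ y => ind (K.G t x.1) * ind (K.G t' c₁) *
    ∑ c', K.w t' c' * (ind (K.G t' c') * ∑ y', K.νb t' c' y' *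
      ind (y ∈ F ∧ y' ∈ F ∧ ¬ (Rp adj Has F (K.a t) y' ↔ Rp adj Has F (K.a t) y))))
  simp only [h2]
  rw [K.ker_sum t (fun c _ => ∑ c₁, K.w t' c₁ * ∑ y, K.νb t' c₁ y *
    (ind (K.G t c) * ind (K.G t' c₁) *
    ∑ c', K.w t' c' * (ind (K.G t' c') * ∑ y', K.νb t' c' y' *
      ind (y ∈ F ∧ y' ∈ F ∧ ¬ (Rp adj Has F (K.a t) y' ↔ Rp adj Has F (K.a t) y)))))]
  have h3 : ∀ c, ∑ y₀, K.νb t c y₀ * ∑ c₁, K.w t' c₁ * ∑ y, K.νb t' c₁ y *
    (ind (K.G t c) * ind (K.G t' c₁) *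
    ∑ c', K.w t' c' * (ind (K.G t' c') * ∑ y', K.νb t' c' y' *
      ind (y ∈ F ∧ y' ∈ F ∧ ¬ (Rp adj Has F (K.a t) y' ↔ Rp adj Has F (K.a t) y)))) =
      ∑ c₁, K.w t' c₁ * ∑ c', K.w t' c' * (ind (K.G t c) * ind (K.G t' c₁) * ind (K.G t' c') *
        ∑ y, K.νb t' c₁ y * ∑ y', K.νb t' c' y' *
      ind (y ∈ F ∧ y' ∈ F ∧ ¬ (Rp adj Has F (K.a t) y' ↔ Rp adj Has F (K.a t) y))) := by
    intro c
    rw [← Finset.sum_mul, (K.hb t c).sum_one, one_mul]
    refine Finset.sum_congr rfl fun c₁ _ => ?_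
    congr 1
    simp only [Finset.mul_sum]
    rw [Finset.sum_comm]
    exact Finset.sum_congr rfl fun z _ => Finset.sum_congr rfl fun y _ =>
      Finset.sum_congr rfl fun y' _ => by ring
  simp only [h3]
  have hφ : ∀ c c₁ c', K.G t c → K.G t' c₁ → K.G t' c' →
      ∑ y, K.νb t' c₁ y * ∑ y', K.νb t' c' y' *
        ind (y ∈ F ∧ y' ∈ F ∧ Rp adj Has F (K.a t) y ∧ ¬ Rp adj Has F (K.a t) y') ≤
      dropm adj Has F (K.a t) (K.e t c) (K.νb t' c₁) +
        4 / δ * (ε + dropm adj Has F (K.a t') (K.e t' c₁) (K.νb t c)) := by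
    intro c c₁ c' hG hG₁ hG'
    exact phi2 hT hE hP hδ hεδ (K.ha t) (K.hb t c) (K.ha t') (K.hb t' c₁) (K.hb t' c')
      (K.ga t c hG) (K.ga t' c₁ hG₁) (K.gb t c hG) (K.hab t c) (K.hbe t c) (K.hbe t' c₁)
      (K.hab t' c')
  have h4 : ∀ c c₁ c', ind (K.G t c) * ind (K.G t' c₁) * ind (K.G t' c') *
        ∑ y, K.νb t' c₁ y * ∑ y', K.νb t' c' y' *
      ind (y ∈ F ∧ y' ∈ F ∧ ¬ (Rp adj Has F (K.a t) y' ↔ Rp adj Has F (K.a t) y)) ≤
      ind (K.G t c) * dropm adj Has F (K.a t) (K.e t c) (K.νb t' c₁) +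
      4 / δ * (ε + ind (K.G t' c₁) * dropm adj Has F (K.a t') (K.e t' c₁) (K.νb t c)) +
      (ind (K.G t c) * dropm adj Has F (K.a t) (K.e t c) (K.νb t' c') +
      4 / δ * (ε + ind (K.G t' c') * dropm adj Has F (K.a t') (K.e t' c') (K.νb t c))) := by
    intro c c₁ c'
    have n1 := mul_nonneg (ind_nonneg (K.G t c)) (K.dropm_nonneg' t t' c c₁)
    have n2 := mul_nonneg (ind_nonneg (K.G t' c₁)) (K.dropm_nonneg' t' t c₁ c)
    have n3 := mul_nonneg (ind_nonneg (K.G t c)) (K.dropm_nonneg' t t' c c')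
    have n4 := mul_nonneg (ind_nonneg (K.G t' c')) (K.dropm_nonneg' t' t c' c)
    have hk : 0 < 4 / δ := by positivity
    have n5 := mul_nonneg hk.le (add_nonneg hε n2)
    have n6 := mul_nonneg hk.le (add_nonneg hε n4)
    by_cases hG : K.G t c ∧ K.G t' c₁ ∧ K.G t' c'
    · obtain ⟨hG, hG₁, hG'⟩ := hG
      rw [ind_of hG, ind_of hG₁, ind_of hG']
      simp only [one_mul]
      have a1 := hφ c c₁ c' hG hG₁ hG'
      have a2 := hφ c c' c₁ hG hG' hG₁
      have a3 : ∑ y, K.νb t' c₁ y * ∑ y', K.νb t' c' y' *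
          ind (y ∈ F ∧ y' ∈ F ∧ ¬ (Rp adj Has F (K.a t) y' ↔ Rp adj Has F (K.a t) y)) ≤
          ∑ y, K.νb t' c₁ y * ∑ y', K.νb t' c' y' *
            ind (y ∈ F ∧ y' ∈ F ∧ Rp adj Has F (K.a t) y ∧ ¬ Rp adj Has F (K.a t) y') +
          ∑ y', K.νb t' c' y' * ∑ y, K.νb t' c₁ y *
            ind (y' ∈ F ∧ y ∈ F ∧ Rp adj Has F (K.a t) y' ∧ ¬ Rp adj Has F (K.a t) y) := by
        have sw : ∑ y', K.νb t' c' y' * ∑ y, K.νb t' c₁ y *
            ind (y' ∈ F ∧ y ∈ F ∧ Rp adj Has F (K.a t) y' ∧ ¬ Rp adj Has F (K.a t) y) =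
            ∑ y, K.νb t' c₁ y * ∑ y', K.νb t' c' y' *
            ind (y' ∈ F ∧ y ∈ F ∧ Rp adj Has F (K.a t) y' ∧ ¬ Rp adj Has F (K.a t) y) := by
          simp only [Finset.mul_sum]
          rw [Finset.sum_comm]
          exact Finset.sum_congr rfl fun z _ => Finset.sum_congr rfl fun y _ => by ring
        rw [sw, ← Finset.sum_add_distrib]
        apply Finset.sum_le_sum
        intro y _
        rw [← mul_add, ← Finset.sum_add_distrib]
        apply mul_le_mul_of_nonneg_left _ ((K.hb t' c₁).nonneg y)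
        apply Finset.sum_le_sum
        intro y' _
        rw [← mul_add]
        apply mul_le_mul_of_nonneg_left _ ((K.hb t' c').nonneg y')
        by_cases h : y ∈ F ∧ y' ∈ F ∧ ¬ (Rp adj Has F (K.a t) y' ↔ Rp adj Has F (K.a t) y)
        · rw [ind_of h]
          obtain ⟨hy, hy', hne⟩ := h
          by_cases hR : Rp adj Has F (K.a t) y
          · have hR' : ¬ Rp adj Has F (K.a t) y' := by tauto
            have e1 : ind (y ∈ F ∧ y' ∈ F ∧ Rp adj Has F (K.a t) y ∧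
              ¬ Rp adj Has F (K.a t) y') = 1 := ind_of ⟨hy, hy', hR, hR'⟩
            have := ind_nonneg (y' ∈ F ∧ y ∈ F ∧ Rp adj Has F (K.a t) y' ∧
              ¬ Rp adj Has F (K.a t) y)
            linarith
          · have hR' : Rp adj Has F (K.a t) y' := by
              by_contra h9
              exact hne ⟨fun h => absurd h h9, fun h => absurd h hR⟩
            have e1 : ind (y' ∈ F ∧ y ∈ F ∧ Rp adj Has F (K.a t) y' ∧
              ¬ Rp adj Has F (K.a t) y) = 1 := ind_of ⟨hy', hy, hR', hR⟩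
            have := ind_nonneg (y ∈ F ∧ y' ∈ F ∧ Rp adj Has F (K.a t) y ∧
              ¬ Rp adj Has F (K.a t) y')
            linarith
        · rw [ind_not h]
          exact add_nonneg (ind_nonneg _) (ind_nonneg _)
      linarith
    · have h0 : ind (K.G t c) * ind (K.G t' c₁) * ind (K.G t' c') = 0 := by
        rw [← ind_and, ← ind_and]
        apply ind_not
        tauto
      rw [h0, zero_mul]
      linarith
  calc ∑ c, K.w t c * ∑ c₁, K.w t' c₁ * ∑ c', K.w t' c' *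
        (ind (K.G t c) * ind (K.G t' c₁) * ind (K.G t' c') *
        ∑ y, K.νb t' c₁ y * ∑ y', K.νb t' c' y' *
      ind (y ∈ F ∧ y' ∈ F ∧ ¬ (Rp adj Has F (K.a t) y' ↔ Rp adj Has F (K.a t) y)))
      ≤ ∑ c, K.w t c * ∑ c₁, K.w t' c₁ * ∑ c', K.w t' c' *
      (ind (K.G t c) * dropm adj Has F (K.a t) (K.e t c) (K.νb t' c₁) +
      4 / δ * (ε + ind (K.G t' c₁) * dropm adj Has F (K.a t') (K.e t' c₁) (K.νb t c)) +
      (ind (K.G t c) * dropm adj Has F (K.a t) (K.e t c) (K.νb t' c') +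
      4 / δ * (ε + ind (K.G t' c') * dropm adj Has F (K.a t') (K.e t' c') (K.νb t c)))) :=
        wavg_mono (K.w0 t) fun c => wavg_mono (K.w0 t') fun c₁ =>
          wavg_mono (K.w0 t') fun c' => h4 c c₁ c'
    _ = 2 * K.dr t t' + 8 / δ * (ε + K.dr t' t) := by
        have e1 : ∀ c, ∑ c₁, K.w t' c₁ * ∑ c', K.w t' c' *
            (ind (K.G t c) * dropm adj Has F (K.a t) (K.e t c) (K.νb t' c₁) +
            4 / δ * (ε + ind (K.G t' c₁) * dropm adj Has F (K.a t') (K.e t' c₁) (K.νb t c)) +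
            (ind (K.G t c) * dropm adj Has F (K.a t) (K.e t c) (K.νb t' c') +
            4 / δ * (ε + ind (K.G t' c') * dropm adj Has F (K.a t') (K.e t' c') (K.νb t c)))) =
            2 * ∑ c', K.w t' c' *
              (ind (K.G t c) * dropm adj Has F (K.a t) (K.e t c) (K.νb t' c')) +
            8 / δ * (ε + ∑ c', K.w t' c' *
              (ind (K.G t' c') * dropm adj Has F (K.a t') (K.e t' c') (K.νb t c))) := by
          intro c
          have g1 : ∀ f : C → ℝ, ∑ c₁, K.w t' c₁ * ∑ c', K.w t' c' * (f c₁ + f c') =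
              2 * ∑ c', K.w t' c' * f c' := by
            intro f
            simp only [mul_add, Finset.sum_add_distrib]
            have : ∀ c₁, ∑ c', K.w t' c' * f c₁ = f c₁ := fun c₁ => by
              rw [← Finset.sum_mul, K.w1, one_mul]
            simp only [this]
            rw [← Finset.sum_mul, K.w1, one_mul]
            ring
          rw [g1 (fun c' => ind (K.G t c) * dropm adj Has F (K.a t) (K.e t c) (K.νb t' c') +
            4 / δ * (ε + ind (K.G t' c') * dropm adj Has F (K.a t') (K.e t' c') (K.νb t c)))]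
          simp only [mul_add, Finset.sum_add_distrib]
          rw [← Finset.sum_mul, K.w1, one_mul]
          have : ∀ c', K.w t' c' * (4 / δ * (ind (K.G t' c') *
              dropm adj Has F (K.a t') (K.e t' c') (K.νb t c))) =
              4 / δ * (K.w t' c' * (ind (K.G t' c') *
              dropm adj Has F (K.a t') (K.e t' c') (K.νb t c))) := fun c' => by ring
          simp only [this]
          rw [← Finset.mul_sum]
          ring
        simp only [e1]
        rw [← K.dr_swap t t']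
        unfold dr
        simp only [mul_add, Finset.sum_add_distrib]
        rw [← Finset.sum_mul, K.w1, one_mul]
        have r1 : ∀ c, K.w t c * (2 * ∑ c', K.w t' c' *
              (ind (K.G t c) * dropm adj Has F (K.a t) (K.e t c) (K.νb t' c'))) =
              2 * (K.w t c * ∑ c', K.w t' c' *
              (ind (K.G t c) * dropm adj Has F (K.a t) (K.e t c) (K.νb t' c'))) :=
          fun c => by ring
        have r2 : ∀ c, K.w t c * (8 / δ * ∑ c', K.w t' c' *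
              (ind (K.G t' c') * dropm adj Has F (K.a t') (K.e t' c') (K.νb t c))) =
              8 / δ * (K.w t c * ∑ c', K.w t' c' *
              (ind (K.G t' c') * dropm adj Has F (K.a t') (K.e t' c') (K.νb t c))) :=
          fun c => by ring
        simp only [r1, r2]
        rw [← Finset.mul_sum, ← Finset.mul_sum]

/-- The inequality for one outcome `(α, ω)`. -/
theorem core_ineq (hT : IsTour adj) (hE : ¬ Has ∅) (hP : ¬ Pat adj Has F) (hε : 0 ≤ ε)
    (hδ : 0 < δ) (hεδ : 12 * ε ≤ δ) {κ₁ : ℝ} (hκ : 0 < κ₁) (hm : 64 / κ₁ ^ 2 ≤ m)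
    (wb : V → ℝ) (wb0 : ∀ v, 0 ≤ wb v) (wb1 : ∑ v, wb v = 1) :
    ∑ t, K.dens t ≤ 3 / 4 * (m * κ₁) + m * (
      ∑ t, ∑ t' ∈ univ.erase t, (5 * ε + K.dr t t' + K.dr t' t) +
      4 / κ₁ * ∑ t, ∑ t' ∈ univ.erase t, (2 * K.dr t t' + 8 / δ * (ε + K.dr t' t)) +
      8 / κ₁ * ∑ l, K.err wb l) := by
  classical
  have h1 : EW K.ker (fun μ => ∑ t, ind (K.strong κ₁ t μ)) ≤
      EW K.ker (fun μ => m * κ₁ / 4 + m * K.Bad κ₁ wb μ) :=
    EW_mono K.ker0 fun μ => K.strong_card hκ hm wb wb0 wb1 μ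
  have h2 : ∑ t, K.dens t - m * κ₁ / 2 ≤ EW K.ker (fun μ => ∑ t, ind (K.strong κ₁ t μ)) := by
    rw [EW_sum]
    calc ∑ t, K.dens t - m * κ₁ / 2 = ∑ t, (K.dens t - κ₁ / 2) := by
          rw [Finset.sum_sub_distrib]; simp; ring
      _ ≤ _ := Finset.sum_le_sum fun t _ => K.EW_strong κ₁ hκ t
  have h3 : EW K.ker (fun μ => m * κ₁ / 4 + m * K.Bad κ₁ wb μ) =
      m * κ₁ / 4 + m * (∑ t, ∑ t' ∈ univ.erase t, EW K.ker (fun μ => K.bad1 t t' (μ t) (μ t')) +
        4 / κ₁ * ∑ t, ∑ t' ∈ univ.erase t, EW K.ker (fun μ => K.inc t t' (μ t) (μ t')) +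
        8 / κ₁ * ∑ l, K.err wb l) := by
    rw [EW_add, EW_const K.ker1, EW_mul_left]
    unfold Bad
    rw [EW_add, EW_add, EW_const K.ker1, EW_mul_left, EW_sum, EW_sum]
    simp only [EW_sum]
  have h4 : ∑ t, ∑ t' ∈ univ.erase t, EW K.ker (fun μ => K.bad1 t t' (μ t) (μ t')) ≤
      ∑ t, ∑ t' ∈ univ.erase t, (5 * ε + K.dr t t' + K.dr t' t) :=
    Finset.sum_le_sum fun t _ => Finset.sum_le_sum fun t' ht' =>
      K.EW_bad1 hT hE hP hε (Finset.ne_of_mem_erase ht').symm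
  have h5 : ∑ t, ∑ t' ∈ univ.erase t, EW K.ker (fun μ => K.inc t t' (μ t) (μ t')) ≤
      ∑ t, ∑ t' ∈ univ.erase t, (2 * K.dr t t' + 8 / δ * (ε + K.dr t' t)) :=
    Finset.sum_le_sum fun t _ => Finset.sum_le_sum fun t' ht' =>
      K.EW_inc hT hE hP hε hδ hεδ (Finset.ne_of_mem_erase ht').symm
  rw [h3] at h1
  have h6 : 4 / κ₁ * ∑ t, ∑ t' ∈ univ.erase t, EW K.ker (fun μ => K.inc t t' (μ t) (μ t')) ≤
      4 / κ₁ * ∑ t, ∑ t' ∈ univ.erase t, (2 * K.dr t t' + 8 / δ * (ε + K.dr t' t)) :=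
    mul_le_mul_of_nonneg_left h5 (by positivity)
  have h7 : (m : ℝ) * (∑ t, ∑ t' ∈ univ.erase t, EW K.ker (fun μ => K.bad1 t t' (μ t) (μ t')) +
        4 / κ₁ * ∑ t, ∑ t' ∈ univ.erase t, EW K.ker (fun μ => K.inc t t' (μ t) (μ t')) +
        8 / κ₁ * ∑ l, K.err wb l) ≤ m * (
      ∑ t, ∑ t' ∈ univ.erase t, (5 * ε + K.dr t t' + K.dr t' t) +
      4 / κ₁ * ∑ t, ∑ t' ∈ univ.erase t, (2 * K.dr t t' + 8 / δ * (ε + K.dr t' t)) +
      8 / κ₁ * ∑ l, K.err wb l) := by
    apply mul_le_mul_of_nonneg_left _ (Nat.cast_nonneg m)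
    linarith
  linarith

end Cols

end Pool.Agent.Hhelper10.Dom
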