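import Mathlib

/-!
# Domination in tournaments: the tournaments `S_t` are rebels (MP_f4fe70_co)

Basic definitions.  `Has A` is a monotone property of vertex sets (such as: `A` contains a copy of a given tournament),
`Pat adj Has F` says that `F` contains the pattern `Δ(1, Has, Has)`.
-/

set_option autoImplicit false

open Finset

namespace Pool.Agent.Hhelper10.Dom

section Defs

variable {V : Type} [Fintype V] [DecidableEq V]

/-- `adj` is a tournament. -/
def IsTour (adj : V → V → Prop) : Prop :=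
  (∀ u, ¬ adj u u) ∧ ∀ u v, u ≠ v → (adj u v ↔ ¬ adj v u)

/-- `F` contains `y ⇒ A ⇒ B ⇒ y` with `Has A`, `Has B`. -/
def Pat (adj : V → V → Prop) (Has : Finset V → Prop) (F : Finset V) : Prop :=
  ∃ y ∈ F, ∃ A B : Finset V, A ⊆ F ∧ B ⊆ F ∧ Has A ∧ Has B ∧ (∀ a ∈ A, adj y a) ∧
    (∀ a ∈ A, ∀ b ∈ B, adj a b) ∧ ∀ b ∈ B, adj b y

/-- `(Q, ν)` is a heavy set: every set without `Has` and every singleton has small measure. -/
structure Heavy (Has : Finset V → Prop) (ε : ℝ) (M : ℕ) (Q : Finset V) (ν : V → ℝ) : Prop where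
  card : Q.card ≤ M
  nonneg : ∀ v, 0 ≤ ν v
  supp : ∀ v, v ∉ Q → ν v = 0
  sum_one : ∑ v, ν v = 1
  small : ∀ A : Finset V, (¬ Has A ∨ A.card ≤ 1) → ∑ v ∈ A, ν v ≤ ε

open Classical in
/-- in-neighbours of `y` in `S` -/
noncomputable def inn (adj : V → V → Prop) (y : V) (S : Finset V) : Finset V :=
  S.filter (fun z => adj z y)

open Classical in
/-- out-neighbours of `y` in `S` -/
noncomputable def out (adj : V → V → Prop) (y : V) (S : Finset V) : Finset V :=
  S.filter (fun z => adj y z)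

/-- `y` is beaten by a `Has`-set of `F ∩ q`, or lies in `q`. -/
def Rp (adj : V → V → Prop) (Has : Finset V → Prop) (F q : Finset V) (y : V) : Prop :=
  y ∈ q ∨ Has (inn adj y (F ∩ q))

/-- `y` beats a `Has`-set of `F ∩ q`. -/
def Lp (adj : V → V → Prop) (Has : Finset V → Prop) (F q : Finset V) (y : V) : Prop :=
  Has (out adj y (F ∩ q))

/-- splice two paths at level `i` -/
def splice {D N : ℕ} (i : ℕ) (α τ : Fin D → Fin N) : Fin D → Fin N :=
  fun k => if (k : ℕ) < i then α k else τ k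

/-- average over all paths -/
noncomputable def pavg {D N : ℕ} (g : (Fin D → Fin N) → ℝ) : ℝ :=
  (∑ π, g π) / (N : ℝ) ^ D

end Defs

/-- A stationary tree system.  `Ω` is a finite probability space (weights `p`) of `N`-ary trees with
levels `0, …, D`; `st ω ℓ π` is the state of the node at level `ℓ` on the path `π`; `Q x`, `nu x` is
the heavy set carried by the state `x`; the law of the state of any node is `lam` (this enters
through `lln`); nodes completely beat their descendants. -/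
structure TreeSys (V : Type) [Fintype V] [DecidableEq V] (adj : V → V → Prop)
    (Has : Finset V → Prop) (ε : ℝ) (M' : ℕ) (U : Finset V) (D N : ℕ) (θ : ℝ) where
  T : Type
  [fT : Fintype T]
  lam : T → ℝ
  lam_nonneg : ∀ x, 0 ≤ lam x
  lam_sum : ∑ x, lam x = 1
  Q : T → Finset V
  nu : T → V → ℝ
  heavy : ∀ x, Heavy Has ε M' (Q x) (nu x)
  QU : ∀ x, Q x ⊆ U
  Ω : Type
  [fΩ : Fintype Ω]
  p : Ω → ℝ
  p_nonneg : ∀ ω, 0 ≤ p ω
  p_sum : ∑ ω, p ω = 1
  st : Ω → ℕ → (Fin D → Fin N) → T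
  st_prefix : ∀ (ω : Ω) (ℓ : ℕ) (π π' : Fin D → Fin N),
    (∀ k : Fin D, (k : ℕ) < ℓ → π k = π' k) → st ω ℓ π = st ω ℓ π'
  dom : ∀ (ω : Ω) (ℓ ℓ' : ℕ) (π : Fin D → Fin N), ℓ < ℓ' → ℓ' ≤ D →
    ∀ x ∈ Q (st ω ℓ π), ∀ y ∈ Q (st ω ℓ' π), adj x y
  lln : ∀ (h : T → ℝ), (∀ x, 0 ≤ h x) → (∀ x, h x ≤ 1) → ∀ i j : ℕ, i < j → j ≤ D →
    ∀ α : Fin D → Fin N,
      ∑ ω, p ω * |pavg (fun τ => h (st ω j (splice i α τ))) - ∑ x, lam x * h x| ≤ θ

attribute [instance] TreeSys.fT TreeSys.fΩ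

end Pool.Agent.Hhelper10.Dom
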