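import Pool.Agent.Hhelper10.Dom.SysDefs

/-! Module E (MP_f4fe70_co): the sum of the drops over the groups is at most `1` plus an error. -/

set_option autoImplicit false
set_option linter.unusedSectionVars false

open Finset

namespace Pool.Agent.Hhelper10.Dom

namespace TreeSys

variable {V : Type} [Fintype V] [DecidableEq V] {adj : V → V → Prop} {Has : Finset V → Prop}
  {ε : ℝ} {M' : ℕ} {U : Finset V} {D N : ℕ} {θ : ℝ}
  (S : TreeSys V adj Has ε M' U D N θ) {m : ℕ} (F : (Fin m → S.Ω) → Finset V) (δ : ℝ)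

/-- the state `x` is good for the set `H` -/
def gs (H : Finset V) (x : S.T) : Prop := δ / 2 ≤ ∑ v ∈ H, S.nu x v

open Classical in
/-- the vertices which drop out between the levels `i` and `l` of the branch `s` (seen through
`H`) -/
noncomputable def dA (s : ℕ → S.T) (i l : ℕ) (H : Finset V) : Finset V :=
  univ.filter (fun y => S.gs δ H (s i) ∧ S.gs δ H (s l) ∧ Rp adj Has H (S.Q (s i)) y ∧
    ∀ ℓ, l ≤ ℓ → ℓ ≤ D → S.gs δ H (s ℓ) → ¬ Rp adj Has H (S.Q (s ℓ)) y)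

/-- the union of the heavy sets of the levels `1, …, D` of the branch `s` -/
noncomputable def dP (s : ℕ → S.T) : Finset V := (Finset.Icc 1 D).biUnion (fun ℓ => S.Q (s ℓ))

lemma dP_card (s : ℕ → S.T) : (S.dP s).card ≤ M' * D := by
  unfold dP
  refine le_trans Finset.card_biUnion_le ?_
  refine le_trans (Finset.sum_le_sum (g := fun _ => M') fun ℓ _ => (S.heavy (s ℓ)).card) ?_
  rw [Finset.sum_const, Nat.card_Icc, smul_eq_mul]
  rw [Nat.add_sub_cancel, mul_comm]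

lemma dP_sub (s : ℕ → S.T) {ℓ : ℕ} (h1 : 1 ≤ ℓ) (h2 : ℓ ≤ D) : S.Q (s ℓ) ⊆ S.dP s :=
  Finset.subset_biUnion_of_mem (fun ℓ => S.Q (s ℓ)) (Finset.mem_Icc.2 ⟨h1, h2⟩)

lemma inter_inter_of_sub {H P q : Finset V} (h : q ⊆ P) : (H ∩ P) ∩ q = H ∩ q := by
  rw [Finset.inter_assoc, Finset.inter_eq_right.2 h]

lemma gs_inter {H P : Finset V} {x : S.T} (h : S.Q x ⊆ P) :
    S.gs δ (H ∩ P) x ↔ S.gs δ H x := by
  unfold gs
  rw [(S.heavy x).sum_inter (H ∩ P), (S.heavy x).sum_inter H, inter_inter_of_sub h]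

lemma Rp_inter {H P : Finset V} {x : S.T} (h : S.Q x ⊆ P) (y : V) :
    Rp adj Has (H ∩ P) (S.Q x) y ↔ Rp adj Has H (S.Q x) y := by
  unfold Rp
  rw [inter_inter_of_sub h]

lemma dA_inter (s : ℕ → S.T) {i l : ℕ} (hi : 1 ≤ i) (hil : i < l) (hl : l ≤ D) (H : Finset V) :
    S.dA δ s i l (H ∩ S.dP s) = S.dA δ s i l H := by
  classical
  unfold dA
  ext y
  simp only [Finset.mem_filter, Finset.mem_univ, true_and]
  rw [S.gs_inter δ (S.dP_sub s hi (by omega)), S.gs_inter δ (S.dP_sub s (by omega) hl),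
    S.Rp_inter (S.dP_sub s hi (by omega))]
  have : (∀ ℓ, l ≤ ℓ → ℓ ≤ D → S.gs δ (H ∩ S.dP s) (s ℓ) →
      ¬ Rp adj Has (H ∩ S.dP s) (S.Q (s ℓ)) y) ↔
      (∀ ℓ, l ≤ ℓ → ℓ ≤ D → S.gs δ H (s ℓ) → ¬ Rp adj Has H (S.Q (s ℓ)) y) := by
    refine forall_congr' fun ℓ => forall_congr' fun h1 => forall_congr' fun h2 => ?_
    rw [S.gs_inter δ (S.dP_sub s (by omega) h2), S.Rp_inter (S.dP_sub s (by omega) h2)]
  rw [this]

/-- the sets of different groups are disjoint -/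
lemma dA_disj (s : ℕ → S.T) {i l i' l' : ℕ} (h1 : l ≤ i') (h2 : i' ≤ D) (H : Finset V) :
    Disjoint (S.dA δ s i l H) (S.dA δ s i' l' H) := by
  classical
  rw [Finset.disjoint_left]
  intro y hy hy'
  unfold dA at hy hy'
  simp only [Finset.mem_filter, Finset.mem_univ, true_and] at hy hy'
  exact hy.2.2.2 i' h1 h2 hy'.1 hy'.2.2.1

/-- the mixture of all the weights -/
noncomputable def wbar (v : V) : ℝ := ∑ x, S.lam x * S.nu x v

lemma wbar_nonneg (v : V) : 0 ≤ S.wbar v :=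
  Finset.sum_nonneg fun x _ => mul_nonneg (S.lam_nonneg x) ((S.heavy x).nonneg v)

lemma wbar_sum : ∑ v, S.wbar v = 1 := by
  unfold wbar
  rw [Finset.sum_comm]
  simp only [← Finset.mul_sum, (S.heavy _).sum_one, mul_one]
  exact S.lam_sum

lemma lam_sum_eq (A : Finset V) : ∑ x, S.lam x * ∑ v ∈ A, S.nu x v = ∑ v ∈ A, S.wbar v := by
  unfold wbar
  simp only [Finset.mul_sum]
  rw [Finset.sum_comm]

lemma nu_sum_nonneg (x : S.T) (A : Finset V) : 0 ≤ ∑ v ∈ A, S.nu x v :=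
  Finset.sum_nonneg fun v _ => (S.heavy x).nonneg v

lemma nu_sum_le_one (x : S.T) (A : Finset V) : ∑ v ∈ A, S.nu x v ≤ 1 := by
  rw [← (S.heavy x).sum_one]
  exact Finset.sum_le_sum_of_subset_of_nonneg (Finset.subset_univ A)
    fun v _ _ => (S.heavy x).nonneg v

/-- the pointwise bound for the drop -/
lemma drop_le (hT : IsTour adj) (hE : ¬ Has ∅) {G : Finset V} (hP : ¬ Pat adj Has G)
    (hδ : 0 < δ) (hεδ : 12 * ε ≤ δ) (s : ℕ → S.T) {i l : ℕ}
    (hdom : ∀ ℓ ℓ', ℓ < ℓ' → ℓ' ≤ D → ∀ x ∈ S.Q (s ℓ), ∀ y ∈ S.Q (s ℓ'), adj x y)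
    (x : S.T) :
    ind (S.gs δ G (s i) ∧ S.gs δ G (s l)) * dropm adj Has G (S.Q (s i)) (S.Q (s l)) (S.nu x) ≤
      ∑ v ∈ S.dA δ s i l G, S.nu x v := by
  classical
  by_cases h : S.gs δ G (s i) ∧ S.gs δ G (s l)
  · rw [ind_of h, one_mul, sum_mem_eq_ind]
    unfold dropm
    refine Finset.sum_le_sum fun y _ => ?_
    refine mul_le_mul_of_nonneg_left (ind_mono ?_) ((S.heavy x).nonneg y)
    rintro ⟨hy, h1, h2⟩
    unfold dA
    simp only [Finset.mem_filter, Finset.mem_univ, true_and]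
    refine ⟨h.1, h.2, h1, fun ℓ hl hlD _ hR => h2 ?_⟩
    rcases hl.eq_or_lt with rfl | hlt
    · exact hR
    · refine R_up hT hE (S.heavy (s l)) ?_ hP (hdom l ℓ hlt hlD) hy hR
      have := h.2
      unfold gs at this
      linarith
  · rw [ind_not h, zero_mul]
    exact S.nu_sum_nonneg x _

lemma lv_lt {B r α β γ : ℕ} (hD : B * r ≤ D) (hαβ : α < β) (hβγ : β < γ) (hγ : γ < r)
    (g : Fin B) : 1 ≤ lv r g α ∧ lv r g α < lv r g β ∧ lv r g β < lv r g γ ∧ lv r g γ ≤ D := by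
  unfold lv
  have h1 : ((g : ℕ) + 1) * r ≤ B * r := Nat.mul_le_mul_right r g.2
  have h2 : ((g : ℕ) + 1) * r = (g : ℕ) * r + r := by ring
  refine ⟨by omega, by omega, by omega, by omega⟩

lemma lv_sep {B r α γ : ℕ} (hγ : γ < r) {g g' : Fin B} (h : g < g') :
    lv r g γ ≤ lv r g' α := by
  unfold lv
  have h1 : ((g : ℕ) + 1) * r ≤ (g' : ℕ) * r := Nat.mul_le_mul_right r h
  have h2 : ((g : ℕ) + 1) * r = (g : ℕ) * r + r := by ring
  omega

/-- the main parts sum to at most `1` -/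
lemma sum_dA_le (s : ℕ → S.T) (H : Finset V) {B r : ℕ} (hD : B * r ≤ D)
    {α β γ : ℕ} (hαβ : α < β) (hβγ : β < γ) (hγ : γ < r) :
    ∑ g : Fin B, ∑ v ∈ S.dA δ s (lv r g α) (lv r g γ) H, S.wbar v ≤ 1 := by
  classical
  rw [← Finset.sum_biUnion]
  · rw [← S.wbar_sum]
    exact Finset.sum_le_sum_of_subset_of_nonneg (Finset.subset_univ _)
      fun v _ _ => S.wbar_nonneg v
  · intro g _ g' _ hne
    rcases lt_or_gt_of_ne hne with h | h
    · refine S.dA_disj δ s (lv_sep hγ h) ?_ H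
      have := lv_lt (D := D) hD hαβ hβγ hγ g'
      omega
    · refine (S.dA_disj δ s (lv_sep hγ h) ?_ H).symm
      have := lv_lt (D := D) hD hαβ hβγ hγ g
      omega

theorem drop_sum (hT : IsTour adj) (hE : ¬ Has ∅) (hP : ∀ ω, ¬ Pat adj Has (F ω))
    (hδ : 0 < δ) (hεδ : 12 * ε ≤ δ) (hN : 0 < N) (hθ : 0 ≤ θ) (B r : ℕ) (hD : B * r ≤ D)
    {α β γ : ℕ} (hαβ : α < β) (hβγ : β < γ) (hγ : γ < r) {t t' : Fin m} (htt : t ≠ t') :
    ∑ g : Fin B, S.Dr F δ (lv r g α) (lv r g β) (lv r g γ) t t' ≤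
      1 + B * 2 ^ (M' * D) * θ := by
  classical
  -- the branch of `ω t` along `π`
  set br : S.Ω → (Fin D → Fin N) → ℕ → S.T := fun w π ℓ => S.st w ℓ π with hbr
  -- the error of `g`, `H`, for the branch `s` and the tree `w'`
  set er : (ℕ → S.T) → S.Ω → Fin B → Finset V → ℝ := fun s w' g H =>
    |pavg (fun ρ => ∑ v ∈ S.dA δ s (lv r g α) (lv r g γ) H, S.nu (S.st w' (lv r g β) ρ) v) -
      ∑ x, S.lam x * ∑ v ∈ S.dA δ s (lv r g α) (lv r g γ) H, S.nu x v| with her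
  have er_nonneg : ∀ s w' g H, 0 ≤ er s w' g H := fun s w' g H => abs_nonneg _
  have hp0 : ∀ (_ : Fin m) (x : S.Ω), 0 ≤ S.p x := fun _ x => S.p_nonneg x
  have hp1 : ∀ (_ : Fin m), ∑ x, S.p x = 1 := fun _ => S.p_sum
  -- pointwise bound in `ω` and `π`
  have pt : ∀ (ω : Fin m → S.Ω) (π : Fin D → Fin N),
      ∑ g : Fin B, pavg (fun ρ =>
        ind (S.gd F δ ω t (lv r g α) π ∧ S.gd F δ ω t (lv r g γ) π) *
        dropm adj Has (F ω) (S.Q (S.st (ω t) (lv r g α) π)) (S.Q (S.st (ω t) (lv r g γ) π))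
          (S.nu (S.st (ω t') (lv r g β) ρ))) ≤
      1 + ∑ g : Fin B, ∑ H ∈ (S.dP (br (ω t) π)).powerset, er (br (ω t) π) (ω t') g H := by
    intro ω π
    set s : ℕ → S.T := br (ω t) π with hs
    set H0 : Finset V := F ω ∩ S.dP s with hH0
    have hH0mem : H0 ∈ (S.dP s).powerset := by
      rw [Finset.mem_powerset]; exact Finset.inter_subset_right
    have h1 : ∀ g : Fin B, pavg (fun ρ =>
        ind (S.gd F δ ω t (lv r g α) π ∧ S.gd F δ ω t (lv r g γ) π) *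
        dropm adj Has (F ω) (S.Q (S.st (ω t) (lv r g α) π)) (S.Q (S.st (ω t) (lv r g γ) π))
          (S.nu (S.st (ω t') (lv r g β) ρ))) ≤
        ∑ v ∈ S.dA δ s (lv r g α) (lv r g γ) H0, S.wbar v + er s (ω t') g H0 := by
      intro g
      obtain ⟨l1, l2, l3, l4⟩ := lv_lt (D := D) hD hαβ hβγ hγ g
      have h2 : pavg (fun ρ =>
          ind (S.gd F δ ω t (lv r g α) π ∧ S.gd F δ ω t (lv r g γ) π) *
          dropm adj Has (F ω) (S.Q (S.st (ω t) (lv r g α) π)) (S.Q (S.st (ω t) (lv r g γ) π))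
            (S.nu (S.st (ω t') (lv r g β) ρ))) ≤
          pavg (fun ρ => ∑ v ∈ S.dA δ s (lv r g α) (lv r g γ) H0,
            S.nu (S.st (ω t') (lv r g β) ρ) v) := by
        apply pavg_mono
        intro ρ
        rw [hH0, S.dA_inter δ s l1 (l2.trans l3) l4]
        exact S.drop_le δ hT hE (hP ω) hδ hεδ s
          (fun ℓ ℓ' h h' => S.dom (ω t) ℓ ℓ' π h h') _
      have h3 : pavg (fun ρ => ∑ v ∈ S.dA δ s (lv r g α) (lv r g γ) H0,
            S.nu (S.st (ω t') (lv r g β) ρ) v) ≤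
          ∑ x, S.lam x * ∑ v ∈ S.dA δ s (lv r g α) (lv r g γ) H0, S.nu x v +
            er s (ω t') g H0 := by
        have := le_abs_self (pavg (fun ρ => ∑ v ∈ S.dA δ s (lv r g α) (lv r g γ) H0,
            S.nu (S.st (ω t') (lv r g β) ρ) v) -
          ∑ x, S.lam x * ∑ v ∈ S.dA δ s (lv r g α) (lv r g γ) H0, S.nu x v)
        simp only [her]
        linarith
      rw [S.lam_sum_eq] at h3
      exact h2.trans h3
    refine le_trans (Finset.sum_le_sum fun g _ => h1 g) ?_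
    rw [Finset.sum_add_distrib]
    refine add_le_add (S.sum_dA_le δ s H0 hD hαβ hβγ hγ) ?_
    exact Finset.sum_le_sum fun g _ =>
      Finset.single_le_sum (f := fun H => er s (ω t') g H) (fun H _ => er_nonneg s (ω t') g H)
        hH0mem
  -- sum the definition
  have e1 : ∑ g : Fin B, S.Dr F δ (lv r g α) (lv r g β) (lv r g γ) t t' =
      S.EX (fun ω => pavg (fun π => ∑ g : Fin B, pavg (fun ρ =>
        ind (S.gd F δ ω t (lv r g α) π ∧ S.gd F δ ω t (lv r g γ) π) *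
        dropm adj Has (F ω) (S.Q (S.st (ω t) (lv r g α) π)) (S.Q (S.st (ω t) (lv r g γ) π))
          (S.nu (S.st (ω t') (lv r g β) ρ))))) := by
    unfold Dr EX
    rw [← EW_sum]
    congr 1
    funext ω
    rw [← pavg_sum]
  rw [e1]
  have e2 : S.EX (fun ω => pavg (fun π => ∑ g : Fin B, pavg (fun ρ =>
        ind (S.gd F δ ω t (lv r g α) π ∧ S.gd F δ ω t (lv r g γ) π) *
        dropm adj Has (F ω) (S.Q (S.st (ω t) (lv r g α) π)) (S.Q (S.st (ω t) (lv r g γ) π))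
          (S.nu (S.st (ω t') (lv r g β) ρ))))) ≤
      S.EX (fun ω : Fin m → S.Ω => pavg (fun π => 1 +
        ∑ g : Fin B, ∑ H ∈ (S.dP (br (ω t) π)).powerset, er (br (ω t) π) (ω t') g H)) := by
    unfold EX
    exact EW_mono hp0 fun ω => pavg_mono fun π => pt ω π
  refine e2.trans ?_
  -- resample the tree `t'`
  unfold EX
  rw [EW_resample t' S.p_sum]
  refine le_trans (EW_mono (g := fun _ => 1 + B * 2 ^ (M' * D) * θ) hp0 fun ω => ?_)
    (le_of_eq (EW_const hp1 _))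
  simp only [Function.update_self, Function.update_of_ne htt]
  -- fixed `ω`
  have bound : ∀ π : Fin D → Fin N,
      ∑ x, S.p x * ∑ g : Fin B, ∑ H ∈ (S.dP (br (ω t) π)).powerset, er (br (ω t) π) x g H ≤
        B * 2 ^ (M' * D) * θ := by
    intro π
    set s : ℕ → S.T := br (ω t) π with hs
    have h1 : ∑ x, S.p x * ∑ g : Fin B, ∑ H ∈ (S.dP s).powerset, er s x g H =
        ∑ g : Fin B, ∑ H ∈ (S.dP s).powerset, ∑ x, S.p x * er s x g H := by
      simp only [Finset.mul_sum]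
      rw [Finset.sum_comm]
      refine Finset.sum_congr rfl fun g _ => ?_
      rw [Finset.sum_comm]
    rw [h1]
    have h2 : ∀ (g : Fin B) (H : Finset V), ∑ x, S.p x * er s x g H ≤ θ := by
      intro g H
      obtain ⟨l1, l2, l3, l4⟩ := lv_lt (D := D) hD hαβ hβγ hγ g
      have h3 := S.lln (fun x => ∑ v ∈ S.dA δ s (lv r g α) (lv r g γ) H, S.nu x v)
        (fun x => S.nu_sum_nonneg x _) (fun x => S.nu_sum_le_one x _) 0 (lv r g β) (by omega)
        (by omega) π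
      have h4 : ∀ τ : Fin D → Fin N, splice 0 π τ = τ := by
        intro τ; funext k; simp [splice]
      simp only [h4] at h3
      exact h3
    have h5 : ((S.dP s).powerset.card : ℝ) ≤ 2 ^ (M' * D) := by
      rw [Finset.card_powerset]
      have := Nat.pow_le_pow_right (n := 2) (by norm_num) (S.dP_card s)
      calc (((2 ^ (S.dP s).card : ℕ)) : ℝ) ≤ ((2 ^ (M' * D) : ℕ) : ℝ) := by exact_mod_cast this
        _ = 2 ^ (M' * D) := by push_cast; rfl
    calc ∑ g : Fin B, ∑ H ∈ (S.dP s).powerset, ∑ x, S.p x * er s x g H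
        ≤ ∑ g : Fin B, ∑ H ∈ (S.dP s).powerset, θ :=
          Finset.sum_le_sum fun g _ => Finset.sum_le_sum fun H _ => h2 g H
      _ = B * (((S.dP s).powerset.card : ℝ) * θ) := by
          simp only [Finset.sum_const, nsmul_eq_mul, Finset.card_univ, Fintype.card_fin]
      _ ≤ B * (2 ^ (M' * D) * θ) := by
          apply mul_le_mul_of_nonneg_left _ (Nat.cast_nonneg B)
          exact mul_le_mul_of_nonneg_right h5 hθ
      _ = B * 2 ^ (M' * D) * θ := by ring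
  have h6 : ∑ x, S.p x * pavg (fun π => 1 +
      ∑ g : Fin B, ∑ H ∈ (S.dP (br (ω t) π)).powerset, er (br (ω t) π) x g H) =
      pavg (fun π => ∑ x, S.p x * (1 +
      ∑ g : Fin B, ∑ H ∈ (S.dP (br (ω t) π)).powerset, er (br (ω t) π) x g H)) := by
    rw [pavg_sum]
    refine Finset.sum_congr rfl fun x _ => ?_
    rw [pavg_mul_left]
  rw [h6]
  refine le_trans (pavg_mono (g := fun _ => 1 + B * 2 ^ (M' * D) * θ) fun π => ?_)
    (le_of_eq (pavg_const hN _))
  simp only [mul_add, mul_one, Finset.sum_add_distrib, S.p_sum]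
  have := bound π
  linarith

end TreeSys

end Pool.Agent.Hhelper10.Dom
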