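import Pool.Agent.Hhelper10.Dom.Core

/-! The tournaments `S_t` are rebels (MP_f4fe70_co). -/

set_option autoImplicit false
set_option linter.unusedSectionVars false

open Finset

namespace Pool.Agent.Hhelper10.Dom

/-- `Y` induces a copy of `S_(k+1)`. -/
def Copy {V : Type} [DecidableEq V] (adj : V → V → Prop) (k : ℕ) : Finset V → Prop :=
  Nat.rec (motive := fun _ => Finset V → Prop)
    (fun Y => Y.card = 1)
    (fun _ Q Y => ∃ A B : Finset V, ∃ c : V,
      Disjoint A B ∧ c ∉ A ∧ c ∉ B ∧ Y = insert c (A ∪ B) ∧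
      Q A ∧ Q B ∧
      (∀ a ∈ A, ∀ b ∈ B, adj a b) ∧
      (∀ b ∈ B, adj b c) ∧
      (∀ a ∈ A, adj c a)) k

/-- `A` contains a copy of `S_(k+1)`. -/
def HasS {V : Type} [DecidableEq V] (adj : V → V → Prop) (k : ℕ) (A : Finset V) : Prop :=
  ∃ Y, Y ⊆ A ∧ Copy adj k Y

lemma copy_nonempty {V : Type} [DecidableEq V] {adj : V → V → Prop} {k : ℕ} {Y : Finset V}
    (h : Copy adj k Y) : Y.Nonempty := by
  cases k with
  | zero =>
    have : Y.card = 1 := h
    exact Finset.card_pos.1 (by omega)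
  | succ k =>
    obtain ⟨A, B, c, _, _, _, rfl, _⟩ := h
    exact ⟨c, Finset.mem_insert_self _ _⟩

lemma not_hasS_empty {V : Type} [DecidableEq V] (adj : V → V → Prop) (k : ℕ) :
    ¬ HasS adj k ∅ := by
  rintro ⟨Y, hY, hc⟩
  obtain ⟨v, hv⟩ := copy_nonempty hc
  exact absurd (hY hv) (Finset.notMem_empty v)

lemma pat_hasS {V : Type} [DecidableEq V] {adj : V → V → Prop}
    (hirr : ∀ u, ¬ adj u u) {k : ℕ} {F : Finset V}
    (h : Pat adj (HasS adj k) F) : HasS adj (k + 1) F := by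
  obtain ⟨y, hy, A, B, hA, hB, ⟨Y₁, hY₁, c₁⟩, ⟨Y₂, hY₂, c₂⟩, h1, h2, h3⟩ := h
  refine ⟨insert y (Y₁ ∪ Y₂), ?_, Y₁, Y₂, y, ?_, ?_, ?_, rfl, c₁, c₂, ?_, ?_, ?_⟩
  · intro v hv
    rcases Finset.mem_insert.1 hv with rfl | hv
    · exact hy
    · rcases Finset.mem_union.1 hv with hv | hv
      · exact hA (hY₁ hv)
      · exact hB (hY₂ hv)
  · rw [Finset.disjoint_left]
    intro a ha hb
    exact hirr a (h2 a (hY₁ ha) a (hY₂ hb))
  · intro hy1
    exact hirr y (h1 y (hY₁ hy1))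
  · intro hy2
    exact hirr y (h3 y (hY₂ hy2))
  · intro a ha b hb
    exact h2 a (hY₁ ha) b (hY₂ hb)
  · intro b hb
    exact h3 b (hY₂ hb)
  · intro a ha
    exact h1 a (hY₁ ha)

/-- no set of fewer than `K` vertices of `U` dominates `U` -/
def RichOn {V : Type} (adj : V → V → Prop) (U : Finset V) (K : ℕ) : Prop :=
  ∀ D : Finset V, D ⊆ U → D.card < K → ∃ v ∈ U, v ∉ D ∧ ∀ d ∈ D, adj v d

/-- rich sets contain heavy sets of bounded size -/
def HeavyOn (k : ℕ) : Prop :=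
  ∀ ε : ℝ, 0 < ε → ∃ K M : ℕ, ∀ (V : Type) [Fintype V] [DecidableEq V] (adj : V → V → Prop)
    (U : Finset V), IsTour adj → RichOn adj U K →
    ∃ (Q : Finset V) (ν : V → ℝ), Q ⊆ U ∧ Heavy (HasS adj k) ε M Q ν

theorem heavyOn_zero : HeavyOn 0 := by
  classical
  intro ε hε
  obtain ⟨K, hK⟩ : ∃ K : ℕ, 1 / ε ≤ K := exists_nat_ge _
  have hK0 : (0 : ℝ) < K := lt_of_lt_of_le (by positivity) hK
  refine ⟨K, K, ?_⟩
  intro V _ _ adj U hT hU
  have hcard : K ≤ U.card := by
    by_contra h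
    push Not at h
    obtain ⟨v, hv, hv', _⟩ := hU U (Finset.Subset.refl U) h
    exact hv' hv
  obtain ⟨Q, hQU, hQ⟩ := Finset.exists_subset_card_eq hcard
  refine ⟨Q, fun v => if v ∈ Q then 1 / (K : ℝ) else 0, hQU, hQ.le, ?_, ?_, ?_, ?_⟩
  · intro v
    split_ifs
    · positivity
    · exact le_rfl
  · intro v hv
    simp [hv]
  · rw [Finset.sum_ite_mem, Finset.univ_inter, Finset.sum_const, hQ, nsmul_eq_mul]
    field_simp
  · intro A hA
    have hA1 : A.card ≤ 1 := by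
      rcases hA with h | h
      · by_contra h1
        push Not at h1
        obtain ⟨v, hv⟩ := Finset.card_pos.1 (by omega : 0 < A.card)
        exact h ⟨{v}, by simpa using hv, Finset.card_singleton v⟩
      · exact h
    have h1 : ∀ v ∈ A, (if v ∈ Q then 1 / (K : ℝ) else 0) ≤ 1 / K := by
      intro v _
      split_ifs
      · exact le_rfl
      · positivity
    calc ∑ v ∈ A, (if v ∈ Q then 1 / (K : ℝ) else 0) ≤ A.card • (1 / (K : ℝ)) :=
          Finset.sum_le_card_nsmul _ _ _ h1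
      _ = A.card * (1 / (K : ℝ)) := by rw [nsmul_eq_mul]
      _ ≤ 1 * (1 / (K : ℝ)) := by
          apply mul_le_mul_of_nonneg_right _ (by positivity)
          exact_mod_cast hA1
      _ ≤ ε := by
          rw [one_mul, div_le_iff₀ hK0]
          rw [div_le_iff₀ hε] at hK
          linarith

theorem heavyOn_succ (k : ℕ) (ih : HeavyOn k) : HeavyOn (k + 1) := by
  classical
  intro δ hδ
  obtain ⟨ε, hε, hcore⟩ := core δ hδ
  obtain ⟨K, M', hK⟩ := ih ε hε
  obtain ⟨K₀, M, hM⟩ := hcore M'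
  refine ⟨K + K₀ + 1, M, ?_⟩
  intro V _ _ adj U hT hU
  obtain ⟨Z, ν, hZ, hH⟩ := hM V adj (HasS adj k) U hT (not_hasS_empty adj k) (by
    intro X hX hXc
    have hrich : RichOn adj (U.filter (fun v => ∀ x ∈ X, adj v x)) K := by
      intro D hD hDc
      have hDU : D ∪ X ⊆ U := by
        apply Finset.union_subset _ hX
        exact hD.trans (Finset.filter_subset _ _)
      have hDXc : (D ∪ X).card < K + K₀ + 1 := by
        have := Finset.card_union_le D X
        omega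
      obtain ⟨v, hv, hv', hvd⟩ := hU (D ∪ X) hDU hDXc
      refine ⟨v, ?_, ?_, ?_⟩
      · rw [Finset.mem_filter]
        exact ⟨hv, fun x hx => hvd x (Finset.mem_union_right _ hx)⟩
      · intro h; exact hv' (Finset.mem_union_left _ h)
      · intro d hd; exact hvd d (Finset.mem_union_left _ hd)
    obtain ⟨Q, ν, hQ, hH⟩ := hK V adj _ hT hrich
    refine ⟨Q, ν, hH, hQ.trans (Finset.filter_subset _ _), ?_⟩
    intro q hq x hx
    exact (Finset.mem_filter.1 (hQ hq)).2 x hx)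
  refine ⟨Z, ν, hZ, hH.card, hH.nonneg, hH.supp, hH.sum_one, ?_⟩
  intro A hA
  apply hH.small
  rcases hA with hA | hA
  · left
    intro hP
    exact hA (pat_hasS hT.1 hP)
  · right; exact hA

theorem heavyOn (k : ℕ) : HeavyOn k := by
  induction k with
  | zero => exact heavyOn_zero
  | succ k ih => exact heavyOn_succ k ih

theorem main (k : ℕ) : ∃ K : ℕ, 1 ≤ K ∧ ∀ (V : Type) [Fintype V] [DecidableEq V]
    (adj : V → V → Prop), IsTour adj →
      (∀ D : Finset V, D.card < K → ∃ v, v ∉ D ∧ ∀ d ∈ D, ¬ adj d v) →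
      ∃ X : Finset V, Copy adj k X := by
  classical
  obtain ⟨K, M, hK⟩ := heavyOn k (1 / 2) (by norm_num)
  refine ⟨K + 1, by omega, ?_⟩
  intro V _ _ adj hT hD
  obtain ⟨Q, ν, _, hQ⟩ := hK V adj univ hT (by
    intro D _ hDc
    obtain ⟨v, hv, hvd⟩ := hD D (by omega)
    refine ⟨v, Finset.mem_univ v, hv, ?_⟩
    intro d hd
    have hne : v ≠ d := by rintro rfl; exact hv hd
    exact (hT.2 v d hne).2 (hvd d hd))
  by_cases hH : HasS adj k Q
  · obtain ⟨X, _, hX⟩ := hH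
    exact ⟨X, hX⟩
  · exfalso
    have h1 := hQ.small Q (Or.inl hH)
    have h2 : ∑ v ∈ Q, ν v = 1 := by
      rw [← hQ.sum_one]
      apply Finset.sum_subset (Finset.subset_univ Q)
      intro v _ hv
      exact hQ.supp v hv
    linarith

end Pool.Agent.Hhelper10.Dom
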