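import Pool.Agent.Hhelper10.Dom.Drop

/-! Module F (MP_f4fe70_co): choice of three levels. -/

set_option autoImplicit false
set_option linter.unusedSectionVars false

open Finset

namespace Pool.Agent.Hhelper10.Dom

/-- increasing triples -/
def Trip (r : ℕ) : Finset (Fin r × Fin r × Fin r) :=
  univ.filter (fun x => x.1 < x.2.1 ∧ x.2.1 < x.2.2)

lemma mem_Trip {r : ℕ} {x : Fin r × Fin r × Fin r} :
    x ∈ Trip r ↔ x.1 < x.2.1 ∧ x.2.1 < x.2.2 := by
  simp [Trip]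

lemma card_Trip_le (r : ℕ) : ((Trip r).card : ℝ) ≤ (r : ℝ) ^ 3 := by
  have h : (Trip r).card ≤ r ^ 3 := by
    calc (Trip r).card ≤ (univ : Finset (Fin r × Fin r × Fin r)).card := card_le_card (filter_subset _ _)
      _ = r * (r * r) := by simp
      _ = r ^ 3 := by ring
  exact_mod_cast h

/-- among `r` levels, either at most two are good or there is a good triple -/
lemma sum_ind_le_trip {r : ℕ} (p : Fin r → Prop) :
    ∑ s, ind (p s) ≤ 2 + r * ∑ x ∈ Trip r, ind (p x.1 ∧ p x.2.1 ∧ p x.2.2) := by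
  classical
  have hs : ∑ s, ind (p s) = ((univ.filter p).card : ℝ) := by
    rw [Finset.card_filter]
    push_cast
    refine Finset.sum_congr rfl fun s _ => ?_
    by_cases h : p s <;> simp [ind, h]
  have hnn : 0 ≤ ∑ x ∈ Trip r, ind (p x.1 ∧ p x.2.1 ∧ p x.2.2) :=
    Finset.sum_nonneg fun x _ => ind_nonneg _
  rw [hs]
  by_cases hc : (univ.filter p).card ≤ 2
  · have h1 : ((univ.filter p).card : ℝ) ≤ 2 := by exact_mod_cast hc
    have h2 : 0 ≤ (r : ℝ) * ∑ x ∈ Trip r, ind (p x.1 ∧ p x.2.1 ∧ p x.2.2) :=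
      mul_nonneg (Nat.cast_nonneg _) hnn
    linarith
  · have hc3 : 3 ≤ (univ.filter p).card := by omega
    have hf := fun i : Fin 3 => Finset.orderEmbOfCardLe_mem (univ.filter p) hc3 i
    set f := (univ.filter p).orderEmbOfCardLe hc3 with hfdef
    have hx : (f 0, f 1, f 2) ∈ Trip r := by
      rw [mem_Trip]
      exact ⟨f.strictMono (by decide), f.strictMono (by decide)⟩
    have hp : ∀ i : Fin 3, p (f i) := fun i => (Finset.mem_filter.1 (hf i)).2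
    have h1 : (1 : ℝ) ≤ ∑ x ∈ Trip r, ind (p x.1 ∧ p x.2.1 ∧ p x.2.2) := by
      calc (1 : ℝ) = ind (p (f 0, f 1, f 2).1 ∧ p (f 0, f 1, f 2).2.1 ∧ p (f 0, f 1, f 2).2.2) :=
            (ind_of ⟨hp 0, hp 1, hp 2⟩).symm
        _ ≤ _ := Finset.single_le_sum
            (f := fun x : Fin r × Fin r × Fin r => ind (p x.1 ∧ p x.2.1 ∧ p x.2.2))
            (fun x _ => ind_nonneg _) hx
    have h2 : ((univ.filter p).card : ℝ) ≤ r := by
      have : (univ.filter p).card ≤ r := by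
        calc (univ.filter p).card ≤ (univ : Finset (Fin r)).card := card_le_card (filter_subset _ _)
          _ = r := by simp
      exact_mod_cast this
    have h3 : (r : ℝ) * 1 ≤ r * ∑ x ∈ Trip r, ind (p x.1 ∧ p x.2.1 ∧ p x.2.2) :=
      mul_le_mul_of_nonneg_left h1 (Nat.cast_nonneg _)
    linarith

namespace TreeSys

variable {V : Type} [Fintype V] [DecidableEq V] {adj : V → V → Prop} {Has : Finset V → Prop}
  {ε : ℝ} {M' : ℕ} {U : Finset V} {D N : ℕ} {θ : ℝ}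
  (S : TreeSys V adj Has ε M' U D N θ) {m : ℕ} (F : (Fin m → S.Ω) → Finset V) (δ : ℝ)

lemma EX_mono {f g : (Fin m → S.Ω) → ℝ} (h : ∀ ω, f ω ≤ g ω) : S.EX f ≤ S.EX g :=
  EW_mono (fun _ => S.p_nonneg) h

lemma EX_const (c : ℝ) : S.EX (fun _ : Fin m → S.Ω => c) = c :=
  EW_const (fun _ => S.p_sum) c

lemma EX_sum {ι : Type} (s : Finset ι) (f : ι → (Fin m → S.Ω) → ℝ) :
    S.EX (fun ω => ∑ i ∈ s, f i ω) = ∑ i ∈ s, S.EX (f i) :=
  EW_sum s f

lemma Dr_nonneg (i j l : ℕ) (t t' : Fin m) : 0 ≤ S.Dr F δ i j l t t' :=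
  EW_nonneg (fun _ => S.p_nonneg) fun _ => pavg_nonneg fun _ => pavg_nonneg fun _ =>
    mul_nonneg (ind_nonneg _) (dropm_nonneg (S.heavy _).nonneg)

lemma Wt_le (hN : 0 < N) (i j l : ℕ) : S.Wt F δ i j l ≤ m := by
  calc S.Wt F δ i j l ≤ S.EX (fun _ : Fin m → S.Ω => ((m : ℕ) : ℝ)) := by
        refine S.EX_mono fun ω => ?_
        calc ∑ t : Fin m, pavg (fun π => ind (S.gd F δ ω t i π ∧ S.gd F δ ω t j π ∧ S.gd F δ ω t l π))
            ≤ ∑ _t : Fin m, (1 : ℝ) := by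
              refine Finset.sum_le_sum fun t _ => ?_
              calc _ ≤ pavg (fun _ : Fin D → Fin N => (1 : ℝ)) := pavg_mono fun π => ind_le_one _
                _ = 1 := pavg_const hN 1
          _ = m := by simp
    _ = m := S.EX_const _

lemma mass_le (ω : Fin m → S.Ω) (t : Fin m) (ℓ : ℕ) (π : Fin D → Fin N) (hδ : 0 < δ) :
    ∑ v ∈ F ω, S.nu (S.st (ω t) ℓ π) v ≤ ind (S.gd F δ ω t ℓ π) + δ / 2 := by
  by_cases h : S.gd F δ ω t ℓ π
  · rw [ind_of h]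
    have hh := S.heavy (S.st (ω t) ℓ π)
    calc ∑ v ∈ F ω, S.nu (S.st (ω t) ℓ π) v ≤ ∑ v, S.nu (S.st (ω t) ℓ π) v :=
          Finset.sum_le_sum_of_subset_of_nonneg (subset_univ _) fun v _ _ => hh.nonneg v
      _ = 1 := hh.sum_one
      _ ≤ 1 + δ / 2 := by linarith
  · rw [ind_not h]
    unfold gd at h
    linarith

theorem exists_levels (hT : IsTour adj) (hE : ¬ Has ∅) (hP : ∀ ω, ¬ Pat adj Has (F ω))
    (hδ : 0 < δ) (hεδ : 12 * ε ≤ δ) (hN : 0 < N) (hm : 0 < m) (B r : ℕ) (hD : B * r ≤ D)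
    (hθ : 0 ≤ θ) (hθ1 : B * 2 ^ (M' * D) * θ ≤ 1) (hr : 12 / δ ≤ r)
    {η : ℝ} (hη : 0 < η) (hB : 16 * (m : ℝ) ^ 2 * (r : ℝ) ^ 3 / (η * δ) ≤ B) (hB0 : 0 < B)
    (hcov : ∀ ω : Fin m → S.Ω, δ * (m * B * r) ≤ ∑ t, ∑ g : Fin B, ∑ s : Fin r,
      pavg (fun π => ∑ v ∈ F ω, S.nu (S.st (ω t) (lv r g s) π) v)) :
    ∃ i j l : ℕ, i < j ∧ j < l ∧ l ≤ D ∧
      δ / (8 * (r : ℝ) ^ 3) * m ≤ S.Wt F δ i j l ∧
      ∑ t, ∑ t' ∈ univ.erase t, S.Dr F δ i j l t t' ≤ η := by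
  classical
  have hr0 : (0 : ℝ) < r := lt_of_lt_of_le (by positivity) hr
  have hm0 : (0 : ℝ) < m := by exact_mod_cast hm
  have hB0' : (0 : ℝ) < B := by exact_mod_cast hB0
  -- good triples of one tree in one group
  set W : (Fin m → S.Ω) → Fin m → Fin B → (Fin r × Fin r × Fin r) → ℝ := fun ω t g x =>
    pavg (fun π => ind (S.gd F δ ω t (lv r g x.1) π ∧ S.gd F δ ω t (lv r g x.2.1) π ∧
      S.gd F δ ω t (lv r g x.2.2) π)) with hW
  have h1 : ∀ ω t (g : Fin B), ∑ s : Fin r, pavg (fun π => ind (S.gd F δ ω t (lv r g s) π)) ≤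
      2 + r * ∑ x ∈ Trip r, W ω t g x := by
    intro ω t g
    rw [← pavg_sum]
    calc pavg (fun π => ∑ s : Fin r, ind (S.gd F δ ω t (lv r g s) π))
        ≤ pavg (fun π => 2 + r * ∑ x ∈ Trip r, ind (S.gd F δ ω t (lv r g x.1) π ∧
            S.gd F δ ω t (lv r g x.2.1) π ∧ S.gd F δ ω t (lv r g x.2.2) π)) :=
          pavg_mono fun π => sum_ind_le_trip (fun s : Fin r => S.gd F δ ω t (lv r g s) π)
      _ = 2 + r * ∑ x ∈ Trip r, W ω t g x := by
          rw [pavg_add, pavg_const hN, pavg_mul_left, pavg_sum]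
  have h2 : ∀ ω : Fin m → S.Ω, δ / 3 * (m * B) ≤ ∑ t, ∑ g : Fin B, ∑ x ∈ Trip r, W ω t g x := by
    intro ω
    have e1 : ∑ t : Fin m, ∑ g : Fin B, ∑ s : Fin r,
        pavg (fun π => ∑ v ∈ F ω, S.nu (S.st (ω t) (lv r g s) π) v) ≤
        ∑ t : Fin m, ∑ g : Fin B, (2 + r * ∑ x ∈ Trip r, W ω t g x + r * (δ / 2)) := by
      refine Finset.sum_le_sum fun t _ => Finset.sum_le_sum fun g _ => ?_
      calc ∑ s : Fin r, pavg (fun π => ∑ v ∈ F ω, S.nu (S.st (ω t) (lv r g s) π) v)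
          ≤ ∑ s : Fin r, (pavg (fun π => ind (S.gd F δ ω t (lv r g s) π)) + δ / 2) := by
            refine Finset.sum_le_sum fun s _ => ?_
            calc _ ≤ pavg (fun π => ind (S.gd F δ ω t (lv r g s) π) + δ / 2) :=
                  pavg_mono fun π => S.mass_le F δ ω t _ π hδ
              _ = _ := by rw [pavg_add, pavg_const hN]
        _ = ∑ s : Fin r, pavg (fun π => ind (S.gd F δ ω t (lv r g s) π)) + r * (δ / 2) := by
            rw [Finset.sum_add_distrib]; simp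
        _ ≤ _ := by linarith [h1 ω t g]
    have e2 : ∑ t : Fin m, ∑ g : Fin B, (2 + r * ∑ x ∈ Trip r, W ω t g x + r * (δ / 2)) =
        2 * (m * B) + r * (∑ t, ∑ g : Fin B, ∑ x ∈ Trip r, W ω t g x) + m * B * r * (δ / 2) := by
      simp only [Finset.sum_add_distrib, Finset.mul_sum]
      simp
      ring
    have e3 := (hcov ω).trans (e1.trans e2.le)
    have e4 : 12 ≤ r * δ := by
      rw [div_le_iff₀ hδ] at hr
      exact hr
    have hmB : (0 : ℝ) < m * B := mul_pos hm0 hB0'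
    have e5 : 2 * ((m : ℝ) * B) ≤ r * (δ / 6) * (m * B) := by nlinarith
    have e6 : r * (δ / 3 * (m * B)) ≤ r * (∑ t, ∑ g : Fin B, ∑ x ∈ Trip r, W ω t g x) := by
      nlinarith
    exact le_of_mul_le_mul_left e6 hr0
  -- sum of the weights
  have h3 : δ / 3 * (m * B) ≤ ∑ g : Fin B, ∑ x ∈ Trip r,
      S.Wt F δ (lv r g x.1) (lv r g x.2.1) (lv r g x.2.2) := by
    calc δ / 3 * (m * B) = S.EX (fun _ : Fin m → S.Ω => δ / 3 * (m * B)) := (S.EX_const _).symm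
      _ ≤ S.EX (fun ω => ∑ g : Fin B, ∑ x ∈ Trip r, ∑ t, W ω t g x) := by
          refine S.EX_mono fun ω => (h2 ω).trans (le_of_eq ?_)
          rw [Finset.sum_comm]
          exact Finset.sum_congr rfl fun g _ => Finset.sum_comm
      _ = ∑ g : Fin B, ∑ x ∈ Trip r, S.EX (fun ω => ∑ t, W ω t g x) := by
          rw [S.EX_sum]
          exact Finset.sum_congr rfl fun g _ => S.EX_sum _ _
      _ = _ := rfl
  -- sum of the drops
  have h4 : ∑ g : Fin B, ∑ x ∈ Trip r, ∑ t, ∑ t' ∈ univ.erase t,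
      S.Dr F δ (lv r g x.1) (lv r g x.2.1) (lv r g x.2.2) t t' ≤ 2 * (m : ℝ) ^ 2 * (r : ℝ) ^ 3 := by
    have e1 : ∀ x ∈ Trip r, ∀ t t' : Fin m, t' ∈ univ.erase t →
        ∑ g : Fin B, S.Dr F δ (lv r g x.1) (lv r g x.2.1) (lv r g x.2.2) t t' ≤ 2 := by
      intro x hx t t' ht'
      rw [mem_Trip] at hx
      have := S.drop_sum F δ hT hE hP hδ hεδ hN hθ B r hD (α := x.1) (β := x.2.1) (γ := x.2.2)
        hx.1 hx.2 x.2.2.isLt (t := t) (t' := t') (Finset.ne_of_mem_erase ht').symm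
      linarith
    calc ∑ g : Fin B, ∑ x ∈ Trip r, ∑ t, ∑ t' ∈ univ.erase t,
          S.Dr F δ (lv r g x.1) (lv r g x.2.1) (lv r g x.2.2) t t'
        = ∑ x ∈ Trip r, ∑ t, ∑ t' ∈ univ.erase t, ∑ g : Fin B,
          S.Dr F δ (lv r g x.1) (lv r g x.2.1) (lv r g x.2.2) t t' := by
          rw [Finset.sum_comm]
          refine Finset.sum_congr rfl fun x _ => ?_
          rw [Finset.sum_comm]
          refine Finset.sum_congr rfl fun t _ => ?_
          rw [Finset.sum_comm]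
      _ ≤ ∑ x ∈ Trip r, ∑ t : Fin m, ∑ t' ∈ univ.erase t, (2 : ℝ) :=
          Finset.sum_le_sum fun x hx => Finset.sum_le_sum fun t _ =>
            Finset.sum_le_sum fun t' ht' => e1 x hx t t' ht'
      _ ≤ ∑ x ∈ Trip r, ∑ t : Fin m, ∑ t' : Fin m, (2 : ℝ) :=
          Finset.sum_le_sum fun x _ => Finset.sum_le_sum fun t _ =>
            Finset.sum_le_sum_of_subset_of_nonneg (erase_subset _ _) fun _ _ _ => by norm_num
      _ = (Trip r).card * (2 * (m : ℝ) ^ 2) := by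
          simp only [Finset.sum_const, Finset.card_univ, Fintype.card_fin, nsmul_eq_mul]
          ring
      _ ≤ (r : ℝ) ^ 3 * (2 * (m : ℝ) ^ 2) :=
          mul_le_mul_of_nonneg_right (card_Trip_le r) (by positivity)
      _ = 2 * (m : ℝ) ^ 2 * (r : ℝ) ^ 3 := by ring
  -- the pigeonhole
  have h5 : 0 < ∑ g : Fin B, ∑ x ∈ Trip r,
      (S.Wt F δ (lv r g x.1) (lv r g x.2.1) (lv r g x.2.2) - δ / (8 * (r : ℝ) ^ 3) * m -
        m / η * ∑ t, ∑ t' ∈ univ.erase t,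
          S.Dr F δ (lv r g x.1) (lv r g x.2.1) (lv r g x.2.2) t t') := by
    have e1 : ∑ g : Fin B, ∑ x ∈ Trip r,
      (S.Wt F δ (lv r g x.1) (lv r g x.2.1) (lv r g x.2.2) - δ / (8 * (r : ℝ) ^ 3) * m -
        m / η * ∑ t, ∑ t' ∈ univ.erase t,
          S.Dr F δ (lv r g x.1) (lv r g x.2.1) (lv r g x.2.2) t t') =
        ∑ g : Fin B, ∑ x ∈ Trip r, S.Wt F δ (lv r g x.1) (lv r g x.2.1) (lv r g x.2.2) -
        B * ((Trip r).card * (δ / (8 * (r : ℝ) ^ 3) * m)) -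
        m / η * ∑ g : Fin B, ∑ x ∈ Trip r, ∑ t, ∑ t' ∈ univ.erase t,
          S.Dr F δ (lv r g x.1) (lv r g x.2.1) (lv r g x.2.2) t t' := by
      simp only [Finset.sum_sub_distrib, Finset.mul_sum]
      simp
    rw [e1]
    have e2 : (B : ℝ) * ((Trip r).card * (δ / (8 * (r : ℝ) ^ 3) * m)) ≤ δ / 8 * (m * B) := by
      have hc : ((Trip r).card : ℝ) * (δ / (8 * (r : ℝ) ^ 3) * m) ≤
          (r : ℝ) ^ 3 * (δ / (8 * (r : ℝ) ^ 3) * m) :=
        mul_le_mul_of_nonneg_right (card_Trip_le r) (by positivity)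
      have hc2 : (r : ℝ) ^ 3 * (δ / (8 * (r : ℝ) ^ 3) * m) = δ / 8 * m := by
        field_simp
      rw [hc2] at hc
      calc (B : ℝ) * ((Trip r).card * (δ / (8 * (r : ℝ) ^ 3) * m)) ≤ B * (δ / 8 * m) :=
            mul_le_mul_of_nonneg_left hc hB0'.le
        _ = δ / 8 * (m * B) := by ring
    have e3 : (m : ℝ) / η * (∑ g : Fin B, ∑ x ∈ Trip r, ∑ t, ∑ t' ∈ univ.erase t,
          S.Dr F δ (lv r g x.1) (lv r g x.2.1) (lv r g x.2.2) t t') ≤ δ / 8 * (m * B) := by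
      have hk : 16 * (m : ℝ) ^ 2 * (r : ℝ) ^ 3 ≤ B * (η * δ) := by
        rwa [div_le_iff₀ (by positivity)] at hB
      calc (m : ℝ) / η * (∑ g : Fin B, ∑ x ∈ Trip r, ∑ t, ∑ t' ∈ univ.erase t,
          S.Dr F δ (lv r g x.1) (lv r g x.2.1) (lv r g x.2.2) t t')
          ≤ m / η * (2 * (m : ℝ) ^ 2 * (r : ℝ) ^ 3) :=
            mul_le_mul_of_nonneg_left h4 (by positivity)
        _ ≤ m / η * (B * (η * δ) / 8) := by
            refine mul_le_mul_of_nonneg_left ?_ (by positivity)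
            linarith
        _ = δ / 8 * (m * B) := by field_simp
    have hmB : (0 : ℝ) < m * B := mul_pos hm0 hB0'
    have : 0 < δ * (m * B) := mul_pos hδ hmB
    nlinarith
  obtain ⟨g, x, hx, hpos⟩ : ∃ (g : Fin B) (x : Fin r × Fin r × Fin r), x ∈ Trip r ∧
      0 < S.Wt F δ (lv r g x.1) (lv r g x.2.1) (lv r g x.2.2) - δ / (8 * (r : ℝ) ^ 3) * m -
        m / η * ∑ t, ∑ t' ∈ univ.erase t,
          S.Dr F δ (lv r g x.1) (lv r g x.2.1) (lv r g x.2.2) t t' := by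
    by_contra hcon
    push Not at hcon
    exact absurd h5 (not_lt.2 (Finset.sum_nonpos fun g _ => Finset.sum_nonpos fun x hx =>
      hcon g x hx))
  rw [mem_Trip] at hx
  have hdr : 0 ≤ ∑ t, ∑ t' ∈ univ.erase t,
      S.Dr F δ (lv r g x.1) (lv r g x.2.1) (lv r g x.2.2) t t' :=
    Finset.sum_nonneg fun t _ => Finset.sum_nonneg fun t' _ => S.Dr_nonneg F δ _ _ _ t t'
  have hwt := S.Wt_le F δ hN (lv r g x.1) (lv r g x.2.1) (lv r g x.2.2)
  have hmη : 0 < (m : ℝ) / η := div_pos hm0 hη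
  refine ⟨lv r g x.1, lv r g x.2.1, lv r g x.2.2, ?_, ?_, ?_, ?_, ?_⟩
  · have := hx.1
    unfold lv
    have : (x.1 : ℕ) < x.2.1 := hx.1
    omega
  · unfold lv
    have : (x.2.1 : ℕ) < x.2.2 := hx.2
    omega
  · unfold lv
    have e1 : (x.2.2 : ℕ) < r := x.2.2.isLt
    have e2 : (g : ℕ) + 1 ≤ B := g.isLt
    have e3 : ((g : ℕ) + 1) * r ≤ B * r := Nat.mul_le_mul_right r e2
    have e4 : ((g : ℕ) + 1) * r = g * r + r := by ring
    omega
  · have : 0 ≤ (m : ℝ) / η * ∑ t, ∑ t' ∈ univ.erase t,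
      S.Dr F δ (lv r g x.1) (lv r g x.2.1) (lv r g x.2.2) t t' := mul_nonneg hmη.le hdr
    linarith
  · have h6 : 0 ≤ δ / (8 * (r : ℝ) ^ 3) * m := by positivity
    have h7 : (m : ℝ) / η * (∑ t, ∑ t' ∈ univ.erase t,
      S.Dr F δ (lv r g x.1) (lv r g x.2.1) (lv r g x.2.2) t t') ≤ m / η * η := by
      have : (m : ℝ) / η * η = m := by field_simp
      rw [this]
      linarith
    exact le_of_mul_le_mul_left h7 hmη

end TreeSys

end Pool.Agent.Hhelper10.Dom
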