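import Pool.Agent.Hhelper10.Dom.Basic

/-! Local facts about nodes (MP_f4fe70_co). -/

set_option autoImplicit false
set_option linter.unusedSectionVars false

open Finset

namespace Pool.Agent.Hhelper10.Dom

variable {V : Type} [Fintype V] [DecidableEq V] {adj : V → V → Prop} {Has : Finset V → Prop}

lemma IsTour.total (hT : IsTour adj) {u v : V} (h : u ≠ v) : adj u v ∨ adj v u := by
  by_cases h1 : adj u v
  · exact Or.inl h1
  · right
    by_contra h2
    exact h1 ((hT.2 u v h).2 h2)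

lemma IsTour.asymm (hT : IsTour adj) {u v : V} (h : adj u v) : ¬ adj v u := by
  by_cases huv : u = v
  · subst huv; exact hT.1 u
  · exact (hT.2 u v huv).1 h

/-- sum of a nonnegative weight over `A ∩ support` -/
lemma Heavy.sum_inter {ε : ℝ} {M : ℕ} {q : Finset V} {ν : V → ℝ} (hq : Heavy Has ε M q ν)
    (A : Finset V) : ∑ v ∈ A, ν v = ∑ v ∈ A ∩ q, ν v := by
  classical
  symm
  apply Finset.sum_subset Finset.inter_subset_left
  intro v hv hv'
  apply hq.supp
  intro h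
  exact hv' (Finset.mem_inter.2 ⟨hv, h⟩)

lemma Heavy.single {ε : ℝ} {M : ℕ} {q : Finset V} {ν : V → ℝ} (hq : Heavy Has ε M q ν)
    (y : V) : ν y ≤ ε := by
  have := hq.small {y} (Or.inr (by simp))
  simpa using this

/-- (A): a good node sees every vertex on one of the two sides. -/
lemma good_total (hT : IsTour adj) {ε : ℝ} {M : ℕ} {q F : Finset V} {ν : V → ℝ}
    (hq : Heavy Has ε M q ν) (hg : 2 * ε < ∑ v ∈ F, ν v) (y : V) :
    Lp adj Has F q y ∨ Rp adj Has F q y := by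
  classical
  by_contra hcon
  push Not at hcon
  obtain ⟨hL, hR⟩ := hcon
  unfold Lp at hL
  unfold Rp at hR
  push Not at hR
  obtain ⟨hyq, hR⟩ := hR
  have h1 := hq.small _ (Or.inl hL)
  have h2 := hq.small _ (Or.inl hR)
  have h3 : ∑ v ∈ F, ν v ≤ ∑ v ∈ out adj y (F ∩ q), ν v + ∑ v ∈ inn adj y (F ∩ q), ν v := by
    rw [hq.sum_inter F, ← Finset.sum_union_inter]
    have hsub : F ∩ q ⊆ out adj y (F ∩ q) ∪ inn adj y (F ∩ q) := by
      intro v hv
      have hvy : y ≠ v := by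
        rintro rfl
        exact hyq (Finset.mem_inter.1 hv).2
      rw [Finset.mem_union]
      rcases hT.total hvy with h | h
      · left; simp only [out, Finset.mem_filter]; exact ⟨hv, h⟩
      · right; simp only [inn, Finset.mem_filter]; exact ⟨hv, h⟩
    have h4 := Finset.sum_le_sum_of_subset_of_nonneg hsub (fun v _ _ => hq.nonneg v)
    have h5 : 0 ≤ ∑ v ∈ out adj y (F ∩ q) ∩ inn adj y (F ∩ q), ν v :=
      Finset.sum_nonneg fun v _ => hq.nonneg v
    linarith
  linarith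

/-- (B) -/
lemma not_L_R (hT : IsTour adj) (hE : ¬ Has ∅) {F q q' : Finset V}
    (hP : ¬ Pat adj Has F) (hqq : ∀ x ∈ q, ∀ z ∈ q', adj x z) {y : V} (hy : y ∈ F) :
    ¬ (Lp adj Has F q y ∧ Rp adj Has F q' y) := by
  classical
  rintro ⟨hL, hR⟩
  rcases hR with hR | hR
  · have hne : (out adj y (F ∩ q)).Nonempty := by
      rw [Finset.nonempty_iff_ne_empty]
      intro h0
      unfold Lp at hL
      rw [h0] at hL
      exact hE hL
    obtain ⟨z, hz⟩ := hne
    simp only [out, Finset.mem_filter, Finset.mem_inter] at hz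
    exact hT.asymm hz.2 (hqq z hz.1.2 y hR)
  · apply hP
    refine ⟨y, hy, out adj y (F ∩ q), inn adj y (F ∩ q'), ?_, ?_, hL, hR, ?_, ?_, ?_⟩
    · intro v hv
      simp only [out, Finset.mem_filter, Finset.mem_inter] at hv
      exact hv.1.1
    · intro v hv
      simp only [inn, Finset.mem_filter, Finset.mem_inter] at hv
      exact hv.1.1
    · intro v hv
      simp only [out, Finset.mem_filter, Finset.mem_inter] at hv
      exact hv.2
    · intro v hv w hw
      simp only [out, Finset.mem_filter, Finset.mem_inter] at hv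
      simp only [inn, Finset.mem_filter, Finset.mem_inter] at hw
      exact hqq v hv.1.2 w hw.1.2
    · intro v hv
      simp only [inn, Finset.mem_filter, Finset.mem_inter] at hv
      exact hv.2

/-- (C) -/
lemma R_up (hT : IsTour adj) (hE : ¬ Has ∅) {ε : ℝ} {M : ℕ} {q q' F : Finset V} {ν : V → ℝ}
    (hq : Heavy Has ε M q ν) (hg : 2 * ε < ∑ v ∈ F, ν v)
    (hP : ¬ Pat adj Has F) (hqq : ∀ x ∈ q, ∀ z ∈ q', adj x z) {y : V} (hy : y ∈ F)
    (hR : Rp adj Has F q' y) : Rp adj Has F q y := by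
  rcases good_total hT hq hg y with h | h
  · exact absurd ⟨h, hR⟩ (not_L_R hT hE hP hqq hy)
  · exact h

/-- (D), out-neighbours -/
lemma small_out {ε : ℝ} {M : ℕ} {q F : Finset V} {ν : V → ℝ}
    (hq : Heavy Has ε M q ν) {y : V} (hL : ¬ Lp adj Has F q y) :
    ∑ v, ν v * ind (v ∈ F ∧ adj y v) ≤ ε := by
  classical
  have h1 := hq.small _ (Or.inl hL)
  refine le_trans (le_of_eq ?_) h1
  have h2 : ∑ v, ν v * ind (v ∈ F ∧ adj y v) = ∑ v ∈ F.filter (fun v => adj y v), ν v := by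
    rw [sum_mem_eq_ind ν (F.filter (fun v => adj y v))]
    refine Finset.sum_congr rfl fun v _ => ?_
    rw [ind_congr (p := v ∈ F ∧ adj y v)]
    simp
  rw [h2, hq.sum_inter]
  apply Finset.sum_congr _ (fun _ _ => rfl)
  ext v
  simp only [out, Finset.mem_filter, Finset.mem_inter]
  tauto

/-- (D), in-neighbours -/
lemma small_in {ε : ℝ} {M : ℕ} {q F : Finset V} {ν : V → ℝ}
    (hq : Heavy Has ε M q ν) {y : V} (hR : ¬ Rp adj Has F q y) :
    ∑ v, ν v * ind (v ∈ F ∧ adj v y) ≤ ε := by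
  classical
  unfold Rp at hR
  push Not at hR
  have h1 := hq.small _ (Or.inl hR.2)
  refine le_trans (le_of_eq ?_) h1
  have h2 : ∑ v, ν v * ind (v ∈ F ∧ adj v y) = ∑ v ∈ F.filter (fun v => adj v y), ν v := by
    rw [sum_mem_eq_ind ν (F.filter (fun v => adj v y))]
    refine Finset.sum_congr rfl fun v _ => ?_
    rw [ind_congr (p := v ∈ F ∧ adj v y)]
    simp
  rw [h2, hq.sum_inter]
  apply Finset.sum_congr _ (fun _ _ => rfl)
  ext v
  simp only [inn, Finset.mem_filter, Finset.mem_inter]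
  tauto

lemma small_eq {ε : ℝ} {M : ℕ} {q : Finset V} {ν : V → ℝ}
    (hq : Heavy Has ε M q ν) (y : V) :
    ∑ v, ν v * ind (y = v) ≤ ε := by
  classical
  have : ∑ v, ν v * ind (y = v) = ν y := by
    rw [Finset.sum_eq_single y]
    · rw [ind_of rfl, mul_one]
    · intro v _ hv
      rw [ind_not (Ne.symm hv), mul_zero]
    · intro h; exact absurd (Finset.mem_univ y) h
  rw [this]
  exact hq.single y

/-- averaging an inequality over a probability weight -/
lemma wavg_le {ι : Type} [Fintype ι] {w : ι → ℝ} (hw : ∀ x, 0 ≤ w x) (hw1 : ∑ x, w x = 1)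
    {f : ι → ℝ} {c : ℝ} (h : ∀ x, f x ≤ c) : ∑ x, w x * f x ≤ c := by
  calc ∑ x, w x * f x ≤ ∑ x, w x * c :=
        Finset.sum_le_sum fun x _ => mul_le_mul_of_nonneg_left (h x) (hw x)
    _ = c := by rw [← Finset.sum_mul, hw1, one_mul]

lemma wavg_mono {ι : Type} [Fintype ι] {w : ι → ℝ} (hw : ∀ x, 0 ≤ w x)
    {f g : ι → ℝ} (h : ∀ x, f x ≤ g x) : ∑ x, w x * f x ≤ ∑ x, w x * g x :=
  Finset.sum_le_sum fun x _ => mul_le_mul_of_nonneg_left (h x) (hw x)

/-- the drop of the column `a ⇒ e` measured by `ν` -/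
noncomputable def dropm (adj : V → V → Prop) (Has : Finset V → Prop) (F a e : Finset V)
    (ν : V → ℝ) : ℝ :=
  ∑ y, ν y * ind (y ∈ F ∧ Rp adj Has F a y ∧ ¬ Rp adj Has F e y)

lemma dropm_nonneg {F a e : Finset V} {ν : V → ℝ} (hν : ∀ v, 0 ≤ ν v) :
    0 ≤ dropm adj Has F a e ν :=
  Finset.sum_nonneg fun v _ => mul_nonneg (hν v) (ind_nonneg _)

lemma dropm_le_one {F a e : Finset V} {ν : V → ℝ} (hν : ∀ v, 0 ≤ ν v) (h1 : ∑ v, ν v = 1) :
    dropm adj Has F a e ν ≤ 1 := by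
  unfold dropm
  exact wavg_le hν h1 fun v => ind_le_one _

/-- (★★): the relation `Rp a y'` versus `Rp a' y` is antisymmetric up to small measure. -/
lemma phi1 (hT : IsTour adj) (hE : ¬ Has ∅) {ε : ℝ} {M : ℕ} {F a b e a' b' e' : Finset V}
    {νa νb νa' νb' : V → ℝ} (hP : ¬ Pat adj Has F)
    (ha : Heavy Has ε M a νa) (hb : Heavy Has ε M b νb)
    (ha' : Heavy Has ε M a' νa') (hb' : Heavy Has ε M b' νb')
    (ga : 2 * ε < ∑ v ∈ F, νa v) (ga' : 2 * ε < ∑ v ∈ F, νa' v)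
    (hab : ∀ x ∈ a, ∀ z ∈ b, adj x z) (hbe : ∀ x ∈ b, ∀ z ∈ e, adj x z)
    (hab' : ∀ x ∈ a', ∀ z ∈ b', adj x z) (hbe' : ∀ x ∈ b', ∀ z ∈ e', adj x z) :
    ∑ y, νb' y * ∑ z, νb z * ind (y ∈ F ∧ z ∈ F ∧ (Rp adj Has F a y ↔ Rp adj Has F a' z)) ≤
      5 * ε + dropm adj Has F a e νb' + dropm adj Has F a' e' νb := by
  classical
  have pt : ∀ y z : V, ind (y ∈ F ∧ z ∈ F ∧ (Rp adj Has F a y ↔ Rp adj Has F a' z)) ≤
      ind (y ∈ F ∧ Rp adj Has F a y ∧ ¬ Rp adj Has F e y) +
      ind (z ∈ F ∧ Rp adj Has F a' z ∧ ¬ Rp adj Has F e' z) +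
      ind (y ∈ F ∧ Rp adj Has F e y) * ind (z ∈ F ∧ adj y z) +
      ind (z ∈ F ∧ Rp adj Has F e' z) * ind (y ∈ F ∧ adj z y) + ind (y = z) +
      ind (y ∈ F ∧ ¬ Rp adj Has F a y) * ind (z ∈ F ∧ adj z y) +
      ind (z ∈ F ∧ ¬ Rp adj Has F a' z) * ind (y ∈ F ∧ adj y z) := by
    intro y z
    have n1 := ind_nonneg (y ∈ F ∧ Rp adj Has F a y ∧ ¬ Rp adj Has F e y)
    have n2 := ind_nonneg (z ∈ F ∧ Rp adj Has F a' z ∧ ¬ Rp adj Has F e' z)
    have n3 := mul_nonneg (ind_nonneg (y ∈ F ∧ Rp adj Has F e y)) (ind_nonneg (z ∈ F ∧ adj y z))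
    have n4 := mul_nonneg (ind_nonneg (z ∈ F ∧ Rp adj Has F e' z)) (ind_nonneg (y ∈ F ∧ adj z y))
    have n5 := ind_nonneg (y = z)
    have n6 := mul_nonneg (ind_nonneg (y ∈ F ∧ ¬ Rp adj Has F a y))
      (ind_nonneg (z ∈ F ∧ adj z y))
    have n7 := mul_nonneg (ind_nonneg (z ∈ F ∧ ¬ Rp adj Has F a' z))
      (ind_nonneg (y ∈ F ∧ adj y z))
    by_cases h : y ∈ F ∧ z ∈ F ∧ (Rp adj Has F a y ↔ Rp adj Has F a' z)
    · rw [ind_of h]
      obtain ⟨hy, hz, hiff⟩ := h
      by_cases hyz : y = z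
      · rw [ind_of hyz] ; linarith
      · by_cases h1 : Rp adj Has F a y
        · have h2 := hiff.1 h1
          by_cases h3 : Rp adj Has F e y
          · by_cases h4 : Rp adj Has F e' z
            · rcases hT.total hyz with h5 | h5
              · have : ind (y ∈ F ∧ Rp adj Has F e y) * ind (z ∈ F ∧ adj y z) = 1 := by
                  rw [ind_of ⟨hy, h3⟩, ind_of ⟨hz, h5⟩, one_mul]
                linarith
              · have : ind (z ∈ F ∧ Rp adj Has F e' z) * ind (y ∈ F ∧ adj z y) = 1 := by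
                  rw [ind_of ⟨hz, h4⟩, ind_of ⟨hy, h5⟩, one_mul]
                linarith
            · have : ind (z ∈ F ∧ Rp adj Has F a' z ∧ ¬ Rp adj Has F e' z) = 1 :=
                ind_of ⟨hz, h2, h4⟩
              linarith
          · have : ind (y ∈ F ∧ Rp adj Has F a y ∧ ¬ Rp adj Has F e y) = 1 :=
              ind_of ⟨hy, h1, h3⟩
            linarith
        · have h2 : ¬ Rp adj Has F a' z := fun h => h1 (hiff.2 h)
          rcases hT.total hyz with h5 | h5
          · have : ind (z ∈ F ∧ ¬ Rp adj Has F a' z) * ind (y ∈ F ∧ adj y z) = 1 := by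
              rw [ind_of ⟨hz, h2⟩, ind_of ⟨hy, h5⟩, one_mul]
            linarith
          · have : ind (y ∈ F ∧ ¬ Rp adj Has F a y) * ind (z ∈ F ∧ adj z y) = 1 := by
              rw [ind_of ⟨hy, h1⟩, ind_of ⟨hz, h5⟩, one_mul]
            linarith
    · rw [ind_not h]; linarith
  -- integrate
  have hε : 0 ≤ ε := by
    have h0 := hb.small ∅ (Or.inr (by simp))
    simpa using h0
  have I1 : ∑ y, νb' y * ∑ z, νb z * ind (y ∈ F ∧ Rp adj Has F a y ∧ ¬ Rp adj Has F e y) ≤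
      dropm adj Has F a e νb' := by
    unfold dropm
    apply wavg_mono hb'.nonneg
    intro y
    rw [← Finset.sum_mul, hb.sum_one, one_mul]
  have I2 : ∑ y, νb' y * ∑ z, νb z * ind (z ∈ F ∧ Rp adj Has F a' z ∧ ¬ Rp adj Has F e' z) ≤
      dropm adj Has F a' e' νb := by
    unfold dropm
    exact wavg_le hb'.nonneg hb'.sum_one fun y => le_rfl
  have I3 : ∑ y, νb' y * ∑ z, νb z * (ind (y ∈ F ∧ Rp adj Has F e y) * ind (z ∈ F ∧ adj y z)) ≤
      ε := by
    apply wavg_le hb'.nonneg hb'.sum_one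
    intro y
    by_cases h : y ∈ F ∧ Rp adj Has F e y
    · simp only [ind_of h, one_mul]
      apply small_out hb
      intro hL
      exact not_L_R hT hE hP hbe h.1 ⟨hL, h.2⟩
    · simp only [ind_not h, zero_mul, mul_zero, Finset.sum_const_zero]
      exact hε
  have I6 : ∑ y, νb' y * ∑ z, νb z * (ind (y ∈ F ∧ ¬ Rp adj Has F a y) * ind (z ∈ F ∧ adj z y)) ≤
      ε := by
    apply wavg_le hb'.nonneg hb'.sum_one
    intro y
    by_cases h : y ∈ F ∧ ¬ Rp adj Has F a y
    · simp only [ind_of h, one_mul]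
      apply small_in hb
      intro hR
      exact h.2 (R_up hT hE ha ga hP hab h.1 hR)
    · simp only [ind_not h, zero_mul, mul_zero, Finset.sum_const_zero]
      exact hε
  have I5 : ∑ y, νb' y * ∑ z, νb z * ind (y = z) ≤ ε :=
    wavg_le hb'.nonneg hb'.sum_one fun y => small_eq hb y
  have swap : ∀ f : V → V → ℝ, ∑ y, νb' y * ∑ z, νb z * f y z = ∑ z, νb z * ∑ y, νb' y * f y z := by
    intro f
    simp only [Finset.mul_sum]
    rw [Finset.sum_comm]
    exact Finset.sum_congr rfl fun z _ => Finset.sum_congr rfl fun y _ => by ring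
  have I4 : ∑ y, νb' y * ∑ z, νb z * (ind (z ∈ F ∧ Rp adj Has F e' z) * ind (y ∈ F ∧ adj z y)) ≤
      ε := by
    rw [swap]
    apply wavg_le hb.nonneg hb.sum_one
    intro z
    by_cases h : z ∈ F ∧ Rp adj Has F e' z
    · simp only [ind_of h, one_mul]
      apply small_out hb'
      intro hL
      exact not_L_R hT hE hP hbe' h.1 ⟨hL, h.2⟩
    · simp only [ind_not h, zero_mul, mul_zero, Finset.sum_const_zero]
      exact hε
  have I7 : ∑ y, νb' y * ∑ z, νb z * (ind (z ∈ F ∧ ¬ Rp adj Has F a' z) * ind (y ∈ F ∧ adj y z)) ≤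
      ε := by
    rw [swap]
    apply wavg_le hb.nonneg hb.sum_one
    intro z
    by_cases h : z ∈ F ∧ ¬ Rp adj Has F a' z
    · simp only [ind_of h, one_mul]
      apply small_in hb'
      intro hR
      exact h.2 (R_up hT hE ha' ga' hP hab' h.1 hR)
    · simp only [ind_not h, zero_mul, mul_zero, Finset.sum_const_zero]
      exact hε
  have tot : ∑ y, νb' y * ∑ z, νb z *
      ind (y ∈ F ∧ z ∈ F ∧ (Rp adj Has F a y ↔ Rp adj Has F a' z)) ≤
      ∑ y, νb' y * ∑ z, νb z * (ind (y ∈ F ∧ Rp adj Has F a y ∧ ¬ Rp adj Has F e y) +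
      ind (z ∈ F ∧ Rp adj Has F a' z ∧ ¬ Rp adj Has F e' z) +
      ind (y ∈ F ∧ Rp adj Has F e y) * ind (z ∈ F ∧ adj y z) +
      ind (z ∈ F ∧ Rp adj Has F e' z) * ind (y ∈ F ∧ adj z y) + ind (y = z) +
      ind (y ∈ F ∧ ¬ Rp adj Has F a y) * ind (z ∈ F ∧ adj z y) +
      ind (z ∈ F ∧ ¬ Rp adj Has F a' z) * ind (y ∈ F ∧ adj y z)) :=
    wavg_mono hb'.nonneg fun y => wavg_mono hb.nonneg fun z => pt y z
  refine le_trans tot ?_
  simp only [mul_add, Finset.sum_add_distrib]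
  linarith

/-- (★): for `y`, `y'` below the same node `a'`, `Rp a y` and `¬ Rp a y'` is rare. -/
lemma phi2 (hT : IsTour adj) (hE : ¬ Has ∅) {ε δ : ℝ} {M : ℕ} {F a b e a' b' e' b'' : Finset V}
    {νa νb νa' νb' νb'' : V → ℝ} (hP : ¬ Pat adj Has F) (hδ : 0 < δ) (hεδ : 12 * ε ≤ δ)
    (ha : Heavy Has ε M a νa) (hb : Heavy Has ε M b νb)
    (ha' : Heavy Has ε M a' νa') (hb' : Heavy Has ε M b' νb') (hb'' : Heavy Has ε M b'' νb'')
    (ga : 2 * ε < ∑ v ∈ F, νa v) (ga' : 2 * ε < ∑ v ∈ F, νa' v) (gb : δ / 2 ≤ ∑ v ∈ F, νb v)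
    (hab : ∀ x ∈ a, ∀ z ∈ b, adj x z) (hbe : ∀ x ∈ b, ∀ z ∈ e, adj x z)
    (hbe' : ∀ x ∈ b', ∀ z ∈ e', adj x z) (hab'' : ∀ x ∈ a', ∀ z ∈ b'', adj x z) :
    ∑ y, νb' y * ∑ y', νb'' y' *
        ind (y ∈ F ∧ y' ∈ F ∧ Rp adj Has F a y ∧ ¬ Rp adj Has F a y') ≤
      dropm adj Has F a e νb' + 4 / δ * (ε + dropm adj Has F a' e' νb) := by
  classical
  have hε : 0 ≤ ε := by
    have h0 := hb.small ∅ (Or.inr (by simp))
    simpa using h0
  -- pointwise: the good part
  have key : ∀ y y' : V,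
      δ / 4 * ind (y ∈ F ∧ y' ∈ F ∧ Rp adj Has F e y ∧ ¬ Rp adj Has F a y') ≤
      ∑ z, νb z * ind (z ∈ F ∧ y ∈ F ∧ y' ∈ F ∧ adj z y ∧ adj y' z) := by
    intro y y'
    by_cases h : y ∈ F ∧ y' ∈ F ∧ Rp adj Has F e y ∧ ¬ Rp adj Has F a y'
    · obtain ⟨hy, hy', h1, h2⟩ := h
      rw [ind_of ⟨hy, hy', h1, h2⟩, mul_one]
      have e1 : ∑ v, νb v * ind (v ∈ F ∧ adj y v) ≤ ε := by
        apply small_out hb
        intro hL
        exact not_L_R hT hE hP hbe hy ⟨hL, h1⟩
      have hRb : ¬ Rp adj Has F b y' := fun hR => h2 (R_up hT hE ha ga hP hab hy' hR)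
      have e2 : ∑ v, νb v * ind (v ∈ F ∧ adj v y') ≤ ε := small_in hb hRb
      have e3 : ∑ v, νb v * ind (y = v) ≤ ε := small_eq hb y
      have hy'b : y' ∉ b := fun h => hRb (Or.inl h)
      have e4 : ∑ v, νb v * ind (v ∈ F) ≤
          ∑ v, νb v * ind (v ∈ F ∧ y ∈ F ∧ y' ∈ F ∧ adj v y ∧ adj y' v) +
          ∑ v, νb v * ind (v ∈ F ∧ adj y v) + ∑ v, νb v * ind (v ∈ F ∧ adj v y') +
          ∑ v, νb v * ind (y = v) := by
        rw [← Finset.sum_add_distrib, ← Finset.sum_add_distrib, ← Finset.sum_add_distrib]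
        apply Finset.sum_le_sum
        intro v _
        rw [← mul_add, ← mul_add, ← mul_add]
        by_cases hv0 : v ∈ b
        · apply mul_le_mul_of_nonneg_left _ (hb.nonneg v)
          have n1 := ind_nonneg (v ∈ F ∧ y ∈ F ∧ y' ∈ F ∧ adj v y ∧ adj y' v)
          have n2 := ind_nonneg (v ∈ F ∧ adj y v)
          have n3 := ind_nonneg (v ∈ F ∧ adj v y')
          have n4 := ind_nonneg (y = v)
          by_cases hv : v ∈ F
          · rw [ind_of hv]
            by_cases hyv : y = v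
            · rw [ind_of hyv]; linarith
            · have hvy' : y' ≠ v := by rintro rfl; exact hy'b hv0
              rcases hT.total hyv with h5 | h5
              · have : ind (v ∈ F ∧ adj y v) = 1 := ind_of ⟨hv, h5⟩
                linarith
              · rcases hT.total hvy' with h6 | h6
                · have : ind (v ∈ F ∧ y ∈ F ∧ y' ∈ F ∧ adj v y ∧ adj y' v) = 1 :=
                    ind_of ⟨hv, hy, hy', h5, h6⟩
                  linarith
                · have : ind (v ∈ F ∧ adj v y') = 1 := ind_of ⟨hv, h6⟩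
                  linarith
          · rw [ind_not hv]; linarith
        · rw [hb.supp v hv0, zero_mul, zero_mul]
      rw [← sum_mem_eq_ind] at e4
      linarith
    · rw [ind_not h, mul_zero]
      exact Finset.sum_nonneg fun v _ => mul_nonneg (hb.nonneg v) (ind_nonneg _)
  -- integrate the pointwise bound
  have fixz : ∀ z : V, ∑ y, νb' y * ∑ y', νb'' y' *
      ind (z ∈ F ∧ y ∈ F ∧ y' ∈ F ∧ adj z y ∧ adj y' z) ≤
      ε + ind (z ∈ F ∧ Rp adj Has F a' z ∧ ¬ Rp adj Has F e' z) := by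
    intro z
    have hn := ind_nonneg (z ∈ F ∧ Rp adj Has F a' z ∧ ¬ Rp adj Has F e' z)
    by_cases hz : z ∈ F
    · by_cases h1 : Rp adj Has F a' z
      · by_cases h2 : Rp adj Has F e' z
        · -- few `y` with `adj z y`
          have e1 : ∑ y, νb' y * ind (y ∈ F ∧ adj z y) ≤ ε := by
            apply small_out hb'
            intro hL
            exact not_L_R hT hE hP hbe' hz ⟨hL, h2⟩
          have e2 : ∑ y, νb' y * ∑ y', νb'' y' *
              ind (z ∈ F ∧ y ∈ F ∧ y' ∈ F ∧ adj z y ∧ adj y' z) ≤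
              ∑ y, νb' y * ind (y ∈ F ∧ adj z y) := by
            apply wavg_mono hb'.nonneg
            intro y
            apply wavg_le hb''.nonneg hb''.sum_one
            intro y'
            apply ind_mono
            tauto
          linarith
        · rw [ind_of ⟨hz, h1, h2⟩]
          have e2 : ∑ y, νb' y * ∑ y', νb'' y' *
              ind (z ∈ F ∧ y ∈ F ∧ y' ∈ F ∧ adj z y ∧ adj y' z) ≤ 1 := by
            apply wavg_le hb'.nonneg hb'.sum_one
            intro y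
            apply wavg_le hb''.nonneg hb''.sum_one
            intro y'
            exact ind_le_one _
          linarith
      · have h3 : ¬ Rp adj Has F b'' z := fun hR => h1 (R_up hT hE ha' ga' hP hab'' hz hR)
        have e1 : ∑ y', νb'' y' * ind (y' ∈ F ∧ adj y' z) ≤ ε := small_in hb'' h3
        have e2 : ∑ y, νb' y * ∑ y', νb'' y' *
            ind (z ∈ F ∧ y ∈ F ∧ y' ∈ F ∧ adj z y ∧ adj y' z) ≤ ε := by
          apply wavg_le hb'.nonneg hb'.sum_one
          intro y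
          refine le_trans ?_ e1
          apply wavg_mono hb''.nonneg
          intro y'
          apply ind_mono
          tauto
        linarith
    · have e2 : ∑ y, νb' y * ∑ y', νb'' y' *
          ind (z ∈ F ∧ y ∈ F ∧ y' ∈ F ∧ adj z y ∧ adj y' z) ≤ 0 := by
        apply wavg_le hb'.nonneg hb'.sum_one
        intro y
        apply wavg_le hb''.nonneg hb''.sum_one
        intro y'
        rw [ind_not]
        tauto
      linarith
  have J1 : ∑ y, νb' y * ∑ y', νb'' y' *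
      ind (y ∈ F ∧ y' ∈ F ∧ Rp adj Has F a y ∧ ¬ Rp adj Has F a y') ≤
      dropm adj Has F a e νb' + ∑ y, νb' y * ∑ y', νb'' y' *
        ind (y ∈ F ∧ y' ∈ F ∧ Rp adj Has F e y ∧ ¬ Rp adj Has F a y') := by
    unfold dropm
    rw [← Finset.sum_add_distrib]
    apply Finset.sum_le_sum
    intro y _
    rw [← mul_add]
    apply mul_le_mul_of_nonneg_left _ (hb'.nonneg y)
    by_cases h : y ∈ F ∧ Rp adj Has F a y ∧ ¬ Rp adj Has F e y
    · rw [ind_of h]
      have n1 : 0 ≤ ∑ y', νb'' y' *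
          ind (y ∈ F ∧ y' ∈ F ∧ Rp adj Has F e y ∧ ¬ Rp adj Has F a y') :=
        Finset.sum_nonneg fun v _ => mul_nonneg (hb''.nonneg v) (ind_nonneg _)
      have n2 : ∑ y', νb'' y' *
          ind (y ∈ F ∧ y' ∈ F ∧ Rp adj Has F a y ∧ ¬ Rp adj Has F a y') ≤ 1 :=
        wavg_le hb''.nonneg hb''.sum_one fun y' => ind_le_one _
      linarith
    · rw [ind_not h, zero_add]
      apply wavg_mono hb''.nonneg
      intro y'
      apply ind_mono
      rintro ⟨h1, h2, h3, h4⟩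
      refine ⟨h1, h2, ?_, h4⟩
      by_contra h5
      exact h ⟨h1, h3, h5⟩
  have J2 : δ / 4 * ∑ y, νb' y * ∑ y', νb'' y' *
        ind (y ∈ F ∧ y' ∈ F ∧ Rp adj Has F e y ∧ ¬ Rp adj Has F a y') ≤
      ε + dropm adj Has F a' e' νb := by
    calc δ / 4 * ∑ y, νb' y * ∑ y', νb'' y' *
        ind (y ∈ F ∧ y' ∈ F ∧ Rp adj Has F e y ∧ ¬ Rp adj Has F a y')
        = ∑ y, νb' y * ∑ y', νb'' y' *
        (δ / 4 * ind (y ∈ F ∧ y' ∈ F ∧ Rp adj Has F e y ∧ ¬ Rp adj Has F a y')) := by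
          simp only [Finset.mul_sum]
          exact Finset.sum_congr rfl fun y _ => Finset.sum_congr rfl fun y' _ => by ring
      _ ≤ ∑ y, νb' y * ∑ y', νb'' y' *
          ∑ z, νb z * ind (z ∈ F ∧ y ∈ F ∧ y' ∈ F ∧ adj z y ∧ adj y' z) :=
          wavg_mono hb'.nonneg fun y => wavg_mono hb''.nonneg fun y' => key y y'
      _ = ∑ z, νb z * ∑ y, νb' y * ∑ y', νb'' y' *
          ind (z ∈ F ∧ y ∈ F ∧ y' ∈ F ∧ adj z y ∧ adj y' z) := by
          simp only [Finset.mul_sum]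
          rw [Finset.sum_comm' (s := univ) (t := fun _ => univ) (t' := univ) (s' := fun _ => univ)
            (by simp)]
          rw [Finset.sum_comm]
          have : ∀ y : V, ∑ y' : V, ∑ z : V,
              νb' y * (νb'' y' * (νb z * ind (z ∈ F ∧ y ∈ F ∧ y' ∈ F ∧ adj z y ∧ adj y' z))) =
              ∑ z : V, ∑ y' : V,
              νb z * (νb' y * (νb'' y' * ind (z ∈ F ∧ y ∈ F ∧ y' ∈ F ∧ adj z y ∧ adj y' z))) := by
            intro y
            rw [Finset.sum_comm]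
            exact Finset.sum_congr rfl fun z _ => Finset.sum_congr rfl fun y' _ => by ring
          simp only [this]
          rw [Finset.sum_comm]
      _ ≤ ∑ z, νb z * (ε + ind (z ∈ F ∧ Rp adj Has F a' z ∧ ¬ Rp adj Has F e' z)) :=
          wavg_mono hb.nonneg fixz
      _ = ε + dropm adj Has F a' e' νb := by
          unfold dropm
          simp only [mul_add, Finset.sum_add_distrib]
          rw [← Finset.sum_mul, hb.sum_one, one_mul]
  have J3 : ∑ y, νb' y * ∑ y', νb'' y' *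
        ind (y ∈ F ∧ y' ∈ F ∧ Rp adj Has F e y ∧ ¬ Rp adj Has F a y') ≤
      4 / δ * (ε + dropm adj Has F a' e' νb) := by
    have h4 : ∑ y, νb' y * ∑ y', νb'' y' *
        ind (y ∈ F ∧ y' ∈ F ∧ Rp adj Has F e y ∧ ¬ Rp adj Has F a y') =
        4 / δ * (δ / 4 * ∑ y, νb' y * ∑ y', νb'' y' *
        ind (y ∈ F ∧ y' ∈ F ∧ Rp adj Has F e y ∧ ¬ Rp adj Has F a y')) := by
      field_simp
    rw [h4]
    exact mul_le_mul_of_nonneg_left J2 (by positivity)
  linarith

end Pool.Agent.Hhelper10.Dom
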