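import Pool.Agent.Lib.Brouwer

/-! Module A (MP_f4fe70_co): Brouwer gives a stationary law for a `Build` map. -/

set_option autoImplicit false

open Finset

namespace Pool.Agent.Hhelper10.Dom

/-- the law of `Build` of an iid family with law `lam` -/
noncomputable def pushLaw {T : Type} [Fintype T] {N : ℕ} (Build : (Fin N → T) → T)
    (lam : T → ℝ) (x : T) : ℝ :=
  open Classical in ∑ σ : Fin N → T, if Build σ = x then ∏ i, lam (σ i) else 0

theorem pushLaw_sum {T : Type} [Fintype T] {N : ℕ} (Build : (Fin N → T) → T)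
    (lam : T → ℝ) (φ : T → ℝ) :
    ∑ x, pushLaw Build lam x * φ x = ∑ σ : Fin N → T, (∏ i, lam (σ i)) * φ (Build σ) := by
  classical
  unfold pushLaw
  simp_rw [Finset.sum_mul]
  rw [Finset.sum_comm]
  refine Finset.sum_congr rfl fun σ _ => ?_
  rw [Finset.sum_eq_single (Build σ)]
  · rw [if_pos rfl]
  · intro b _ hb
    rw [if_neg (Ne.symm hb), zero_mul]
  · intro h
    exact absurd (Finset.mem_univ _) h

theorem exists_stationary {T : Type} [Fintype T] [Nonempty T] {N : ℕ} (Build : (Fin N → T) → T) :
    ∃ lam : T → ℝ, (∀ x, 0 ≤ lam x) ∧ ∑ x, lam x = 1 ∧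
      ∀ φ : T → ℝ, ∑ σ : Fin N → T, (∏ i, lam (σ i)) * φ (Build σ) = ∑ x, lam x * φ x := by
  classical
  obtain ⟨lam, hlam, hfix⟩ := Pool.Lib.brouwer_fixed_point_convex (V := T → ℝ)
    (K := stdSimplex ℝ T) (isCompact_stdSimplex ℝ T) (convex_stdSimplex ℝ T)
    ⟨Pi.single (Classical.arbitrary T) 1, single_mem_stdSimplex ℝ (Classical.arbitrary T)⟩
    (f := fun lam => pushLaw Build lam)
    (by
      refine Continuous.continuousOn ?_
      refine continuous_pi fun x => ?_
      unfold pushLaw
      refine continuous_finsetSum _ fun σ _ => ?_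
      split_ifs
      · exact continuous_finsetProd _ fun i _ => continuous_apply _
      · exact continuous_const)
    (by
      intro lam hlam
      refine ⟨fun x => ?_, ?_⟩
      · refine Finset.sum_nonneg fun σ _ => ?_
        split_ifs
        · exact Finset.prod_nonneg fun i _ => hlam.1 _
        · exact le_rfl
      · have h := pushLaw_sum Build lam (fun _ => 1)
        simp only [mul_one] at h
        rw [h]
        have h2 := (Finset.prod_univ_sum (fun _ : Fin N => (Finset.univ : Finset T))
          (fun _ x => lam x)).symm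
        rw [Fintype.piFinset_univ] at h2
        rw [h2]
        simp [hlam.2])
  refine ⟨lam, hlam.1, hlam.2, fun φ => ?_⟩
  rw [← pushLaw_sum]
  rw [hfix]

end Pool.Agent.Hhelper10.Dom
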