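import Pool.Agent.Hhelper10.Dom.CoreIneq

/-! Quantities of a stationary tree system (MP_f4fe70_co). -/

set_option autoImplicit false
set_option linter.unusedSectionVars false

open Finset

namespace Pool.Agent.Hhelper10.Dom

namespace TreeSys

variable {V : Type} [Fintype V] [DecidableEq V] {adj : V → V → Prop} {Has : Finset V → Prop}
  {ε : ℝ} {M' : ℕ} {U : Finset V} {D N : ℕ} {θ : ℝ}
  (S : TreeSys V adj Has ε M' U D N θ) {m : ℕ} (F : (Fin m → S.Ω) → Finset V) (δ : ℝ)

/-- expectation over `m` independent trees -/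
noncomputable def EX (f : (Fin m → S.Ω) → ℝ) : ℝ := EW (fun _ => S.p) f

/-- the node at level `ℓ` on the path `π` in the tree `t` is good -/
def gd (ω : Fin m → S.Ω) (t : Fin m) (ℓ : ℕ) (π : Fin D → Fin N) : Prop :=
  δ / 2 ≤ ∑ v ∈ F ω, S.nu (S.st (ω t) ℓ π) v

/-- expected number (over the trees) of the mass of paths good at the three levels -/
noncomputable def Wt (i j l : ℕ) : ℝ :=
  S.EX (fun ω => ∑ t, pavg (fun π => ind (S.gd F δ ω t i π ∧ S.gd F δ ω t j π ∧ S.gd F δ ω t l π)))

/-- expected drop of tree `t` between levels `i` and `l`, measured in level `j` of tree `t'` -/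
noncomputable def Dr (i j l : ℕ) (t t' : Fin m) : ℝ :=
  S.EX (fun ω => pavg (fun π => pavg (fun ρ =>
    ind (S.gd F δ ω t i π ∧ S.gd F δ ω t l π) *
      dropm adj Has (F ω) (S.Q (S.st (ω t) i π)) (S.Q (S.st (ω t) l π))
        (S.nu (S.st (ω t') j ρ)))))

/-- the `s`-th level of group `g` (groups of `r` levels, levels start at `1`) -/
def lv (r g s : ℕ) : ℕ := g * r + s + 1

end TreeSys

end Pool.Agent.Hhelper10.Dom
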